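import Pool.Agent.ExT.Ind

/-!
# Property (T) passes from `G` to `L(G)`
-/

noncomputable section

namespace Pool.Agent.ExT

open scoped ENNReal InnerProductSpace ComplexOrder Topology
open Filter MulOpposite
open Pool.Agent.InnerAm (ell2 leftReg rightReg delta normSq_ell2 rightReg_apply leftReg_apply
  delta_apply rightReg_delta leftReg_delta norm_delta star_leftReg leftReg_rightReg_comm
  leftReg_mul_inv inner_leftReg)

universe u v

variable {G : Type u} [Group G]

theorem leftReg_one : (leftReg (1 : G) : ell2 G →L[ℂ] ell2 G) = 1 := by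
  refine ContinuousLinearMap.ext fun ξ => ?_
  ext k
  rw [leftReg_apply, inv_one, one_mul]
  rfl

theorem leftReg_mul (g h : G) :
    (leftReg (g * h) : ell2 G →L[ℂ] ell2 G) = leftReg g * leftReg h := by
  refine ContinuousLinearMap.ext fun ξ => ?_
  ext k
  rw [mul_apply_eq_comp, leftReg_apply, leftReg_apply, leftReg_apply, mul_inv_rev, mul_assoc]

/-- The canonical unitary of `g` in `L(G)`. -/
def lam (g : G) : (LG G).A := ⟨leftReg g, leftReg_mem_LG g⟩

theorem lam_one : lam (1 : G) = 1 := Subtype.ext leftReg_one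

theorem lam_mul (g h : G) : lam (g * h) = lam g * lam h := Subtype.ext (leftReg_mul g h)

theorem star_lam (g : G) : star (lam g) = lam g⁻¹ := Subtype.ext (star_leftReg g)

section

variable {K : Type v} [NormedAddCommGroup K] [InnerProductSpace ℂ K] [CompleteSpace K]
  (B : (LG G).Bimodule K)

/-- The unitary representation of `G` attached to a bimodule. -/
def conjRep0 : G →* (K →L[ℂ] K) where
  toFun g := B.left (lam g) * B.right (op (lam g⁻¹))
  map_one' := by
    rw [inv_one, lam_one, map_one, op_one, map_one, one_mul]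
  map_mul' g h := by
    rw [mul_inv_rev, lam_mul, lam_mul, op_mul, map_mul, map_mul, mul_assoc, mul_assoc,
      ← mul_assoc (B.left (lam h)), B.comm, mul_assoc]

theorem star_conjRep0 (g : G) : star (conjRep0 B g) = conjRep0 B g⁻¹ := by
  show star (B.left (lam g) * B.right (op (lam g⁻¹))) =
    B.left (lam g⁻¹) * B.right (op (lam g⁻¹⁻¹))
  rw [star_mul, ← map_star, ← map_star, star_lam, ← op_star, star_lam, B.comm]

/-- The unitary representation of `G` attached to a bimodule. -/
def conjRep : G →* unitary (K →L[ℂ] K) where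
  toFun g := ⟨conjRep0 B g, by
    rw [Unitary.mem_iff, star_conjRep0, ← map_mul, ← map_mul, inv_mul_cancel, mul_inv_cancel,
      map_one]
    exact ⟨rfl, rfl⟩⟩
  map_one' := Subtype.ext (map_one _)
  map_mul' g h := Subtype.ext (map_mul _ g h)

theorem right_lam_mul (g : G) : B.right (op (lam g)) * B.right (op (lam g⁻¹)) = 1 := by
  rw [← map_mul, ← op_mul, ← lam_mul, inv_mul_cancel, lam_one, op_one, map_one]

theorem right_lam_mul' (g : G) : B.right (op (lam g⁻¹)) * B.right (op (lam g)) = 1 := by
  rw [← map_mul, ← op_mul, ← lam_mul, mul_inv_cancel, lam_one, op_one, map_one]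

theorem norm_right_lam (g : G) (v : K) : ‖B.right (op (lam g)) v‖ = ‖v‖ := by
  have h : star (B.right (op (lam g))) = B.right (op (lam g⁻¹)) := by
    rw [← map_star, ← op_star, star_lam]
  have h1 : ‖B.right (op (lam g)) v‖ ^ 2 = ‖v‖ ^ 2 := by
    have : ⟪B.right (op (lam g)) v, B.right (op (lam g)) v⟫_ℂ = ⟪v, v⟫_ℂ := by
      rw [← ContinuousLinearMap.adjoint_inner_right, ← ContinuousLinearMap.star_eq_adjoint, h,
        ← mul_apply_eq_comp, right_lam_mul']
      rfl
    rw [inner_self_eq_norm_sq_to_K, inner_self_eq_norm_sq_to_K] at this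
    exact_mod_cast this
  exact (pow_left_inj₀ (norm_nonneg _) (norm_nonneg _) two_ne_zero).1 h1

theorem conjRep0_sub (g : G) (v : K) :
    ‖conjRep0 B g v - v‖ = ‖B.left (lam g) v - B.right (op (lam g)) v‖ := by
  rw [← norm_right_lam B g]
  congr 1
  rw [map_sub]
  congr 1
  rw [← mul_apply_eq_comp]
  show (B.right (op (lam g)) * (B.left (lam g) * B.right (op (lam g⁻¹)))) v = _
  rw [← mul_assoc, ← B.comm, mul_assoc, right_lam_mul, mul_one]

theorem central_of_invariant (η : K) (h : ∀ g : G, conjRep0 B g η = η) :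
    ∀ x ∈ LGvn G, ∀ hx : x ∈ LGvn G, B.left ⟨x, hx⟩ η = B.right (op ⟨x, hx⟩) η := by
  have hl : ∀ g : G, B.left (lam g) η = B.right (op (lam g)) η := by
    intro g
    have := conjRep0_sub B g η
    rw [h g, sub_self, norm_zero] at this
    exact sub_eq_zero.1 (norm_eq_zero.1 this.symm)
  have hmul : ∀ x y : (LG G).A, B.left x η = B.right (op x) η → B.left y η = B.right (op y) η →
      B.left (x * y) η = B.right (op (x * y)) η := by
    intro x y hx hy
    rw [map_mul, mul_apply_eq_comp, hy, ← mul_apply_eq_comp, B.comm, mul_apply_eq_comp, hx,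
      ← mul_apply_eq_comp, ← map_mul, ← op_mul]
  have hadd : ∀ x y : (LG G).A, B.left x η = B.right (op x) η → B.left y η = B.right (op y) η →
      B.left (x + y) η = B.right (op (x + y)) η := by
    intro x y hx hy
    rw [map_add, add_apply, hx, hy, op_add, map_add, add_apply]
  refine LG_induction ?_ ?_ ?_ ?_ ?_ ?_
  · intro g hx
    exact hl g
  · intro x hx y hy h1 h2 hxy
    exact hadd ⟨x, hx⟩ ⟨y, hy⟩ (h1 hx) (h2 hy)
  · intro c x hx h1 hcx
    have e1 : (⟨c • x, hcx⟩ : (LG G).A) = c • ⟨x, hx⟩ := rfl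
    rw [e1, map_smul, op_smul, map_smul, smul_apply, smul_apply, h1 hx]
  · intro x hx y hy h1 h2 hxy
    exact hmul ⟨x, hx⟩ ⟨y, hy⟩ (h1 hx) (h2 hy)
  · intro a ha has h1 hr
    have h1' := h1 ha
    set a' : (LG G).A := ⟨a, ha⟩ with ha'
    set r' : (LG G).A := ⟨res a, hr⟩ with hr'
    have e1 : (1 + a' * a') * r' = 1 := Subtype.ext (mul_res has)
    have e2 : r' * (1 + a' * a') = 1 := Subtype.ext (res_mul has)
    have hone : B.left 1 η = B.right (op 1) η := by
      rw [map_one, op_one, map_one]
    have hb := hadd 1 (a' * a') hone (hmul a' a' h1' h1')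
    have e3 : B.left (1 + a' * a') (B.left r' η - B.right (op r') η) = 0 := by
      rw [map_sub, ← mul_apply_eq_comp, ← map_mul, e1, ← mul_apply_eq_comp, B.comm,
        mul_apply_eq_comp, hb, ← mul_apply_eq_comp, ← map_mul, ← op_mul, e1]
      simp
    have e4 : B.left r' η - B.right (op r') η = 0 := by
      have := congrArg (B.left r') e3
      rw [← mul_apply_eq_comp, ← map_mul, e2, map_one, map_zero] at this
      exact this
    exact sub_eq_zero.1 e4
  · intro x y hx hy hx1 hlim h1 hy'
    set y' : (LG G).A := ⟨y, hy⟩ with hy''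
    set x' : ℕ → (LG G).A := fun n => ⟨x n, hx n⟩ with hx'
    have hb : ∃ C : ℝ, ∀ n, ‖((x' n - y' : (LG G).A) : ell2 G →L[ℂ] ell2 G)‖ ≤ C := by
      refine ⟨1 + ‖y‖, fun n => ?_⟩
      refine (norm_sub_le _ _).trans ?_
      exact add_le_add (hx1 n) le_rfl
    have hl1 := B.left_normal (fun n => x' n - y') hb hlim η
    have hr1 := B.right_normal (fun n => x' n - y') hb hlim η
    have hd : Tendsto (fun n => B.left (x' n - y') η - B.right (op (x' n - y')) η) atTop
        (𝓝 (0 - 0)) := hl1.sub hr1
    have he : ∀ n, B.left (x' n - y') η - B.right (op (x' n - y')) η =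
        B.right (op y') η - B.left y' η := by
      intro n
      have h2 : B.left (x' n) η = B.right (op (x' n)) η := h1 n (hx n)
      rw [map_sub, op_sub, map_sub, sub_apply, sub_apply, h2]
      abel
    simp only [he, sub_zero] at hd
    have := tendsto_nhds_unique hd tendsto_const_nhds
    exact (sub_eq_zero.1 this.symm).symm

end

theorem LG_propertyT (hG : GroupPropertyT.{u, v} G) :
    (LG G).HasPropertyT.{u, v} := by
  classical
  obtain ⟨S, δ, hδ, hS⟩ := hG
  refine ⟨S.image lam, δ, hδ, ?_⟩
  intro K _ _ _ B ξ hξ h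
  obtain ⟨η, hη, hinv⟩ := hS K (conjRep B) ξ hξ (fun s hs => by
    have := h (lam s) (Finset.mem_image_of_mem _ hs)
    rw [← conjRep0_sub] at this
    exact this)
  exact ⟨η, hη, fun x => central_of_invariant B η hinv x.1 x.2 x.2⟩

end Pool.Agent.ExT
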