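import Mathlib

/-!
# Tracial von Neumann algebras, ultrapowers, existential embeddings, property (T), Haagerup

Definitions used for the problem MP_02fda4_an.
-/

noncomputable section

namespace Pool.Agent.ExT

open scoped InnerProductSpace ComplexOrder Topology
open Filter

universe u v w

/-- A tracial von Neumann algebra `(N, τ)`, realised concretely: a von Neumann algebra `alg` on a
Hilbert space `H` together with a unit vector `Ω` such that the (automatically normal) vector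
state `τ(x) = ⟨x Ω, Ω⟩` is a faithful trace on `alg`.  Every von Neumann algebra with a faithful
normal tracial state is of this form (in its standard representation). -/
structure TracialVNA (H : Type u) [NormedAddCommGroup H] [InnerProductSpace ℂ H]
    [CompleteSpace H] where
  /-- the von Neumann algebra -/
  alg : VonNeumannAlgebra H
  /-- the trace vector -/
  Ω : H
  norm_Ω : ‖Ω‖ = 1
  trace : ∀ x ∈ alg, ∀ y ∈ alg, ⟪Ω, (x * y) Ω⟫_ℂ = ⟪Ω, (y * x) Ω⟫_ℂ
  faithful : ∀ x ∈ alg, x Ω = 0 → x = 0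

namespace TracialVNA

variable {H : Type u} [NormedAddCommGroup H] [InnerProductSpace ℂ H] [CompleteSpace H]
variable {H' : Type w} [NormedAddCommGroup H'] [InnerProductSpace ℂ H'] [CompleteSpace H']
variable (N : TracialVNA H) (M : TracialVNA H')

/-- The underlying `*`-algebra of a tracial von Neumann algebra. -/
abbrev A : Type u := N.alg.toStarSubalgebra

variable {N M}

/-- The trace `τ(x) = ⟨x Ω, Ω⟩`. -/
def τ (x : N.A) : ℂ := ⟪N.Ω, (x : H →L[ℂ] H) N.Ω⟫_ℂ

/-- The norm `‖x‖₂ = τ(x* x)^{1/2} = ‖x Ω‖`. -/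
def norm2 (x : N.A) : ℝ := ‖(x : H →L[ℂ] H) N.Ω‖

variable (N)

/-- `N` is a II₁ factor: it has trivial centre and is infinite dimensional (it carries the
faithful normal trace `τ`). -/
def IsII1Factor : Prop :=
  (∀ z : N.A, (∀ x : N.A, z * x = x * z) → ∃ c : ℂ, z = c • (1 : N.A)) ∧
    ¬ FiniteDimensional ℂ N.A

/-- A normal, unital, trace preserving, completely positive map `φ : N → N` that induces a
compact operator on `L²(N)`, the closure of `N Ω`. -/
structure IsHaagerupMap (φ : N.A →ₗ[ℂ] N.A) : Prop where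
  unital : φ 1 = 1
  trace : ∀ x, τ (φ x) = τ x
  /-- complete positivity: the matrices `(φ(x_i* x_j))` are positive -/
  cp : ∀ (n : ℕ) (x : Fin n → N.A) (ξ : Fin n → H),
    0 ≤ ∑ i, ∑ j, ⟪ξ i, (φ (star (x i) * x j) : H →L[ℂ] H) (ξ j)⟫_ℂ
  /-- normality, i.e. strong continuity on bounded sets -/
  normal : ∀ x : ℕ → N.A, (∃ C : ℝ, ∀ n, ‖(x n : H →L[ℂ] H)‖ ≤ C) →
    Tendsto (fun n => norm2 (x n)) atTop (𝓝 0) →
    ∀ ξ : H, Tendsto (fun n => (φ (x n) : H →L[ℂ] H) ξ) atTop (𝓝 0)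
  /-- `φ` induces a compact operator on `L²(N)` -/
  compact : ∃ T : H →L[ℂ] H, IsCompactOperator T ∧
    ∀ x : N.A, T ((x : H →L[ℂ] H) N.Ω) = (φ x : H →L[ℂ] H) N.Ω

/-- The Haagerup property: there is a net of normal, unital, trace preserving, completely positive
maps `φ_i : N → N`, each inducing a compact operator on `L²(N)`, with `‖φ_i(x) - x‖₂ → 0` for all
`x ∈ N`.  The net is indexed by pairs `(F, ε)`. -/
def HasHaagerupProperty : Prop :=
  ∀ (F : Finset N.A) (ε : ℝ), 0 < ε →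
    ∃ φ : N.A →ₗ[ℂ] N.A, N.IsHaagerupMap φ ∧ ∀ x ∈ F, norm2 (φ x - x) < ε

/-- A Hilbert `N`-`N` bimodule: a Hilbert space with commuting normal unital `*`-representations
of `N` and of the opposite algebra of `N`.  Normality of a representation is expressed as strong
sequential continuity on bounded sets (the unit ball of `N` is metrised by `‖·‖₂`). -/
structure Bimodule (K : Type v) [NormedAddCommGroup K] [InnerProductSpace ℂ K]
    [CompleteSpace K] where
  left : N.A →⋆ₐ[ℂ] (K →L[ℂ] K)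
  right : (N.A)ᵐᵒᵖ →⋆ₐ[ℂ] (K →L[ℂ] K)
  comm : ∀ (x : N.A) (y : (N.A)ᵐᵒᵖ), left x * right y = right y * left x
  left_normal : ∀ x : ℕ → N.A, (∃ C : ℝ, ∀ n, ‖(x n : H →L[ℂ] H)‖ ≤ C) →
    Tendsto (fun n => norm2 (x n)) atTop (𝓝 0) →
    ∀ ξ : K, Tendsto (fun n => left (x n) ξ) atTop (𝓝 0)
  right_normal : ∀ x : ℕ → N.A, (∃ C : ℝ, ∀ n, ‖(x n : H →L[ℂ] H)‖ ≤ C) →
    Tendsto (fun n => norm2 (x n)) atTop (𝓝 0) →
    ∀ ξ : K, Tendsto (fun n => right (MulOpposite.op (x n)) ξ) atTop (𝓝 0)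

/-- Property (T) of Connes and Jones. -/
def HasPropertyT : Prop :=
  ∃ (F : Finset N.A) (δ : ℝ), 0 < δ ∧
    ∀ (K : Type v) [NormedAddCommGroup K] [InnerProductSpace ℂ K] [CompleteSpace K]
      (B : N.Bimodule K) (ξ : K), ‖ξ‖ = 1 →
      (∀ x ∈ F, ‖B.left x ξ - B.right (MulOpposite.op x) ξ‖ < δ) →
      ∃ η : K, η ≠ 0 ∧ ∀ x : N.A, B.left x η = B.right (MulOpposite.op x) η

variable {N}

theorem norm_star_Ω {z : H →L[ℂ] H} (hz : z ∈ N.alg) : ‖(star z) N.Ω‖ = ‖z N.Ω‖ := by
  have h1 : ⟪N.Ω, (star z * z) N.Ω⟫_ℂ = (‖z N.Ω‖ : ℂ) ^ 2 := by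
    rw [mul_apply_eq_comp, ContinuousLinearMap.star_eq_adjoint,
      ContinuousLinearMap.adjoint_inner_right, inner_self_eq_norm_sq_to_K]
    rfl
  have h2 : ⟪N.Ω, (z * star z) N.Ω⟫_ℂ = (‖(star z) N.Ω‖ : ℂ) ^ 2 := by
    rw [mul_apply_eq_comp, ContinuousLinearMap.star_eq_adjoint,
      ← ContinuousLinearMap.adjoint_inner_left, inner_self_eq_norm_sq_to_K]
    rfl
  rw [N.trace _ (star_mem hz) _ hz, h2] at h1
  have h3 : ‖(star z) N.Ω‖ ^ 2 = ‖z N.Ω‖ ^ 2 := by exact_mod_cast h1
  exact (pow_left_inj₀ (norm_nonneg _) (norm_nonneg _) two_ne_zero).1 h3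

theorem norm_mul_Ω {z a : H →L[ℂ] H} (hz : z ∈ N.alg) (ha : a ∈ N.alg) :
    ‖(z * a) N.Ω‖ ≤ ‖a‖ * ‖z N.Ω‖ := by
  rw [← norm_star_Ω (mul_mem hz ha), star_mul, mul_apply_eq_comp]
  refine ((star a).le_opNorm _).trans ?_
  rw [norm_star, norm_star_Ω hz]

variable (N M)

/-- A unital trace preserving `*`-homomorphism between tracial von Neumann algebras.  Such a map
preserves `‖·‖₂`, so it is automatically injective and normal: this is an embedding of tracial
von Neumann algebras. -/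
structure Embedding where
  toHom : N.A →⋆ₐ[ℂ] M.A
  trace : ∀ x, τ (toHom x) = τ x

/-- A unital trace preserving `*`-homomorphism `M → N^U` (automatically injective and normal) into
the tracial ultrapower of `N`.  The elements of `N^U` are the classes of the bounded sequences in
`N` modulo the sequences `(x_n)` with `lim_U ‖x_n‖₂ = 0`, with trace `lim_U τ(x_n)`;
`seq x` is a bounded sequence in the class of the image of `x`. -/
structure UltraEmbedding (U : Ultrafilter ℕ) where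
  seq : M.A → ℕ → N.A
  bounded : ∀ x, ∃ C : ℝ, ∀ n, ‖(seq x n : H →L[ℂ] H)‖ ≤ C
  map_one : Tendsto (fun n => norm2 (seq 1 n - 1)) U (𝓝 0)
  map_add : ∀ x y, Tendsto (fun n => norm2 (seq (x + y) n - (seq x n + seq y n))) U (𝓝 0)
  map_smul : ∀ (c : ℂ) x, Tendsto (fun n => norm2 (seq (c • x) n - c • seq x n)) U (𝓝 0)
  map_mul : ∀ x y, Tendsto (fun n => norm2 (seq (x * y) n - seq x n * seq y n)) U (𝓝 0)
  map_star : ∀ x, Tendsto (fun n => norm2 (seq (star x) n - star (seq x n))) U (𝓝 0)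
  map_trace : ∀ x, Tendsto (fun n => τ (seq x n)) U (𝓝 (τ x))

variable {N M}

/-- The embedding `ι : N → M` is existential: there is an embedding `π : M → N^U` such that
`π ∘ ι` is the diagonal embedding `N → N^U`. -/
def Embedding.IsExistential (U : Ultrafilter ℕ) (ι : Embedding N M) : Prop :=
  ∃ π : UltraEmbedding N M U, ∀ x : N.A,
    Tendsto (fun n => norm2 (π.seq (ι.toHom x) n - x)) U (𝓝 0)

end TracialVNA

section Groups

/-- Kazhdan's property (T) for a discrete group. -/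
def GroupPropertyT (G : Type u) [Group G] : Prop :=
  ∃ (S : Finset G) (δ : ℝ), 0 < δ ∧
    ∀ (K : Type v) [NormedAddCommGroup K] [InnerProductSpace ℂ K] [CompleteSpace K]
      (π : G →* unitary (K →L[ℂ] K)) (ξ : K), ‖ξ‖ = 1 →
      (∀ s ∈ S, ‖(π s : K →L[ℂ] K) ξ - ξ‖ < δ) →
      ∃ η : K, η ≠ 0 ∧ ∀ g : G, (π g : K →L[ℂ] K) η = η

/-- Every finite subset generates a finite subgroup. -/
def IsLocallyFiniteGroup (G : Type u) [Group G] : Prop :=
  ∀ S : Finset G, Finite (Subgroup.closure (S : Set G))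

/-- `G` is ICC: every conjugacy class other than that of the identity is infinite. -/
def IsICCGroup (G : Type u) [Group G] : Prop :=
  ∀ g : G, g ≠ 1 → {k : G | IsConj g k}.Infinite

end Groups

end Pool.Agent.ExT
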