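import Pool.Agent.ExT.Defs

/-!
# Finitary elementary matrices over `ZMod 17` with index set `Fin 3 × ℤ`
-/

noncomputable section

namespace Pool.Agent.ExT

/-- The field with 17 elements. -/
abbrev F17 : Type := ZMod 17

instance : Fact (Nat.Prime 17) := ⟨by norm_num⟩

/-- Functions `ℤ → F`. -/
abbrev Y : Type := ℤ → F17

/-- Functions `Fin 3 × ℤ → F`. -/
abbrev X : Type := Fin 3 → Y

abbrev EndY : Type := Module.End F17 Y

abbrev EndX : Type := Module.End F17 X

/-- The `3 × 3` matrix with the operator `w` in position `(i, j)`. -/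
def mm (i j : Fin 3) (w : EndY) : EndX :=
  (LinearMap.single F17 (fun _ : Fin 3 => Y) i) ∘ₗ w ∘ₗ (LinearMap.proj j)

theorem mm_apply (i j : Fin 3) (w : EndY) (v : X) : mm i j w v = Pi.single i (w (v j)) := rfl

theorem mm_mul_same (i j k : Fin 3) (w w' : EndY) : mm i j w * mm j k w' = mm i k (w * w') := by
  refine LinearMap.ext fun v => ?_
  rw [Module.End.mul_apply, mm_apply, mm_apply, mm_apply, Pi.single_eq_same]
  rfl

theorem mm_mul_ne {i j k l : Fin 3} (h : j ≠ k) (w w' : EndY) : mm i j w * mm k l w' = 0 := by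
  refine LinearMap.ext fun v => ?_
  rw [Module.End.mul_apply, mm_apply, mm_apply, Pi.single_eq_of_ne h, map_zero, Pi.single_zero]
  rfl

theorem mm_add (i j : Fin 3) (w w' : EndY) : mm i j (w + w') = mm i j w + mm i j w' := by
  refine LinearMap.ext fun v => ?_
  rw [LinearMap.add_apply, mm_apply, mm_apply, mm_apply, LinearMap.add_apply, Pi.single_add]

theorem mm_zero (i j : Fin 3) : mm i j 0 = 0 := by
  refine LinearMap.ext fun v => ?_
  rw [mm_apply, LinearMap.zero_apply, Pi.single_zero]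
  rfl

theorem mm_neg (i j : Fin 3) (w : EndY) : mm i j (-w) = -mm i j w := by
  have := mm_add i j w (-w)
  rw [add_neg_cancel, mm_zero] at this
  exact (neg_eq_of_add_eq_zero_right this.symm).symm

theorem one_add_mul_one_sub {a : EndX} (h : a * a = 0) : (1 + a) * (1 - a) = 1 := by
  rw [add_mul, one_mul, mul_sub, mul_one, h, sub_zero, sub_add_cancel]

theorem one_sub_mul_one_add {a : EndX} (h : a * a = 0) : (1 - a) * (1 + a) = 1 := by
  rw [sub_mul, one_mul, mul_add, mul_one, h, add_zero, add_sub_cancel_right]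

/-- The elementary matrix `1 + w E_ij` (for `i ≠ j`; by convention `1` if `i = j`). -/
def ee (i j : Fin 3) (w : EndY) : EndXˣ :=
  if h : i = j then 1 else
    ⟨1 + mm i j w, 1 - mm i j w, one_add_mul_one_sub (mm_mul_ne (Ne.symm h) w w),
      one_sub_mul_one_add (mm_mul_ne (Ne.symm h) w w)⟩

theorem ee_val {i j : Fin 3} (h : i ≠ j) (w : EndY) : (ee i j w : EndX) = 1 + mm i j w := by
  rw [ee, dif_neg h]

theorem ee_apply {i j : Fin 3} (h : i ≠ j) (w : EndY) (v : X) :
    (ee i j w : EndX) v = v + Pi.single i (w (v j)) := by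
  rw [ee_val h]; rfl

theorem ee_add (i j : Fin 3) (w w' : EndY) : ee i j (w + w') = ee i j w * ee i j w' := by
  by_cases h : i = j
  · simp [ee, h]
  · ext1
    rw [Units.val_mul, ee_val h, ee_val h, ee_val h, mm_add]
    have := mm_mul_ne (i := i) (l := j) (Ne.symm h) w w'
    have e : (1 + mm i j w) * (1 + mm i j w') =
      1 + (mm i j w + mm i j w') + mm i j w * mm i j w' := by noncomm_ring
    rw [e, this, add_zero]

theorem ee_zero (i j : Fin 3) : ee i j 0 = 1 := by
  by_cases h : i = j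
  · simp [ee, h]
  · ext1
    rw [ee_val h, mm_zero, add_zero, Units.val_one]

theorem ee_neg (i j : Fin 3) (w : EndY) : ee i j (-w) = (ee i j w)⁻¹ := by
  rw [eq_inv_iff_mul_eq_one, ← ee_add, neg_add_cancel, ee_zero]

theorem ee_nsmul (i j : Fin 3) (w : EndY) (n : ℕ) : ee i j (n • w) = ee i j w ^ n := by
  induction n with
  | zero => rw [zero_smul, ee_zero, pow_zero]
  | succ n ih => rw [succ_nsmul, ee_add, ih, pow_succ]

theorem ee_pow_17 (i j : Fin 3) (w : EndY) : ee i j w ^ 17 = 1 := by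
  rw [← ee_nsmul]
  have : (17 : ℕ) • w = 0 := by
    refine LinearMap.ext fun v => ?_
    rw [LinearMap.smul_apply, ← Nat.cast_smul_eq_nsmul F17]
    have : ((17 : ℕ) : F17) = 0 := by decide
    rw [this, zero_smul]; rfl
  rw [this, ee_zero]

/-- The commutator relation. -/
theorem ee_comm {i j k : Fin 3} (hij : i ≠ j) (hjk : j ≠ k) (hik : i ≠ k) (w w' : EndY) :
    ee i j w * ee j k w' = ee i k (w * w') * (ee j k w' * ee i j w) := by
  ext1
  simp only [Units.val_mul]
  rw [ee_val hij, ee_val hjk, ee_val hik]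
  have h1 := mm_mul_same i j k w w'
  have h2 := mm_mul_ne (i := j) (l := j) (Ne.symm hik) w' w
  have h3 := mm_mul_ne (i := i) (l := k) (Ne.symm hjk) (w * w') w'
  have h4 := mm_mul_ne (i := i) (l := j) (Ne.symm hik) (w * w') w
  have e1 : (1 + mm i j w) * (1 + mm j k w') =
    1 + mm i j w + mm j k w' + mm i j w * mm j k w' := by noncomm_ring
  have e2 : (1 + mm i k (w * w')) * ((1 + mm j k w') * (1 + mm i j w)) =
    1 + mm i j w + mm j k w' + mm i k (w * w') + mm j k w' * mm i j w +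
      mm i k (w * w') * mm j k w' + mm i k (w * w') * mm i j w +
      (mm i k (w * w') * mm j k w') * mm i j w := by noncomm_ring
  rw [e1, e2, h1, h2, h3, h4]
  simp

theorem ee_commute_row {i j k : Fin 3} (hij : i ≠ j) (hik : i ≠ k) (w w' : EndY) :
    Commute (ee i j w) (ee i k w') := by
  show ee i j w * ee i k w' = ee i k w' * ee i j w
  ext1
  simp only [Units.val_mul]
  rw [ee_val hij, ee_val hik]
  have h1 := mm_mul_ne (i := i) (l := k) (Ne.symm hij) w w'
  have h2 := mm_mul_ne (i := i) (l := j) (Ne.symm hik) w' w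
  have e1 : (1 + mm i j w) * (1 + mm i k w') =
    1 + mm i j w + mm i k w' + mm i j w * mm i k w' := by noncomm_ring
  have e2 : (1 + mm i k w') * (1 + mm i j w) =
    1 + mm i j w + mm i k w' + mm i k w' * mm i j w := by noncomm_ring
  rw [e1, e2, h1, h2]

theorem ee_commute_col {i j k : Fin 3} (hik : i ≠ k) (hjk : j ≠ k) (w w' : EndY) :
    Commute (ee i k w) (ee j k w') := by
  show ee i k w * ee j k w' = ee j k w' * ee i k w
  ext1
  simp only [Units.val_mul]
  rw [ee_val hik, ee_val hjk]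
  have h1 := mm_mul_ne (i := i) (l := k) (Ne.symm hjk) w w'
  have h2 := mm_mul_ne (i := j) (l := k) (Ne.symm hik) w' w
  have e1 : (1 + mm i k w) * (1 + mm j k w') =
    1 + mm i k w + mm j k w' + mm i k w * mm j k w' := by noncomm_ring
  have e2 : (1 + mm j k w') * (1 + mm i k w) =
    1 + mm i k w + mm j k w' + mm j k w' * mm i k w := by noncomm_ring
  rw [e1, e2, h1, h2]

/-- `w` is supported in the window `[-n, n]`. -/
def Supp (n : ℕ) (w : EndY) : Prop :=
  (∀ v : Y, (∀ k : ℤ, |k| ≤ n → v k = 0) → w v = 0) ∧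
    ∀ (v : Y) (k : ℤ), (n : ℤ) < |k| → w v k = 0

theorem Supp.mono {n m : ℕ} (h : n ≤ m) {w : EndY} (hw : Supp n w) : Supp m w :=
  ⟨fun v hv => hw.1 v fun k hk => hv k (hk.trans (by exact_mod_cast h)),
    fun v k hk => hw.2 v k (lt_of_le_of_lt (by exact_mod_cast h) hk)⟩

theorem Supp.add {n : ℕ} {w w' : EndY} (hw : Supp n w) (hw' : Supp n w') : Supp n (w + w') :=
  ⟨fun v hv => by rw [LinearMap.add_apply, hw.1 v hv, hw'.1 v hv, add_zero],
    fun v k hk => by rw [LinearMap.add_apply, Pi.add_apply, hw.2 v k hk, hw'.2 v k hk, add_zero]⟩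

theorem Supp.neg {n : ℕ} {w : EndY} (hw : Supp n w) : Supp n (-w) :=
  ⟨fun v hv => by rw [LinearMap.neg_apply, hw.1 v hv, neg_zero],
    fun v k hk => by rw [LinearMap.neg_apply, Pi.neg_apply, hw.2 v k hk, neg_zero]⟩

theorem Supp.mul {n : ℕ} {w w' : EndY} (hw : Supp n w) (hw' : Supp n w') : Supp n (w * w') :=
  ⟨fun v hv => by rw [Module.End.mul_apply, hw'.1 v hv, map_zero],
    fun v k hk => by rw [Module.End.mul_apply]; exact hw.2 _ k hk⟩

/-- Finitely supported operators. -/
def FS (w : EndY) : Prop := ∃ n, Supp n w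

theorem FS.add {w w' : EndY} (hw : FS w) (hw' : FS w') : FS (w + w') := by
  obtain ⟨n, hn⟩ := hw
  obtain ⟨m, hm⟩ := hw'
  exact ⟨max n m, (hn.mono (le_max_left _ _)).add (hm.mono (le_max_right _ _))⟩

theorem FS.mul {w w' : EndY} (hw : FS w) (hw' : FS w') : FS (w * w') := by
  obtain ⟨n, hn⟩ := hw
  obtain ⟨m, hm⟩ := hw'
  exact ⟨max n m, (hn.mono (le_max_left _ _)).mul (hm.mono (le_max_right _ _))⟩

theorem FS.neg {w : EndY} (hw : FS w) : FS (-w) := by
  obtain ⟨n, hn⟩ := hw
  exact ⟨n, hn.neg⟩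

/-- The units which act only on the coordinates in the window `[-n, n]`. -/
def BB (n : ℕ) : Subgroup EndXˣ where
  carrier := {h | (∀ v : X, (∀ i (k : ℤ), |k| ≤ n → v i k = 0) → (h : EndX) v = v) ∧
    ∀ (v : X) i (k : ℤ), (n : ℤ) < |k| → (h : EndX) v i k = v i k}
  mul_mem' := by
    rintro g h ⟨hg1, hg2⟩ ⟨hh1, hh2⟩
    refine ⟨fun v hv => ?_, fun v i k hk => ?_⟩
    · rw [Units.val_mul, Module.End.mul_apply, hh1 v hv, hg1 v hv]
    · rw [Units.val_mul, Module.End.mul_apply, hg2 _ i k hk, hh2 _ i k hk]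
  one_mem' := ⟨fun _ _ => rfl, fun _ _ _ _ => rfl⟩
  inv_mem' := by
    rintro g ⟨hg1, hg2⟩
    have hinv : ∀ v : X, (g : EndX) (((g⁻¹ : EndXˣ) : EndX) v) = v := fun v => by
      rw [← Module.End.mul_apply, ← Units.val_mul, mul_inv_cancel]; rfl
    have hinv' : ∀ v : X, ((g⁻¹ : EndXˣ) : EndX) ((g : EndX) v) = v := fun v => by
      rw [← Module.End.mul_apply, ← Units.val_mul, inv_mul_cancel]; rfl
    refine ⟨fun v hv => ?_, fun v i k hk => ?_⟩
    · conv_lhs => rw [← hg1 v hv]
      exact hinv' v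
    · have := hg2 (((g⁻¹ : EndXˣ) : EndX) v) i k hk
      rw [hinv] at this
      exact this.symm

end Pool.Agent.ExT
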