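import Pool.Agent.ExT.Elem

/-!
# The locally finite group `H` of finitary elementary matrices
-/

noncomputable section

namespace Pool.Agent.ExT

open Finset

/-- The window `[-n, n]`. -/
abbrev win (n : ℕ) : Finset ℤ := Icc (-(n : ℤ)) n

theorem mem_win {n : ℕ} {k : ℤ} : k ∈ win n ↔ |k| ≤ n := by
  rw [Finset.mem_Icc, abs_le]

/-- Matrix units. -/
def EE (k l : ℤ) : EndY := (LinearMap.single F17 (fun _ : ℤ => F17) k) ∘ₗ (LinearMap.proj l)

theorem EE_apply (k l : ℤ) (v : Y) : EE k l v = Pi.single k (v l) := rfl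

theorem EE_supp {k l : ℤ} {n : ℕ} (hk : |k| ≤ n) (hl : |l| ≤ n) : Supp n (EE k l) := by
  refine ⟨fun v hv => ?_, fun v x hx => ?_⟩
  · rw [EE_apply, hv l hl, Pi.single_zero]
  · rw [EE_apply, Pi.single_eq_of_ne]
    rintro rfl
    exact absurd hk (not_le.2 hx)

theorem EE_FS (k l : ℤ) : FS (EE k l) := by
  refine ⟨max k.natAbs l.natAbs, EE_supp ?_ ?_⟩
  · rw [Int.abs_eq_natAbs]; exact_mod_cast le_max_left _ _
  · rw [Int.abs_eq_natAbs]; exact_mod_cast le_max_right _ _

/-- Truncation to the window, for `Y`. -/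
theorem Y_decomp (n : ℕ) (v : Y) (k : ℤ) :
    (∑ l ∈ win n, v l • (Pi.single l (1 : F17) : Y)) k = if |k| ≤ n then v k else 0 := by
  rw [Finset.sum_apply]
  simp only [Pi.smul_apply, smul_eq_mul]
  split_ifs with h
  · rw [Finset.sum_eq_single k]
    · simp
    · intro l _ hl
      rw [Pi.single_eq_of_ne hl.symm, mul_zero]
    · intro hk
      exact absurd (mem_win.2 h) hk
  · refine Finset.sum_eq_zero fun l hl => ?_
    rw [Pi.single_eq_of_ne, mul_zero]
    rintro rfl
    exact h (mem_win.1 hl)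

theorem supp_eq_sum {n : ℕ} {w : EndY} (hw : Supp n w) :
    w = ∑ k ∈ win n, ∑ l ∈ win n, (w (Pi.single l 1) k) • EE k l := by
  refine LinearMap.ext fun v => ?_
  have h1 : w v = w (∑ l ∈ win n, v l • (Pi.single l (1 : F17) : Y)) := by
    rw [← sub_eq_zero, ← map_sub]
    refine hw.1 _ fun k hk => ?_
    rw [Pi.sub_apply, Y_decomp, if_pos hk, sub_self]
  rw [h1, map_sum]
  funext x
  rw [Finset.sum_apply]
  simp only [LinearMap.sum_apply, Finset.sum_apply, LinearMap.smul_apply, EE_apply,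
    Pi.smul_apply, map_smul, smul_eq_mul]
  symm
  by_cases hx : |x| ≤ n
  · rw [Finset.sum_eq_single x]
    · refine Finset.sum_congr rfl fun l hl => ?_
      rw [Pi.single_eq_same, mul_comm]
    · intro k _ hk
      refine Finset.sum_eq_zero fun l _ => ?_
      rw [Pi.single_eq_of_ne hk.symm, mul_zero]
    · intro hk
      exact absurd (mem_win.2 hx) hk
  · rw [Finset.sum_eq_zero, Finset.sum_eq_zero]
    · intro l _
      rw [hw.2 _ x (not_le.1 hx), mul_zero]
    · intro k hk
      refine Finset.sum_eq_zero fun l _ => ?_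
      rw [Pi.single_eq_of_ne, mul_zero]
      rintro rfl
      exact hx (mem_win.1 hk)

/-- Basis vectors of `X`. -/
def dl (i : Fin 3) (k : ℤ) : X := Pi.single i (Pi.single k 1)

theorem dl_apply (i j : Fin 3) (k l : ℤ) : dl i k j l = if i = j ∧ k = l then 1 else 0 := by
  rw [dl]
  by_cases h : i = j
  · subst h
    rw [Pi.single_eq_same]
    by_cases h' : k = l
    · subst h'; simp
    · rw [Pi.single_eq_of_ne (Ne.symm h')]; simp [h']
  · rw [Pi.single_eq_of_ne (Ne.symm h)]; simp [h]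

theorem X_decomp (n : ℕ) (v : X) (i : Fin 3) (k : ℤ) :
    (∑ j, ∑ l ∈ win n, v j l • dl j l) i k = if |k| ≤ n then v i k else 0 := by
  simp only [Finset.sum_apply, Pi.smul_apply, dl_apply, smul_eq_mul]
  rw [Finset.sum_eq_single i]
  · split_ifs with h
    · rw [Finset.sum_eq_single k]
      · simp
      · intro l _ hl
        simp [hl]
      · intro hk
        exact absurd (mem_win.2 h) hk
    · refine Finset.sum_eq_zero fun l hl => ?_
      have : l ≠ k := by
        rintro rfl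
        exact h (mem_win.1 hl)
      simp [this]
  · intro j _ hj
    refine Finset.sum_eq_zero fun l _ => ?_
    simp [hj]
  · intro h
    exact absurd (Finset.mem_univ _) h

theorem BB_decomp {n : ℕ} {h : EndXˣ} (hh : h ∈ BB n) (v : X) :
    (h : EndX) v = v + ∑ j, ∑ l ∈ win n, v j l • ((h : EndX) (dl j l) - dl j l) := by
  set u : X := ∑ j, ∑ l ∈ win n, v j l • dl j l with hu
  have h1 : (h : EndX) (v - u) = v - u := by
    refine hh.1 _ fun i k hk => ?_
    show v i k - u i k = 0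
    rw [hu, X_decomp, if_pos hk, sub_self]
  have h2 : (h : EndX) v = (v - u) + (h : EndX) u := by
    rw [← h1, ← map_add, sub_add_cancel]
  rw [h2, hu, map_sum]
  simp only [map_sum, map_smul, smul_sub, Finset.sum_sub_distrib]
  abel

theorem BB_eq_one {n : ℕ} {h : EndXˣ} (hh : h ∈ BB n)
    (h1 : ∀ (i : Fin 3) (k : ℤ), |k| ≤ n → (h : EndX) (dl i k) = dl i k) : h = 1 := by
  ext1
  refine LinearMap.ext fun v => ?_
  rw [BB_decomp hh v, Units.val_one, Module.End.one_apply]
  have : ∑ j, ∑ l ∈ win n, v j l • ((h : EndX) (dl j l) - dl j l) = 0 := by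
    refine Finset.sum_eq_zero fun j _ => Finset.sum_eq_zero fun l hl => ?_
    rw [h1 j l (mem_win.1 hl), sub_self, smul_zero]
  rw [this, add_zero]

instance BB_finite (n : ℕ) : Finite (BB n) := by
  let Φ : BB n → (Fin 3 → win n → Fin 3 → win n → F17) :=
    fun h i k j l => ((h : EndXˣ) : EndX) (dl i k) j l
  refine Finite.of_injective Φ fun g h hgh => ?_
  have key : ∀ (i : Fin 3) (k : ℤ), |k| ≤ n →
      ((g : EndXˣ) : EndX) (dl i k) = ((h : EndXˣ) : EndX) (dl i k) := by
    intro i k hk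
    funext j l
    by_cases hl : |l| ≤ n
    · exact congrFun (congrFun (congrFun (congrFun hgh i) ⟨k, mem_win.2 hk⟩) j) ⟨l, mem_win.2 hl⟩
    · rw [g.2.2 _ j l (not_le.1 hl), h.2.2 _ j l (not_le.1 hl)]
  ext1
  ext1
  refine LinearMap.ext fun v => ?_
  rw [BB_decomp g.2 v, BB_decomp h.2 v]
  congr 1
  refine Finset.sum_congr rfl fun j _ => Finset.sum_congr rfl fun l hl => ?_
  rw [key j l (mem_win.1 hl)]

theorem BB_mono {n m : ℕ} (h : n ≤ m) : BB n ≤ BB m := by
  intro g hg
  exact ⟨fun v hv => hg.1 v fun i k hk => hv i k (hk.trans (by exact_mod_cast h)),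
    fun v i k hk => hg.2 v i k (lt_of_le_of_lt (by exact_mod_cast h) hk)⟩

theorem ee_mem_BB {n : ℕ} {w : EndY} (hw : Supp n w) (i j : Fin 3) : ee i j w ∈ BB n := by
  by_cases h : i = j
  · rw [ee, dif_pos h]; exact one_mem _
  · refine ⟨fun v hv => ?_, fun v i' k hk => ?_⟩
    · rw [ee_apply h, hw.1 (v j) (fun k hk => hv j k hk), Pi.single_zero, add_zero]
    · rw [ee_apply h, Pi.add_apply, Pi.add_apply]
      by_cases hi : i' = i
      · subst hi
        rw [Pi.single_eq_same, hw.2 _ k hk, add_zero]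
      · rw [Pi.single_eq_of_ne hi, Pi.zero_apply, add_zero]

/-- The group `H` generated by all finitary elementary matrices. -/
def HH : Subgroup EndXˣ :=
  Subgroup.closure {g | ∃ (i j : Fin 3) (w : EndY), FS w ∧ g = ee i j w}

theorem ee_mem_HH {w : EndY} (hw : FS w) (i j : Fin 3) : ee i j w ∈ HH :=
  Subgroup.subset_closure ⟨i, j, w, hw, rfl⟩

theorem exists_BB (h : EndXˣ) (hh : h ∈ HH) : ∃ n, h ∈ BB n := by
  refine Subgroup.closure_induction (p := fun g _ => ∃ n, g ∈ BB n) ?_ ?_ ?_ ?_ hh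
  · rintro _ ⟨i, j, w, ⟨n, hn⟩, rfl⟩
    exact ⟨n, ee_mem_BB hn i j⟩
  · exact ⟨0, one_mem _⟩
  · rintro x y _ _ ⟨n, hn⟩ ⟨m, hm⟩
    exact ⟨max n m, mul_mem (BB_mono (le_max_left _ _) hn) (BB_mono (le_max_right _ _) hm)⟩
  · rintro x _ ⟨n, hn⟩
    exact ⟨n, inv_mem hn⟩

theorem exists_BB_finset (S : Finset HH) : ∃ n, ∀ h ∈ S, (h : EndXˣ) ∈ BB n := by
  classical
  induction S using Finset.induction_on with
  | empty => exact ⟨0, fun h hh => absurd hh (Finset.notMem_empty h)⟩
  | insert a s _ ih =>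
    obtain ⟨n, hn⟩ := ih
    obtain ⟨m, hm⟩ := exists_BB a.1 a.2
    refine ⟨max n m, fun h hh => ?_⟩
    rcases Finset.mem_insert.1 hh with rfl | hh
    · exact BB_mono (le_max_right _ _) hm
    · exact BB_mono (le_max_left _ _) (hn h hh)

theorem HH_locallyFinite : IsLocallyFiniteGroup HH := by
  intro S
  obtain ⟨n, hn⟩ := exists_BB_finset S
  have h1 : Subgroup.closure (S : Set HH) ≤ (BB n).comap HH.subtype := by
    rw [Subgroup.closure_le]
    intro h hh
    exact hn h hh
  let Φ : Subgroup.closure (S : Set HH) → BB n := fun h => ⟨h.1.1, h1 h.2⟩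
  refine Finite.of_injective Φ fun g h hgh => ?_
  have : g.1.1 = h.1.1 := by
    have h2 := congrArg (fun z : BB n => (z : EndXˣ)) hgh
    exact h2
  exact Subtype.ext (Subtype.ext this)

end Pool.Agent.ExT
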