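import Pool.Agent.ExT.Elem2

/-!
# The rotation, the operators `t`, `t'`, and the group `G` inside the group ultrapower of `H`
-/

noncomputable section

namespace Pool.Agent.ExT

open Finset Filter

/-- The cyclic rotation of the window `[-n, n]`. -/
def rot (n : ℕ) : Equiv.Perm ℤ where
  toFun k := if -(n : ℤ) ≤ k ∧ k < n then k + 1 else if k = n then -n else k
  invFun k := if -(n : ℤ) < k ∧ k ≤ n then k - 1 else if k = -n then n else k
  left_inv k := by
    dsimp only
    split_ifs <;> omega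
  right_inv k := by
    dsimp only
    split_ifs <;> omega

theorem rot_apply (n : ℕ) (k : ℤ) :
    rot n k = if -(n : ℤ) ≤ k ∧ k < n then k + 1 else if k = n then -n else k := rfl

theorem rot_symm_apply (n : ℕ) (k : ℤ) :
    (rot n).symm k = if -(n : ℤ) < k ∧ k ≤ n then k - 1 else if k = -n then n else k := rfl

theorem abs_rot (n : ℕ) (k : ℤ) : |rot n k| ≤ n ↔ |k| ≤ n := by
  rw [rot_apply, abs_le, abs_le]
  split_ifs <;> omega

theorem abs_rot_symm (n : ℕ) (k : ℤ) : |(rot n).symm k| ≤ n ↔ |k| ≤ n := by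
  rw [rot_symm_apply, abs_le, abs_le]
  split_ifs <;> omega

/-- The operator `v ↦ (k ↦ v (σ k))` cut off to the window. -/
def cut (n : ℕ) (σ : ℤ → ℤ) : EndY where
  toFun v := fun k => if |k| ≤ n then v (σ k) else 0
  map_add' u v := by
    funext k
    simp only [Pi.add_apply]
    split_ifs <;> simp
  map_smul' c v := by
    funext k
    simp only [Pi.smul_apply, RingHom.id_apply, smul_eq_mul]
    split_ifs <;> simp

theorem cut_apply (n : ℕ) (σ : ℤ → ℤ) (v : Y) (k : ℤ) :
    cut n σ v k = if |k| ≤ n then v (σ k) else 0 := rfl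

/-- The unit of the window. -/
def oneW (n : ℕ) : EndY := cut n id

/-- The rotation operator on the window. -/
def tW (n : ℕ) : EndY := cut n (rot n).symm

/-- The inverse rotation operator on the window. -/
def tW' (n : ℕ) : EndY := cut n (rot n)

theorem cut_supp {n : ℕ} {σ : ℤ → ℤ} (h : ∀ k : ℤ, |k| ≤ n → |σ k| ≤ n) : Supp n (cut n σ) := by
  refine ⟨fun v hv => ?_, fun v k hk => ?_⟩
  · funext k
    rw [cut_apply]
    split_ifs with hk
    · exact hv _ (h k hk)
    · rfl
  · rw [cut_apply, if_neg (not_le.2 hk)]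

theorem oneW_supp (n : ℕ) : Supp n (oneW n) := cut_supp fun _ h => h

theorem tW_supp (n : ℕ) : Supp n (tW n) := cut_supp fun k h => (abs_rot_symm n k).2 h

theorem tW'_supp (n : ℕ) : Supp n (tW' n) := cut_supp fun k h => (abs_rot n k).2 h

theorem oneW_mul {n : ℕ} {w : EndY} (hw : Supp n w) : oneW n * w = w := by
  refine LinearMap.ext fun v => ?_
  funext k
  rw [Module.End.mul_apply, oneW, cut_apply]
  split_ifs with h
  · rfl
  · exact (hw.2 v k (not_le.1 h)).symm

theorem mul_oneW {n : ℕ} {w : EndY} (hw : Supp n w) : w * oneW n = w := by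
  refine LinearMap.ext fun v => ?_
  rw [Module.End.mul_apply, ← sub_eq_zero, ← map_sub]
  refine hw.1 _ fun k hk => ?_
  rw [Pi.sub_apply, oneW, cut_apply, if_pos hk]
  exact sub_self _

theorem tW_mul_tW' (n : ℕ) : tW n * tW' n = oneW n := by
  refine LinearMap.ext fun v => ?_
  funext k
  rw [Module.End.mul_apply, tW, tW', oneW, cut_apply, cut_apply, cut_apply]
  split_ifs with h h'
  · rw [Equiv.apply_symm_apply]; rfl
  · exact absurd ((abs_rot_symm n k).2 h) h'
  · rfl

theorem tW_mul_EE {n : ℕ} {k l : ℤ} (hk : |k| ≤ n) : tW n * EE k l = EE (rot n k) l := by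
  refine LinearMap.ext fun v => ?_
  funext x
  rw [Module.End.mul_apply, tW, cut_apply, EE_apply, EE_apply]
  by_cases hx : x = rot n k
  · subst hx
    rw [if_pos ((abs_rot n k).2 hk), Equiv.symm_apply_apply, Pi.single_eq_same,
      Pi.single_eq_same]
  · rw [Pi.single_eq_of_ne hx]
    split_ifs with h
    · rw [Pi.single_eq_of_ne]
      intro h2
      apply hx
      rw [← h2, Equiv.apply_symm_apply]
    · rfl

theorem tW'_mul_EE {n : ℕ} {k l : ℤ} (hk : |k| ≤ n) :
    tW' n * EE k l = EE ((rot n).symm k) l := by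
  refine LinearMap.ext fun v => ?_
  funext x
  rw [Module.End.mul_apply, tW', cut_apply, EE_apply, EE_apply]
  by_cases hx : x = (rot n).symm k
  · subst hx
    rw [if_pos ((abs_rot_symm n k).2 hk), Equiv.apply_symm_apply, Pi.single_eq_same,
      Pi.single_eq_same]
  · rw [Pi.single_eq_of_ne hx]
    split_ifs with h
    · rw [Pi.single_eq_of_ne]
      intro h2
      apply hx
      rw [← h2, Equiv.symm_apply_apply]
    · rfl

theorem EE_mul_tW {n : ℕ} {k l : ℤ} (hl : |l| ≤ n) :
    EE k l * tW n = EE k ((rot n).symm l) := by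
  refine LinearMap.ext fun v => ?_
  rw [Module.End.mul_apply, EE_apply, EE_apply, tW, cut_apply, if_pos hl]

theorem EE_mul_tW' {n : ℕ} {k l : ℤ} (hl : |l| ≤ n) : EE k l * tW' n = EE k (rot n l) := by
  refine LinearMap.ext fun v => ?_
  rw [Module.End.mul_apply, EE_apply, EE_apply, tW', cut_apply, if_pos hl]

theorem rot_of_lt {n : ℕ} {k : ℤ} (h : |k| < n) : rot n k = k + 1 := by
  rw [rot_apply, if_pos]
  rw [abs_lt] at h
  omega

theorem rot_symm_of_lt {n : ℕ} {k : ℤ} (h : |k| < n) : (rot n).symm k = k - 1 := by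
  rw [rot_symm_apply, if_pos]
  rw [abs_lt] at h
  omega

section Ultra

variable (U : Ultrafilter ℕ)

open Classical in
/-- The elementary matrix as an element of `H` (`1` if `w` is not finitely supported). -/
def eH (i j : Fin 3) (w : EndY) : HH := if h : FS w then ⟨ee i j w, ee_mem_HH h i j⟩ else 1

theorem eH_val {w : EndY} (h : FS w) (i j : Fin 3) : (eH i j w : EndXˣ) = ee i j w := by
  rw [eH, dif_pos h]

/-- The element of the ultrapower of `H` given by a sequence of elementary matrices. -/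
def eU (i j : Fin 3) (w : ℕ → EndY) : (U : Filter ℕ).Germ HH :=
  ((fun n => eH i j (w n) : ℕ → HH) : (U : Filter ℕ).Germ HH)

/-- Sequences of finitely supported operators. -/
def FSs (w : ℕ → EndY) : Prop := ∀ n, FS (w n)

theorem eU_congr {w w' : ℕ → EndY} (h : ∀ᶠ n in (U : Filter ℕ), w n = w' n) (i j : Fin 3) :
    eU U i j w = eU U i j w' := by
  rw [eU, eU, Germ.coe_eq]
  filter_upwards [h] with n hn
  rw [hn]

theorem eU_add {w w' : ℕ → EndY} (h : FSs w) (h' : FSs w') (i j : Fin 3) :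
    eU U i j (w + w') = eU U i j w * eU U i j w' := by
  rw [eU, eU, eU, ← Germ.coe_mul, Germ.coe_eq]
  refine Eventually.of_forall fun n => ?_
  refine Subtype.ext ?_
  show (eH i j (w n + w' n) : EndXˣ) = (eH i j (w n) : EndXˣ) * (eH i j (w' n) : EndXˣ)
  rw [eH_val ((h n).add (h' n)), eH_val (h n), eH_val (h' n), ee_add]

theorem eU_comm {w w' : ℕ → EndY} (h : FSs w) (h' : FSs w') {i j k : Fin 3} (hij : i ≠ j)
    (hjk : j ≠ k) (hik : i ≠ k) :
    eU U i j w * eU U j k w' = eU U i k (w * w') * (eU U j k w' * eU U i j w) := by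
  rw [eU, eU, eU, ← Germ.coe_mul, ← Germ.coe_mul, ← Germ.coe_mul, Germ.coe_eq]
  refine Eventually.of_forall fun n => ?_
  refine Subtype.ext ?_
  show (eH i j (w n) : EndXˣ) * (eH j k (w' n) : EndXˣ) =
    (eH i k (w n * w' n) : EndXˣ) * ((eH j k (w' n) : EndXˣ) * (eH i j (w n) : EndXˣ))
  rw [eH_val ((h n).mul (h' n)), eH_val (h n), eH_val (h' n), ee_comm hij hjk hik]

theorem eU_commute_row {w w' : ℕ → EndY} (h : FSs w) (h' : FSs w') {i j k : Fin 3}
    (hij : i ≠ j) (hik : i ≠ k) : Commute (eU U i j w) (eU U i k w') := by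
  show eU U i j w * eU U i k w' = eU U i k w' * eU U i j w
  rw [eU, eU, ← Germ.coe_mul, ← Germ.coe_mul, Germ.coe_eq]
  refine Eventually.of_forall fun n => ?_
  refine Subtype.ext ?_
  show (eH i j (w n) : EndXˣ) * (eH i k (w' n) : EndXˣ) =
    (eH i k (w' n) : EndXˣ) * (eH i j (w n) : EndXˣ)
  rw [eH_val (h n), eH_val (h' n)]
  exact ee_commute_row hij hik _ _

theorem eU_commute_col {w w' : ℕ → EndY} (h : FSs w) (h' : FSs w') {i j k : Fin 3}
    (hik : i ≠ k) (hjk : j ≠ k) : Commute (eU U i k w) (eU U j k w') := by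
  show eU U i k w * eU U j k w' = eU U j k w' * eU U i k w
  rw [eU, eU, ← Germ.coe_mul, ← Germ.coe_mul, Germ.coe_eq]
  refine Eventually.of_forall fun n => ?_
  refine Subtype.ext ?_
  show (eH i k (w n) : EndXˣ) * (eH j k (w' n) : EndXˣ) =
    (eH j k (w' n) : EndXˣ) * (eH i k (w n) : EndXˣ)
  rw [eH_val (h n), eH_val (h' n)]
  exact ee_commute_col hik hjk _ _

theorem eU_pow_17 (i j : Fin 3) {w : ℕ → EndY} (h : FSs w) : eU U i j w ^ 17 = 1 := by
  rw [eU, ← Germ.coe_pow, ← Germ.coe_one, Germ.coe_eq]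
  refine Eventually.of_forall fun n => ?_
  refine Subtype.ext ?_
  show (eH i j (w n) : EndXˣ) ^ 17 = 1
  rw [eH_val (h n), ee_pow_17]

theorem oneW_FSs : FSs oneW := fun n => ⟨n, oneW_supp n⟩
theorem tW_FSs : FSs tW := fun n => ⟨n, tW_supp n⟩
theorem tW'_FSs : FSs tW' := fun n => ⟨n, tW'_supp n⟩
theorem const_FSs {w : EndY} (h : FS w) : FSs (fun _ => w) := fun _ => h

/-- The five generators of `G`. -/
def gen : Fin 5 → (U : Filter ℕ).Germ HH :=
  ![eU U 0 1 oneW, eU U 1 2 oneW, eU U 2 0 tW, eU U 2 0 tW', eU U 2 0 fun _ => EE 0 0]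

/-- The group `G`. -/
def GG : Subgroup ((U : Filter ℕ).Germ HH) := Subgroup.closure (Set.range (gen U))

theorem gen_pow (i : Fin 5) : gen U i ^ 17 = 1 := by
  fin_cases i
  · exact eU_pow_17 U 0 1 oneW_FSs
  · exact eU_pow_17 U 1 2 oneW_FSs
  · exact eU_pow_17 U 2 0 tW_FSs
  · exact eU_pow_17 U 2 0 tW'_FSs
  · exact eU_pow_17 U 2 0 (const_FSs (EE_FS 0 0))

/-- The relation needed for property (T). -/
def CC {G : Type*} [Group G] (a b : G) : Prop :=
  ∃ z, a * b = z * (b * a) ∧ Commute z a ∧ Commute z b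

theorem CC.symm {G : Type*} [Group G] {a b : G} (h : CC a b) : CC b a := by
  obtain ⟨z, h1, h2, h3⟩ := h
  refine ⟨z⁻¹, ?_, h3.inv_left, h2.inv_left⟩
  rw [h1, inv_mul_cancel_left]

theorem CC.of_commute {G : Type*} [Group G] {a b : G} (h : Commute a b) : CC a b :=
  ⟨1, by rw [one_mul]; exact h.eq, Commute.one_left _, Commute.one_left _⟩

theorem eU_CC {w w' : ℕ → EndY} (h : FSs w) (h' : FSs w') {i j k : Fin 3} (hij : i ≠ j)
    (hjk : j ≠ k) (hik : i ≠ k) : CC (eU U i j w) (eU U j k w') := by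
  have hw : FSs (w * w') := fun n => (h n).mul (h' n)
  refine ⟨eU U i k (w * w'), eU_comm U h h' hij hjk hik, ?_, ?_⟩
  · exact eU_commute_row U hw h hik hij
  · exact eU_commute_col U hw h' hik hjk

theorem eU_CC_self {w w' : ℕ → EndY} (h : FSs w) (h' : FSs w') {i j : Fin 3} (hij : i ≠ j) :
    CC (eU U i j w) (eU U i j w') :=
  CC.of_commute (eU_commute_row U h h' hij hij)

theorem gen_CC (i j : Fin 5) : CC (gen U i) (gen U j) := by
  have h01 : (0 : Fin 3) ≠ 1 := by decide
  have h12 : (1 : Fin 3) ≠ 2 := by decide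
  have h02 : (0 : Fin 3) ≠ 2 := by decide
  have f0 := oneW_FSs
  have f1 := tW_FSs
  have f2 := tW'_FSs
  have f3 : FSs (fun _ => EE 0 0) := const_FSs (EE_FS 0 0)
  fin_cases i <;> fin_cases j
  · exact eU_CC_self U f0 f0 h01
  · exact eU_CC U f0 f0 h01 h12 h02
  · exact (eU_CC U f1 f0 h02.symm h01 h12.symm).symm
  · exact (eU_CC U f2 f0 h02.symm h01 h12.symm).symm
  · exact (eU_CC U f3 f0 h02.symm h01 h12.symm).symm
  · exact (eU_CC U f0 f0 h01 h12 h02).symm
  · exact eU_CC_self U f0 f0 h12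
  · exact eU_CC U f0 f1 h12 h02.symm h01.symm
  · exact eU_CC U f0 f2 h12 h02.symm h01.symm
  · exact eU_CC U f0 f3 h12 h02.symm h01.symm
  · exact ((eU_CC U f1 f0 h02.symm h01 h12.symm).symm).symm
  · exact (eU_CC U f0 f1 h12 h02.symm h01.symm).symm
  · exact eU_CC_self U f1 f1 h02.symm
  · exact eU_CC_self U f1 f2 h02.symm
  · exact eU_CC_self U f1 f3 h02.symm
  · exact ((eU_CC U f2 f0 h02.symm h01 h12.symm).symm).symm
  · exact (eU_CC U f0 f2 h12 h02.symm h01.symm).symm
  · exact (eU_CC_self U f1 f2 h02.symm).symm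
  · exact eU_CC_self U f2 f2 h02.symm
  · exact eU_CC_self U f2 f3 h02.symm
  · exact ((eU_CC U f3 f0 h02.symm h01 h12.symm).symm).symm
  · exact (eU_CC U f0 f3 h12 h02.symm h01.symm).symm
  · exact (eU_CC_self U f1 f3 h02.symm).symm
  · exact (eU_CC_self U f2 f3 h02.symm).symm
  · exact eU_CC_self U f3 f3 h02.symm

end Ultra

end Pool.Agent.ExT
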