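import Pool.Agent.ExT.GroupT

/-!
# Property (T) for groups generated by elements of order `p` with central commutators
-/

noncomputable section

namespace Pool.Agent.ExT

open scoped InnerProductSpace ComplexOrder Topology
open Filter

universe u v


section GroupLemma

variable {G : Type u} [Group G]

theorem pow_mul_comm_z {a b z : G} (hz : a * b = z * (b * a)) (hza : Commute z a)
    (m : ℕ) : a ^ m * b = z ^ m * (b * a ^ m) := by
  induction m with
  | zero => simp
  | succ m ih =>
    have h1 : a ^ m * z = z * a ^ m := (hza.pow_right m).eq.symm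
    calc a ^ (m + 1) * b = a ^ m * (a * b) := by rw [pow_succ, mul_assoc]
      _ = a ^ m * z * (b * a) := by rw [hz]; group
      _ = z * (a ^ m * b) * a := by rw [h1]; group
      _ = z ^ (m + 1) * (b * a ^ (m + 1)) := by rw [ih, pow_succ' z, pow_succ a]; group

theorem pow_mul_pow_z {a b z : G} (hz : a * b = z * (b * a)) (hza : Commute z a)
    (hzb : Commute z b) (m k : ℕ) : a ^ m * b ^ k = z ^ (m * k) * (b ^ k * a ^ m) := by
  induction k with
  | zero => simp
  | succ k ih =>
    have h1 : b ^ k * z ^ m = z ^ m * b ^ k := ((hzb.pow_pow m k).eq).symm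
    calc a ^ m * b ^ (k + 1) = a ^ m * b ^ k * b := by rw [pow_succ, mul_assoc]
      _ = z ^ (m * k) * b ^ k * (a ^ m * b) := by rw [ih]; group
      _ = z ^ (m * k) * (b ^ k * z ^ m) * (b * a ^ m) := by
          rw [pow_mul_comm_z hz hza]; group
      _ = z ^ (m * k) * z ^ m * (b ^ (k + 1) * a ^ m) := by
          rw [h1, pow_succ b k]; simp only [mul_assoc]
      _ = z ^ (m * (k + 1)) * (b ^ (k + 1) * a ^ m) := by rw [mul_add, mul_one, pow_add z]

theorem pow_z_eq_one {a b z : G} (hz : a * b = z * (b * a)) (hza : Commute z a)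
    {p : ℕ} (ha : a ^ p = 1) : z ^ p = 1 := by
  have h := pow_mul_comm_z hz hza p
  rw [ha, one_mul, mul_one] at h
  have : z ^ p * b = 1 * b := by rw [← h, one_mul]
  exact mul_right_cancel this

end GroupLemma

section Avg

variable {G : Type u} [Group G] {K : Type v} [NormedAddCommGroup K] [InnerProductSpace ℂ K]
  [CompleteSpace K]

variable (π : G →* unitary (K →L[ℂ] K))

/-- The action of a group element on vectors. -/
abbrev act (g : G) : K →L[ℂ] K := (π g : K →L[ℂ] K)

theorem act_mul (g h : G) (x : K) : act π (g * h) x = act π g (act π h x) := by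
  show ((π (g * h) : unitary (K →L[ℂ] K)) : K →L[ℂ] K) x = _
  rw [map_mul]
  rfl

theorem act_one (x : K) : act π 1 x = x := by
  show ((π 1 : unitary (K →L[ℂ] K)) : K →L[ℂ] K) x = _
  rw [map_one]
  rfl

theorem inner_act (g : G) (x y : K) : ⟪act π g x, act π g y⟫_ℂ = ⟪x, y⟫_ℂ := by
  have h : star (π g : K →L[ℂ] K) * (π g : K →L[ℂ] K) = 1 := (π g).2.1
  rw [← ContinuousLinearMap.adjoint_inner_right, ← ContinuousLinearMap.star_eq_adjoint]
  show ⟪x, (star (π g : K →L[ℂ] K) * (π g : K →L[ℂ] K)) y⟫_ℂ = _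
  rw [h]
  rfl

theorem norm_act (g : G) (x : K) : ‖act π g x‖ = ‖x‖ := by
  have h := congrArg Complex.re (inner_act π g x x)
  rw [re_inner_self, re_inner_self] at h
  exact (pow_left_inj₀ (norm_nonneg _) (norm_nonneg _) two_ne_zero).1 h

/-- The average over the powers of `g`. -/
def avg (p : ℕ) (g : G) : K →L[ℂ] K :=
  (p : ℂ)⁻¹ • ∑ m ∈ Finset.range p, act π (g ^ m)

theorem avg_apply (p : ℕ) (g : G) (x : K) :
    avg π p g x = (p : ℂ)⁻¹ • ∑ m ∈ Finset.range p, act π (g ^ m) x := by
  rw [avg, smul_apply, sum_apply]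

variable {p : ℕ} (hp : 0 < p)

include hp in
theorem avg_of_fixed {g : G} {x : K} (h : act π g x = x) : avg π p g x = x := by
  have h2 : ∀ m : ℕ, act π (g ^ m) x = x := by
    intro m
    induction m with
    | zero => rw [pow_zero, act_one]
    | succ m ih => rw [pow_succ, act_mul, h, ih]
  rw [avg_apply]
  simp_rw [h2]
  rw [Finset.sum_const, Finset.card_range, ← Nat.cast_smul_eq_nsmul ℂ, smul_smul,
    inv_mul_cancel₀ (by exact_mod_cast hp.ne'), one_smul]

theorem act_avg {g : G} (hg : g ^ p = 1) (x : K) : act π g (avg π p g x) = avg π p g x := by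
  rw [avg_apply, map_smul, map_sum]
  congr 1
  have h1 : ∀ m, act π g (act π (g ^ m) x) = act π (g ^ (m + 1)) x := by
    intro m
    rw [← act_mul, ← pow_succ']
  simp_rw [h1]
  have h2 := Finset.sum_range_succ (fun m => act π (g ^ m) x) p
  have h3 := Finset.sum_range_succ' (fun m => act π (g ^ m) x) p
  rw [h2, hg, pow_zero] at h3
  exact (add_right_cancel h3).symm

theorem inner_fixed_avg (hp : 0 < p) {g : G} {w : K} (hw : act π g w = w) (x : K) :
    ⟪w, avg π p g x⟫_ℂ = ⟪w, x⟫_ℂ := by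
  have h2 : ∀ m : ℕ, act π (g ^ m) w = w := by
    intro m
    induction m with
    | zero => rw [pow_zero, act_one]
    | succ m ih => rw [pow_succ, act_mul, hw, ih]
  have h3 : ∀ m : ℕ, ⟪w, act π (g ^ m) x⟫_ℂ = ⟪w, x⟫_ℂ := by
    intro m
    conv_lhs => rw [← h2 m]
    exact inner_act π _ _ _
  rw [avg_apply, inner_smul_right, inner_sum]
  simp_rw [h3]
  rw [Finset.sum_const, Finset.card_range, nsmul_eq_mul, ← mul_assoc,
    inv_mul_cancel₀ (by exact_mod_cast hp.ne'), one_mul]

theorem avg_symm (hp : 0 < p) {g : G} (hg : g ^ p = 1) (x y : K) :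
    ⟪avg π p g x, y⟫_ℂ = ⟪x, avg π p g y⟫_ℂ := by
  rw [← inner_fixed_avg π hp (act_avg π hg x) y]
  rw [← inner_conj_symm x, ← inner_fixed_avg π hp (act_avg π hg y) x, inner_conj_symm]

theorem avg_idem (hp : 0 < p) {g : G} (hg : g ^ p = 1) (x : K) :
    avg π p g (avg π p g x) = avg π p g x :=
  avg_of_fixed π hp (act_avg π hg x)

theorem act_avg_comm {a z : G} (h : Commute z a) (x : K) :
    act π a (avg π p z x) = avg π p z (act π a x) := by
  rw [avg_apply, avg_apply, map_smul, map_sum]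
  congr 1
  refine Finset.sum_congr rfl fun m _ => ?_
  rw [← act_mul, ← act_mul, (h.pow_left m).eq]

theorem avg_avg_comm {a z : G} (h : Commute z a) (x : K) :
    avg π p a (avg π p z x) = avg π p z (avg π p a x) := by
  rw [avg_apply π p a, avg_apply π p a, map_smul, map_sum]
  congr 1
  refine Finset.sum_congr rfl fun m _ => ?_
  exact act_avg_comm π (h.pow_right m) x

/-- The angle data of two elements of order `p` with central commutator. -/
theorem angleData [hpp : Fact p.Prime] {a b z : G} (hz : a * b = z * (b * a))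
    (hza : Commute z a) (hzb : Commute z b) (ha : a ^ p = 1) (hb : b ^ p = 1) :
    AngleData (avg π p a) (avg π p b) (avg π p z) (1 / Real.sqrt p) := by
  have hp : 0 < p := hpp.out.pos
  have hz1 : z ^ p = 1 := pow_z_eq_one hz hza ha
  refine ⟨avg_symm π hp ha, avg_symm π hp hb, avg_symm π hp hz1, avg_idem π hp ha,
    avg_idem π hp hb, avg_idem π hp hz1, avg_avg_comm π hza, avg_avg_comm π hzb, ?_, ?_⟩
  · intro x
    -- `P Q E = Q P E`
    have hzE : ∀ n : ℕ, act π (z ^ n) (avg π p z x) = avg π p z x := by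
      intro n
      induction n with
      | zero => rw [pow_zero, act_one]
      | succ n ih => rw [pow_succ, act_mul, act_avg π hz1, ih]
    have h1 : ∀ m k : ℕ, act π (a ^ m) (act π (b ^ k) (avg π p z x)) =
        act π (b ^ k) (act π (a ^ m) (avg π p z x)) := by
      intro m k
      rw [← act_mul, pow_mul_pow_z hz hza hzb]
      have : z ^ (m * k) * (b ^ k * a ^ m) = b ^ k * a ^ m * z ^ (m * k) := by
        have c1 : Commute (z ^ (m * k)) (b ^ k * a ^ m) :=
          ((hzb.pow_pow _ _).mul_right (hza.pow_pow _ _))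
        exact c1.eq
      rw [this, act_mul, hzE, act_mul]
    rw [avg_apply π p b, avg_apply π p a (avg π p z x), map_smul, map_smul, map_sum, map_sum]
    simp_rw [avg_apply π p a, avg_apply π p b, ← Finset.smul_sum]
    rw [Finset.sum_comm]
    simp_rw [h1]
  · intro x hx hEx
    have hax : act π a x = x := by rw [← hx]; exact act_avg π ha x
    have haxm : ∀ m : ℕ, act π (a ^ m) x = x := by
      intro m
      induction m with
      | zero => rw [pow_zero, act_one]
      | succ m ih => rw [pow_succ, act_mul, hax, ih]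
    -- the inner products vanish
    have h0 : ∀ k : ℕ, ¬ p ∣ k → ⟪act π (b ^ k) x, x⟫_ℂ = 0 := by
      intro k hk
      have hcop : Nat.Coprime k p := ((Nat.Prime.coprime_iff_not_dvd hpp.out).2 hk).symm
      -- the average of z^(mk)
      set y := (p : ℂ)⁻¹ • ∑ m ∈ Finset.range p, act π ((z ^ k) ^ m) x with hy
      have hy' : y = avg π p (z ^ k) x := (avg_apply π p (z ^ k) x).symm
      have hy1 : act π (z ^ k) y = y := by
        rw [hy']
        exact act_avg π (by rw [← pow_mul, mul_comm, pow_mul, hz1, one_pow]) x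
      have hyn : ∀ n : ℕ, act π ((z ^ k) ^ n) y = y := by
        intro n
        induction n with
        | zero => rw [pow_zero, act_one]
        | succ m ih => rw [pow_succ, act_mul, hy1, ih]
      obtain ⟨l, -, hl⟩ := Nat.exists_mul_mod_eq_one_of_coprime hcop hpp.out.one_lt
      have hzl : (z ^ k) ^ l = z := by
        rw [← pow_mul]
        conv_lhs => rw [← Nat.div_add_mod (k * l) p, hl, pow_add, pow_mul, hz1, one_pow, one_mul,
          pow_one]
      have hy2 : act π z y = y := by
        have := hyn l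
        rwa [hzl] at this
      have hy3 : y = 0 := by
        rw [← avg_of_fixed π hp hy2, hy', avg_avg_comm π ((Commute.refl z).pow_left k), hEx,
          map_zero]
      have h2 : avg π p a (act π (b ^ k) x) = act π (b ^ k) y := by
        rw [avg_apply, hy, map_smul, map_sum]
        congr 1
        refine Finset.sum_congr rfl fun m _ => ?_
        rw [← act_mul, ← act_mul, pow_mul_pow_z hz hza hzb, ← mul_assoc, act_mul, haxm]
        have e : z ^ (m * k) * b ^ k = b ^ k * (z ^ k) ^ m := by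
          rw [← pow_mul, mul_comm k m]
          exact (hzb.pow_pow _ _).eq
        rw [e]
      have h3 : ⟪act π (b ^ k) x, x⟫_ℂ = ⟪avg π p a (act π (b ^ k) x), x⟫_ℂ := by
        rw [avg_symm π hp ha, hx]
      rw [h3, h2, hy3, map_zero, inner_zero_left]
    have h4 : ‖avg π p b x‖ ^ 2 = (1 / (p : ℝ)) * ‖x‖ ^ 2 := by
      have e1 : ‖avg π p b x‖ ^ 2 = Complex.re (inner ℂ (avg π p b x) x) := by
        rw [← re_inner_self, ← avg_symm π hp hb, avg_idem π hp hb]
      have e2 : ⟪avg π p b x, x⟫_ℂ = (p : ℂ)⁻¹ * ⟪x, x⟫_ℂ := by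
        rw [avg_apply, inner_smul_left, sum_inner]
        congr 1
        · simp
        · rw [Finset.sum_eq_single 0]
          · rw [pow_zero, act_one]
          · intro k hk hk0
            refine h0 k fun hd => ?_
            exact absurd (Nat.le_of_dvd (Nat.pos_of_ne_zero hk0) hd)
              (not_le.2 (Finset.mem_range.1 hk))
          · intro h
            exact absurd (Finset.mem_range.2 hp) h
      rw [e1, e2, ← Complex.ofReal_natCast, ← Complex.ofReal_inv, Complex.re_ofReal_mul,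
        re_inner_self, one_div]
    have h5 : ‖avg π p b x‖ ^ 2 = (1 / Real.sqrt p * ‖x‖) ^ 2 := by
      rw [h4, mul_pow, div_pow, Real.sq_sqrt (Nat.cast_nonneg p), one_pow]
    exact le_of_eq ((pow_left_inj₀ (norm_nonneg _) (by positivity) two_ne_zero).1 h5)

end Avg

section Fixed

variable {K : Type v} [NormedAddCommGroup K] [InnerProductSpace ℂ K] [CompleteSpace K]

/-- A positive operator with `Δ² ≥ κ Δ` which has an almost kernel vector has a kernel vector. -/
theorem exists_kernel {Δ : K →L[ℂ] K} (hΔ : 0 ≤ Δ) {κ : ℝ}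
    (hgap : ∀ v, κ * Complex.re (inner ℂ (Δ v) v) ≤ ‖Δ v‖ ^ 2) {ξ : K} (hξ : Complex.re (inner ℂ (Δ ξ) ξ) < κ * ‖ξ‖ ^ 2) :
    ∃ η : K, η ≠ 0 ∧ Δ η = 0 := by
  set D : K →L[ℂ] K := CFC.sqrt Δ with hD
  have hDD : D * D = Δ := CFC.sqrt_mul_sqrt_self Δ hΔ
  have hDs : IsSelfAdjoint D := (CFC.sqrt_nonneg Δ).isSelfAdjoint
  have hDsymm : ∀ x y, ⟪D x, y⟫_ℂ = ⟪x, D y⟫_ℂ := by
    intro x y
    rw [← ContinuousLinearMap.adjoint_inner_right, ← ContinuousLinearMap.star_eq_adjoint,
      hDs.star_eq]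
  have hDDx : ∀ x, D (D x) = Δ x := by
    intro x
    rw [← hDD]; rfl
  by_contra hcon
  push Not at hcon
  have hker : ∀ v, D v = 0 → v = 0 := by
    intro v hv
    by_contra hne
    exact hcon v hne (by rw [← hDDx, hv, map_zero])
  have hdense : (LinearMap.range (D : K →ₗ[ℂ] K)).topologicalClosure = ⊤ := by
    rw [Submodule.topologicalClosure_eq_top_iff, Submodule.eq_bot_iff]
    intro v hv
    apply hker
    have h1 : ∀ w, ⟪D w, v⟫_ℂ = 0 := fun w =>
      (Submodule.mem_orthogonal _ _).1 hv (D w) ⟨w, rfl⟩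
    have h2 := h1 (D v)
    rw [hDsymm] at h2
    exact inner_self_eq_zero.1 h2
  have hclosed : IsClosed {v : K | κ * ‖v‖ ^ 2 ≤ Complex.re (inner ℂ (Δ v) v)} := by
    apply isClosed_le
    · fun_prop
    · exact Complex.continuous_re.comp (Continuous.inner Δ.continuous continuous_id)
  have hrange : ∀ w, κ * ‖D w‖ ^ 2 ≤ Complex.re (inner ℂ (Δ (D w)) (D w)) := by
    intro w
    have e1 : Complex.re (inner ℂ (Δ (D w)) (D w)) = ‖Δ w‖ ^ 2 := by
      rw [← re_inner_self, ← hDDx (D w), hDsymm, ← hDDx w, ]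
    have e2 : ‖D w‖ ^ 2 = Complex.re (inner ℂ (Δ w) w) := by
      rw [← re_inner_self, ← hDDx w, hDsymm (D w)]
    rw [e1, e2]
    exact hgap w
  have hmem : ξ ∈ closure (Set.range D) := by
    have : ξ ∈ (LinearMap.range (D : K →ₗ[ℂ] K)).topologicalClosure := by
      rw [hdense]; trivial
    exact this
  have hfin : ξ ∈ {v : K | κ * ‖v‖ ^ 2 ≤ Complex.re (inner ℂ (Δ v) v)} := by
    refine closure_minimal ?_ hclosed hmem
    rintro _ ⟨w, rfl⟩
    exact hrange w
  exact absurd hfin (not_le.2 hξ)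

end Fixed

section Main

variable {G : Type u} [Group G]

/-- A group generated by `m` elements of prime order `p` such that all commutators of two
generators commute with both of them has property (T), provided `(m - 1)² < p`. -/
theorem groupPropertyT_of_generators {p m : ℕ} [hpp : Fact p.Prime] (s : Fin m → G)
    (hgen : Subgroup.closure (Set.range s) = ⊤) (hord : ∀ i, s i ^ p = 1)
    (hcomm : ∀ i j, ∃ z, s i * s j = z * (s j * s i) ∧ Commute z (s i) ∧ Commute z (s j))
    (hm : 1 ≤ m) (hmp : ((m : ℝ) - 1) ^ 2 < p) : GroupPropertyT.{u, v} G := by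
  classical
  have hp : 0 < p := hpp.out.pos
  have hp' : (0 : ℝ) < p := by exact_mod_cast hp
  have hm' : (1 : ℝ) ≤ m := by exact_mod_cast hm
  set ε : ℝ := 1 / Real.sqrt p with hε
  have hε0 : 0 ≤ ε := by positivity
  have hε1 : ε ≤ 1 := by
    rw [hε, div_le_one (Real.sqrt_pos.2 hp')]
    rw [Real.one_le_sqrt]
    exact_mod_cast hp
  set κ : ℝ := 1 - (m - 1) * ε with hκ
  have hκ0 : 0 < κ := by
    have h1 : ((m : ℝ) - 1) < Real.sqrt p := by
      rw [← Real.sqrt_sq (by linarith : (0 : ℝ) ≤ (m : ℝ) - 1)]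
      exact Real.sqrt_lt_sqrt (sq_nonneg _) hmp
    have h2 : ((m : ℝ) - 1) * ε < 1 := by
      rw [hε, mul_one_div, div_lt_one (Real.sqrt_pos.2 hp')]
      exact h1
    linarith
  set δ : ℝ := min 1 (κ / (2 * m * p ^ 2)) with hδ
  have hδ0 : 0 < δ := lt_min one_pos (by positivity)
  have hδ1 : m * (p * δ) ^ 2 < κ := by
    have h1 : δ ≤ 1 := min_le_left _ _
    have h2 : δ ≤ κ / (2 * m * p ^ 2) := min_le_right _ _
    have h3 : δ ^ 2 ≤ κ / (2 * m * p ^ 2) := by nlinarith
    calc m * (p * δ) ^ 2 = m * p ^ 2 * δ ^ 2 := by ring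
      _ ≤ m * p ^ 2 * (κ / (2 * m * p ^ 2)) := by gcongr
      _ = κ / 2 := by field_simp
      _ < κ := by linarith
  refine ⟨Finset.univ.image s, δ, hδ0, ?_⟩
  intro K _ _ _ π ξ hξ hsmall
  set q : Fin m → K → K := fun i v => v - avg π p (s i) v with hq
  set Δ : K →L[ℂ] K := ∑ i, (1 - avg π p (s i)) with hΔ
  have hΔv : ∀ v, Δ v = ∑ i, q i v := by
    intro v
    rw [hΔ, sum_apply]
    rfl
  have hsymm : ∀ i x y, ⟪q i x, y⟫_ℂ = ⟪x, q i y⟫_ℂ := by
    intro i x y
    rw [hq]
    simp only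
    rw [inner_sub_left, inner_sub_right, avg_symm π hp (hord i)]
  have hidem : ∀ i x, q i (q i x) = q i x := by
    intro i x
    rw [hq]
    simp only
    rw [map_sub, avg_idem π hp (hord i), sub_self, sub_zero]
  have hnorm : ∀ i v, Complex.re (inner ℂ (q i v) v) = ‖q i v‖ ^ 2 := by
    intro i v
    rw [← re_inner_self, ← hsymm, hidem]
  have hΔre : ∀ v, Complex.re (inner ℂ (Δ v) v) = ∑ i, ‖q i v‖ ^ 2 := by
    intro v
    rw [hΔv, sum_inner, Complex.re_sum]
    exact Finset.sum_congr rfl fun i _ => hnorm i v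
  have hpos : 0 ≤ Δ := by
    rw [ContinuousLinearMap.nonneg_iff_isPositive]
    refine ⟨?_, fun x => ?_⟩
    · intro x y
      show ⟪Δ x, y⟫_ℂ = ⟪x, Δ y⟫_ℂ
      rw [hΔv, hΔv, sum_inner, inner_sum]
      exact Finset.sum_congr rfl fun i _ => hsymm i x y
    · show 0 ≤ Complex.re (inner ℂ (Δ x) x)
      rw [hΔre]
      positivity
  have hgap : ∀ v, κ * Complex.re (inner ℂ (Δ v) v) ≤ ‖Δ v‖ ^ 2 := by
    intro v
    rw [hΔre, hΔv, hκ]
    refine sum_ineq (fun i => q i v) fun i j _ => ?_
    obtain ⟨z, hz, hza, hzb⟩ := hcomm i j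
    exact (angleData π hz hza hzb (hord i) (hord j)).pair_ineq hε0 hε1 v
  have hsm : ∀ i, ‖q i ξ‖ ≤ p * δ := by
    intro i
    have h1 : ∀ n : ℕ, ‖ξ - act π (s i ^ n) ξ‖ ≤ n * δ := by
      intro n
      induction n with
      | zero => simp [act_one]
      | succ n ih =>
        have e : ξ - act π (s i ^ (n + 1)) ξ =
            (ξ - act π (s i ^ n) ξ) - act π (s i ^ n) (act π (s i) ξ - ξ) := by
          rw [pow_succ, act_mul, map_sub]; abel
        rw [e]
        refine (norm_sub_le _ _).trans ?_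
        rw [norm_act]
        have h2 : ‖act π (s i) ξ - ξ‖ ≤ δ :=
          (hsmall (s i) (Finset.mem_image_of_mem _ (Finset.mem_univ i))).le
        push_cast
        linarith
    have h2 : q i ξ = (p : ℂ)⁻¹ • ∑ n ∈ Finset.range p, (ξ - act π (s i ^ n) ξ) := by
      rw [hq]
      simp only
      rw [avg_apply, Finset.sum_sub_distrib, smul_sub, Finset.sum_const, Finset.card_range,
        ← Nat.cast_smul_eq_nsmul ℂ, smul_smul, inv_mul_cancel₀ (by exact_mod_cast hp.ne'),
        one_smul]
    rw [h2, norm_smul, norm_inv, Complex.norm_natCast]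
    have h3 : ‖∑ n ∈ Finset.range p, (ξ - act π (s i ^ n) ξ)‖ ≤ ∑ n ∈ Finset.range p, (p * δ) := by
      refine norm_sum_le_of_le _ fun n hn => (h1 n).trans ?_
      have : (n : ℝ) ≤ p := by exact_mod_cast (Finset.mem_range.1 hn).le
      exact mul_le_mul_of_nonneg_right this hδ0.le
    rw [Finset.sum_const, Finset.card_range, nsmul_eq_mul] at h3
    calc (p : ℝ)⁻¹ * ‖∑ n ∈ Finset.range p, (ξ - act π (s i ^ n) ξ)‖
        ≤ (p : ℝ)⁻¹ * (p * (p * δ)) := by gcongr
      _ = p * δ := by rw [← mul_assoc, inv_mul_cancel₀ hp'.ne', one_mul]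
  have hξsmall : Complex.re (inner ℂ (Δ ξ) ξ) < κ * ‖ξ‖ ^ 2 := by
    rw [hΔre, hξ, one_pow, mul_one]
    calc ∑ i, ‖q i ξ‖ ^ 2 ≤ ∑ _i : Fin m, (p * δ) ^ 2 := by
          refine Finset.sum_le_sum fun i _ => ?_
          have := hsm i
          gcongr
      _ = m * (p * δ) ^ 2 := by simp
      _ < κ := hδ1
  obtain ⟨η, hη0, hη⟩ := exists_kernel hpos hgap hξsmall
  refine ⟨η, hη0, ?_⟩
  have h1 : ∑ i, ‖q i η‖ ^ 2 = 0 := by
    rw [← hΔre, hη, inner_zero_left, Complex.zero_re]
  have h2 : ∀ i, q i η = 0 := by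
    intro i
    have := (Finset.sum_eq_zero_iff_of_nonneg (fun i _ => sq_nonneg ‖q i η‖)).1 h1 i
      (Finset.mem_univ i)
    exact norm_eq_zero.1 (pow_eq_zero_iff two_ne_zero |>.1 this)
  have h3 : ∀ i, act π (s i) η = η := by
    intro i
    have h4 : η = avg π p (s i) η := sub_eq_zero.1 (h2 i)
    rw [h4]
    exact act_avg π (hord i) η
  intro g
  have hg : g ∈ Subgroup.closure (Set.range s) := by rw [hgen]; trivial
  refine Subgroup.closure_induction (p := fun g _ => act π g η = η) ?_ ?_ ?_ ?_ hg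
  · rintro _ ⟨i, rfl⟩
    exact h3 i
  · exact act_one π η
  · intro x y _ _ hx hy
    rw [act_mul, hy, hx]
  · intro x _ hx
    conv_lhs => rw [← hx]
    rw [← act_mul, inv_mul_cancel, act_one]

end Main

end Pool.Agent.ExT
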