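import Pool.Agent.ExT.Elem3
import Pool.Agent.ExT.GroupT2

/-!
# `G` has property (T) and contains the diagonal copy of `H`
-/

noncomputable section

namespace Pool.Agent.ExT

open Finset Filter

universe v

variable (U : Ultrafilter ℕ)

/-- The generators as elements of `G`. -/
def genG (i : Fin 5) : GG U := ⟨gen U i, Subgroup.subset_closure ⟨i, rfl⟩⟩

theorem closure_genG : Subgroup.closure (Set.range (genG U)) = ⊤ := by
  have h := Subgroup.closure_closure_coe_preimage (k := Set.range (gen U))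
  refine Eq.trans ?_ h
  show Subgroup.closure (Set.range (genG U)) =
    Subgroup.closure ((fun x : GG U => (x : (U : Filter ℕ).Germ HH)) ⁻¹' Set.range (gen U))
  congr 1
  ext x
  constructor
  · rintro ⟨i, rfl⟩
    exact ⟨i, rfl⟩
  · rintro ⟨i, hi⟩
    exact ⟨i, Subtype.ext hi⟩

theorem genG_CC (i j : Fin 5) : CC (genG U i) (genG U j) := by
  obtain ⟨z, h1, h2, h3⟩ := gen_CC U i j
  have hz : z ∈ GG U := by
    have : z = gen U i * gen U j * (gen U j * gen U i)⁻¹ := by rw [h1]; group
    rw [this]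
    have hi : gen U i ∈ GG U := (genG U i).2
    have hj : gen U j ∈ GG U := (genG U j).2
    exact mul_mem (mul_mem hi hj) (inv_mem (mul_mem hj hi))
  refine ⟨⟨z, hz⟩, Subtype.ext h1, ?_, ?_⟩
  · exact Subtype.ext h2.eq
  · exact Subtype.ext h3.eq

/-- `G` has property (T). -/
theorem GG_propertyT : GroupPropertyT.{0, v} (GG U) := by
  refine groupPropertyT_of_generators (p := 17) (m := 5) (genG U) (closure_genG U) ?_
    (genG_CC U) (by norm_num) (by norm_num)
  intro i
  exact Subtype.ext (gen_pow U i)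

/-- Sequences all of whose elementary matrices lie in `G`. -/
def WW : Set (ℕ → EndY) := {w | FSs w ∧ ∀ i j, i ≠ j → eU U i j w ∈ GG U}

variable {U}

theorem mem_of_comm {w w' : ℕ → EndY} (h : FSs w) (h' : FSs w') {i j k : Fin 3} (hij : i ≠ j)
    (hjk : j ≠ k) (hik : i ≠ k) (h1 : eU U i j w ∈ GG U) (h2 : eU U j k w' ∈ GG U) :
    eU U i k (w * w') ∈ GG U := by
  have e := eU_comm U h h' hij hjk hik
  have : eU U i k (w * w') = eU U i j w * eU U j k w' * (eU U j k w' * eU U i j w)⁻¹ := by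
    rw [e]; group
  rw [this]
  exact mul_mem (mul_mem h1 h2) (inv_mem (mul_mem h2 h1))

theorem WW_mul {w w' : ℕ → EndY} (h : w ∈ WW U) (h' : w' ∈ WW U) : w * w' ∈ WW U := by
  refine ⟨fun n => (h.1 n).mul (h'.1 n), fun i k hik => ?_⟩
  obtain ⟨j, hij, hjk⟩ : ∃ j : Fin 3, i ≠ j ∧ j ≠ k := by
    revert i k; decide
  exact mem_of_comm h.1 h'.1 hij hjk hik (h.2 i j hij) (h'.2 j k hjk)

theorem WW_add {w w' : ℕ → EndY} (h : w ∈ WW U) (h' : w' ∈ WW U) : w + w' ∈ WW U := by
  refine ⟨fun n => (h.1 n).add (h'.1 n), fun i k hik => ?_⟩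
  rw [eU_add U h.1 h'.1]
  exact mul_mem (h.2 i k hik) (h'.2 i k hik)

theorem WW_congr {w w' : ℕ → EndY} (h : w ∈ WW U) (h' : FSs w')
    (e : ∀ᶠ n in (U : Filter ℕ), w n = w' n) : w' ∈ WW U := by
  refine ⟨h', fun i j hij => ?_⟩
  rw [← eU_congr U e]
  exact h.2 i j hij

theorem oneW_mul' {w : ℕ → EndY} (h : ∀ n, Supp n (w n)) : oneW * w = w := by
  funext n
  exact oneW_mul (h n)

theorem mul_oneW' {w : ℕ → EndY} (h : ∀ n, Supp n (w n)) : w * oneW = w := by
  funext n
  exact mul_oneW (h n)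

theorem e02_one : eU U 0 2 oneW ∈ GG U := by
  have := mem_of_comm (U := U) oneW_FSs oneW_FSs (i := 0) (j := 1) (k := 2) (by decide)
    (by decide) (by decide) (genG U 0).2 (genG U 1).2
  rwa [oneW_mul' oneW_supp] at this

theorem mem_WW_of_e20 {w : ℕ → EndY} (h : ∀ n, Supp n (w n)) (h20 : eU U 2 0 w ∈ GG U) :
    w ∈ WW U := by
  have hw : FSs w := fun n => ⟨n, h n⟩
  have h01 : eU U 0 1 oneW ∈ GG U := (genG U 0).2
  have h12 : eU U 1 2 oneW ∈ GG U := (genG U 1).2
  have h21' : eU U 2 1 w ∈ GG U := by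
    have := mem_of_comm (U := U) hw oneW_FSs (i := 2) (j := 0) (k := 1) (by decide)
      (by decide) (by decide) h20 h01
    rwa [mul_oneW' h] at this
  have h10' : eU U 1 0 w ∈ GG U := by
    have := mem_of_comm (U := U) oneW_FSs hw (i := 1) (j := 2) (k := 0) (by decide)
      (by decide) (by decide) h12 h20
    rwa [oneW_mul' h] at this
  have h01' : eU U 0 1 w ∈ GG U := by
    have := mem_of_comm (U := U) oneW_FSs hw (i := 0) (j := 2) (k := 1) (by decide)
      (by decide) (by decide) e02_one h21'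
    rwa [oneW_mul' h] at this
  have h12' : eU U 1 2 w ∈ GG U := by
    have := mem_of_comm (U := U) hw oneW_FSs (i := 1) (j := 0) (k := 2) (by decide)
      (by decide) (by decide) h10' e02_one
    rwa [mul_oneW' h] at this
  have h02' : eU U 0 2 w ∈ GG U := by
    have := mem_of_comm (U := U) hw oneW_FSs (i := 0) (j := 1) (k := 2) (by decide)
      (by decide) (by decide) h01' h12
    rwa [mul_oneW' h] at this
  refine ⟨hw, fun i j hij => ?_⟩
  fin_cases i <;> fin_cases j
  · exact absurd rfl hij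
  · exact h01'
  · exact h02'
  · exact h10'
  · exact absurd rfl hij
  · exact h12'
  · exact h20
  · exact h21'
  · exact absurd rfl hij

theorem tW_WW : tW ∈ WW U := mem_WW_of_e20 tW_supp (genG U 2).2

theorem tW'_WW : tW' ∈ WW U := mem_WW_of_e20 tW'_supp (genG U 3).2

theorem E00_WW : (fun _ => EE 0 0) ∈ WW U :=
  mem_WW_of_e20 (fun n => EE_supp (by simp) (by simp)) (genG U 4).2

theorem ev_lt (hU : (U : Filter ℕ) ≤ cofinite) (k : ℤ) : ∀ᶠ n : ℕ in (U : Filter ℕ), |k| < (n : ℤ) := by
  have h : ∀ᶠ n : ℕ in cofinite, |k| < (n : ℤ) := by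
    rw [Nat.cofinite_eq_atTop]
    filter_upwards [eventually_gt_atTop k.natAbs] with n hn
    rw [Int.abs_eq_natAbs]
    exact_mod_cast hn
  exact h.filter_mono hU

theorem EE_WW (hU : (U : Filter ℕ) ≤ cofinite) (k l : ℤ) : (fun _ => EE k l) ∈ WW U := by
  have hk : ∀ k : ℤ, (fun _ => EE k 0) ∈ WW U := by
    intro k
    induction k using Int.induction_on with
    | zero => exact E00_WW
    | succ k ih =>
      refine WW_congr (WW_mul tW_WW ih) (const_FSs (EE_FS _ _)) ?_
      filter_upwards [ev_lt hU (k : ℤ)] with n hn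
      show tW n * EE k 0 = _
      rw [tW_mul_EE hn.le, rot_of_lt hn]
    | pred k ih =>
      refine WW_congr (WW_mul tW'_WW ih) (const_FSs (EE_FS _ _)) ?_
      filter_upwards [ev_lt hU (-(k : ℤ))] with n hn
      show tW' n * EE (-(k : ℤ)) 0 = _
      rw [tW'_mul_EE hn.le, rot_symm_of_lt hn]
  induction l using Int.induction_on with
  | zero => exact hk k
  | succ l ih =>
    refine WW_congr (WW_mul ih tW'_WW) (const_FSs (EE_FS _ _)) ?_
    filter_upwards [ev_lt hU (l : ℤ)] with n hn
    show EE k l * tW' n = _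
    rw [EE_mul_tW' hn.le, rot_of_lt hn]
  | pred l ih =>
    refine WW_congr (WW_mul ih tW_WW) (const_FSs (EE_FS _ _)) ?_
    filter_upwards [ev_lt hU (-(l : ℤ))] with n hn
    show EE k (-(l : ℤ)) * tW n = _
    rw [EE_mul_tW hn.le, rot_symm_of_lt hn]

theorem zero_WW : (fun _ => (0 : EndY)) ∈ WW U := by
  refine ⟨fun n => ⟨0, fun _ _ => rfl, fun _ _ _ => rfl⟩, fun i j _ => ?_⟩
  have : eU U i j (fun _ => (0 : EndY)) = 1 := by
    rw [eU, ← Germ.coe_one, Germ.coe_eq]
    refine Eventually.of_forall fun n => ?_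
    refine Subtype.ext ?_
    show (eH i j 0 : EndXˣ) = 1
    rw [eH_val ⟨0, fun _ _ => rfl, fun _ _ _ => rfl⟩, ee_zero]
  rw [this]
  exact one_mem _

theorem nsmul_WW {w : EndY} (h : (fun _ => w) ∈ WW U) (m : ℕ) :
    (fun _ => m • w) ∈ WW U := by
  induction m with
  | zero => simpa using zero_WW
  | succ m ih =>
    have := WW_add ih h
    convert this using 1
    funext n
    exact succ_nsmul w m

theorem smul_WW {w : EndY} (h : (fun _ => w) ∈ WW U) (c : F17) :
    (fun _ => c • w) ∈ WW U := by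
  have := nsmul_WW h c.val
  convert this using 1
  funext n
  rw [← Nat.cast_smul_eq_nsmul F17, ZMod.natCast_zmod_val]

theorem sum_WW {ι : Type*} (s : Finset ι) (f : ι → EndY) (h : ∀ i ∈ s, (fun _ => f i) ∈ WW U) :
    (fun _ => ∑ i ∈ s, f i) ∈ WW U := by
  classical
  induction s using Finset.induction_on with
  | empty => simpa using zero_WW
  | insert a s ha ih =>
    have h1 := h a (Finset.mem_insert_self a s)
    have h2 := ih fun i hi => h i (Finset.mem_insert_of_mem hi)
    have := WW_add h1 h2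
    convert this using 1
    funext n
    rw [Finset.sum_insert ha]
    rfl

theorem const_WW (hU : (U : Filter ℕ) ≤ cofinite) {w : EndY} (hw : FS w) :
    (fun _ => w) ∈ WW U := by
  obtain ⟨n, hn⟩ := hw
  rw [supp_eq_sum hn]
  refine sum_WW _ _ fun k _ => sum_WW _ _ fun l _ => smul_WW (EE_WW hU k l) _

/-- The diagonal copy of `H` is contained in `G`. -/
theorem diag_mem_GG (hU : (U : Filter ℕ) ≤ cofinite) (h : HH) :
    ((fun _ => h : ℕ → HH) : (U : Filter ℕ).Germ HH) ∈ GG U := by
  have key : ∀ (g : EndXˣ) (hg : g ∈ HH),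
      ((fun _ => (⟨g, hg⟩ : HH) : ℕ → HH) : (U : Filter ℕ).Germ HH) ∈ GG U := by
    intro g hg
    refine Subgroup.closure_induction
      (p := fun g hg => ((fun _ => (⟨g, hg⟩ : HH) : ℕ → HH) : (U : Filter ℕ).Germ HH) ∈ GG U)
      ?_ ?_ ?_ ?_ hg
    · rintro _ ⟨i, j, w, hw, rfl⟩
      by_cases hij : i = j
      · have e : ((fun _ => (⟨ee i j w, ee_mem_HH hw i j⟩ : HH) : ℕ → HH) :
            (U : Filter ℕ).Germ HH) = 1 := by
          rw [← Germ.coe_one, Germ.coe_eq]
          refine Eventually.of_forall fun n => Subtype.ext ?_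
          show ee i j w = 1
          rw [ee, dif_pos hij]
        rw [e]
        exact one_mem _
      · have h1 := (const_WW hU hw).2 i j hij
        have e : eU U i j (fun _ => w) = ((fun _ => (⟨ee i j w, ee_mem_HH hw i j⟩ : HH) :
            ℕ → HH) : (U : Filter ℕ).Germ HH) := by
          rw [eU, Germ.coe_eq]
          refine Eventually.of_forall fun n => Subtype.ext ?_
          exact eH_val hw i j
        rw [← e]
        exact h1
    · exact one_mem _
    · intro x y _ _ hx hy
      exact mul_mem hx hy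
    · intro x _ hx
      exact inv_mem hx
  exact key h.1 h.2

/-- The diagonal embedding `H → G`. -/
def diagG (hU : (U : Filter ℕ) ≤ cofinite) : HH →* GG U where
  toFun h := ⟨((fun _ => h : ℕ → HH) : (U : Filter ℕ).Germ HH), diag_mem_GG hU h⟩
  map_one' := rfl
  map_mul' _ _ := rfl

end Pool.Agent.ExT
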