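import Pool.Agent.ExT.Elem4

/-!
# Elements with finite conjugacy class act as scalars on basis vectors
-/

noncomputable section

namespace Pool.Agent.ExT

open Finset Filter

variable {U : Ultrafilter ℕ}

/-- The class of a constant sequence. -/
abbrev cst (U : Ultrafilter ℕ) (h : HH) : (U : Filter ℕ).Germ HH := ((fun _ => h : ℕ → HH) :
  (U : Filter ℕ).Germ HH)

/-- The action of `H` on vectors. -/
abbrev hv (h : HH) (x : X) : X := ((h : EndXˣ) : EndX) x

theorem hv_mul (g h : HH) (x : X) : hv (g * h) x = hv g (hv h x) := rfl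

theorem hv_one (x : X) : hv 1 x = x := rfl

theorem hv_inv_eq {g : HH} {x y : X} (h : hv g x = y) : hv g⁻¹ y = x := by
  rw [← h, ← hv_mul, inv_mul_cancel, hv_one]

/-- Rank one perturbation of the identity in `H`. -/
def IsRankOne (v : X) (j : Fin 3) (l : ℤ) (h : HH) : Prop :=
  ∀ x : X, hv h x = x + x j l • v

theorem exists_rankOne_single (i j : Fin 3) (hij : i ≠ j) (k l : ℤ) :
    ∃ h : HH, IsRankOne (dl i k) j l h := by
  refine ⟨⟨ee i j (EE k l), ee_mem_HH (EE_FS k l) i j⟩, fun x => ?_⟩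
  show (ee i j (EE k l) : EndX) x = _
  rw [ee_apply hij, EE_apply]
  congr 1
  funext a b
  rw [Pi.smul_apply, Pi.smul_apply, dl]
  by_cases ha : a = i
  · subst ha
    rw [Pi.single_eq_same, Pi.single_eq_same]
    by_cases hb : b = k
    · subst hb; simp
    · rw [Pi.single_eq_of_ne hb, Pi.single_eq_of_ne hb, smul_zero]
  · rw [Pi.single_eq_of_ne ha, Pi.single_eq_of_ne ha]; simp

theorem exists_rankOne (i i' j : Fin 3) (hij : i ≠ j) (hij' : i' ≠ j) (k k' l : ℤ) :
    ∃ h : HH, IsRankOne (dl i k + dl i' k') j l h := by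
  obtain ⟨h, hh⟩ := exists_rankOne_single i j hij k l
  obtain ⟨h', hh'⟩ := exists_rankOne_single i' j hij' k' l
  refine ⟨h * h', fun x => ?_⟩
  rw [hv_mul, hh', hh]
  have e : (x + x j l • dl i' k') j l = x j l := by
    rw [Pi.add_apply, Pi.add_apply, Pi.smul_apply, Pi.smul_apply, dl_apply]
    simp [hij']
  rw [e, smul_add]
  abel

/-- The pigeonhole argument. -/
theorem eigen_of_finite {g : ℕ → HH}
    (hfin : (Set.range fun h : HH => cst U h * (g : (U : Filter ℕ).Germ HH) * (cst U h)⁻¹).Finite)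
    {v : X} {j : Fin 3} (hv0 : ∀ l, v j l = 0) (hr : ∀ l, ∃ h : HH, IsRankOne v j l h) :
    ∀ᶠ n in (U : Filter ℕ), ∃ c : F17, hv (g n) v = c • v := by
  choose h hh using hr
  have hninj : ¬ Function.Injective
      (fun l : ℤ => cst U (h l) * (g : (U : Filter ℕ).Germ HH) * (cst U (h l))⁻¹) := by
    intro hinj
    have h1 := Set.infinite_range_of_injective hinj
    refine h1 (hfin.subset ?_)
    rintro _ ⟨l, rfl⟩
    exact ⟨h l, rfl⟩
  rw [Function.Injective] at hninj
  push Not at hninj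
  obtain ⟨l, l', hll, hne⟩ := hninj
  have e1 : (g : (U : Filter ℕ).Germ HH) * cst U ((h l')⁻¹ * h l) =
      cst U ((h l')⁻¹ * h l) * g := by
    have e2 : cst U ((h l')⁻¹ * h l) = (cst U (h l'))⁻¹ * cst U (h l) := rfl
    rw [e2]
    have e3 : (cst U (h l'))⁻¹ * (cst U (h l) * (g : (U : Filter ℕ).Germ HH) * (cst U (h l))⁻¹) *
        cst U (h l) = (cst U (h l'))⁻¹ *
        (cst U (h l') * (g : (U : Filter ℕ).Germ HH) * (cst U (h l'))⁻¹) * cst U (h l) := by
      rw [hll]
    calc (g : (U : Filter ℕ).Germ HH) * ((cst U (h l'))⁻¹ * cst U (h l))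
        = (cst U (h l'))⁻¹ * (cst U (h l') * (g : (U : Filter ℕ).Germ HH) * (cst U (h l'))⁻¹) *
          cst U (h l) := by group
      _ = _ := by rw [← e3]; group
  have e4 : ((fun n => g n * ((h l')⁻¹ * h l) : ℕ → HH) : (U : Filter ℕ).Germ HH) =
      ((fun n => ((h l')⁻¹ * h l) * g n : ℕ → HH) : (U : Filter ℕ).Germ HH) := e1
  rw [Germ.coe_eq] at e4
  filter_upwards [e4] with n hn
  set T := (h l')⁻¹ * h l with hT
  have hTx : ∀ x : X, hv T x = x + (x j l - x j l') • v := by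
    intro x
    rw [hT, hv_mul]
    apply hv_inv_eq
    rw [hh l', hh l]
    have : (x + (x j l - x j l') • v) j l' = x j l' := by
      rw [Pi.add_apply, Pi.add_apply, Pi.smul_apply, Pi.smul_apply, hv0 l', smul_zero, add_zero]
    rw [this, add_assoc, ← add_smul, sub_add_cancel]
  have hn' := congrArg (fun z : HH => hv z (dl j l)) hn
  simp only [hv_mul] at hn'
  rw [hTx, hTx] at hn'
  have e5 : dl j l j l - dl j l j l' = 1 := by
    rw [dl_apply, dl_apply]
    simp [hne]
  rw [e5, one_smul] at hn'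
  have e6 : hv (g n) (dl j l + v) = hv (g n) (dl j l) + hv (g n) v := map_add _ _ _
  rw [e6] at hn'
  exact ⟨_, add_left_cancel hn'⟩

theorem dl_ne_zero (i : Fin 3) (k : ℤ) : dl i k ≠ 0 := by
  intro h
  have := congrFun (congrFun h i) k
  rw [dl_apply] at this
  simp at this

theorem eigen_pair {g : ℕ → HH}
    (hfin : (Set.range fun h : HH => cst U h * (g : (U : Filter ℕ).Germ HH) * (cst U h)⁻¹).Finite)
    (i i' : Fin 3) (k k' : ℤ) :
    ∀ᶠ n in (U : Filter ℕ), ∃ c : F17, hv (g n) (dl i k) = c • dl i k ∧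
      hv (g n) (dl i' k') = c • dl i' k' := by
  have single : ∀ (i : Fin 3) (k : ℤ), ∀ᶠ n in (U : Filter ℕ), ∃ c : F17,
      hv (g n) (dl i k) = c • dl i k := by
    intro i k
    obtain ⟨j, hij⟩ : ∃ j : Fin 3, i ≠ j := by revert i; decide
    refine eigen_of_finite hfin (j := j) (fun l => ?_) fun l =>
      exists_rankOne_single i j hij k l
    rw [dl_apply]; simp [hij]
  by_cases heq : i = i' ∧ k = k'
  · obtain ⟨rfl, rfl⟩ := heq
    filter_upwards [single i k] with n hn
    obtain ⟨c, hc⟩ := hn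
    exact ⟨c, hc, hc⟩
  · obtain ⟨j, hij, hij'⟩ : ∃ j : Fin 3, i ≠ j ∧ i' ≠ j := by
      clear heq single
      revert i i'; decide
    have h3 := eigen_of_finite hfin (v := dl i k + dl i' k') (j := j) (fun l => by
      rw [Pi.add_apply, Pi.add_apply, dl_apply, dl_apply]; simp [hij, hij']) fun l =>
      exists_rankOne i i' j hij hij' k k' l
    filter_upwards [single i k, single i' k', h3] with n h1 h2 h3
    obtain ⟨c1, h1⟩ := h1
    obtain ⟨c2, h2⟩ := h2
    obtain ⟨c, h3⟩ := h3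
    have e : hv (g n) (dl i k + dl i' k') = hv (g n) (dl i k) + hv (g n) (dl i' k') :=
      map_add _ _ _
    rw [e, h1, h2, smul_add] at h3
    have heq' : ¬ (i' = i ∧ k' = k) := fun h => heq ⟨h.1.symm, h.2.symm⟩
    have a1 := congrFun (congrFun h3 i) k
    have a2 := congrFun (congrFun h3 i') k'
    simp only [Pi.add_apply, Pi.smul_apply, dl_apply, smul_eq_mul, if_neg heq, if_neg heq',
      and_self, if_true, mul_one, mul_zero, add_zero, zero_add] at a1 a2
    refine ⟨c, ?_, ?_⟩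
    · rw [h1, a1]
    · rw [h2, a2]

theorem eigen_window {g : ℕ → HH}
    (hfin : (Set.range fun h : HH => cst U h * (g : (U : Filter ℕ).Germ HH) * (cst U h)⁻¹).Finite)
    (m : ℕ) : ∀ᶠ n in (U : Filter ℕ), ∃ c : F17, ∀ (i : Fin 3) (k : ℤ), |k| ≤ m →
      hv (g n) (dl i k) = c • dl i k := by
  have h1 : ∀ᶠ n in (U : Filter ℕ), ∀ a ∈ (Finset.univ ×ˢ win m : Finset (Fin 3 × ℤ)),
      ∃ c : F17, hv (g n) (dl 0 0) = c • dl 0 0 ∧ hv (g n) (dl a.1 a.2) = c • dl a.1 a.2 := by
    rw [Filter.eventually_all_finset]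
    intro a _
    exact eigen_pair hfin 0 a.1 0 a.2
  have h0 := eigen_pair hfin 0 0 0 0
  filter_upwards [h1, h0] with n hn h0
  obtain ⟨c, hc, -⟩ := h0
  refine ⟨c, fun i k hk => ?_⟩
  obtain ⟨c', hc', hc''⟩ := hn (i, k) (Finset.mem_product.2 ⟨Finset.mem_univ _, mem_win.2 hk⟩)
  have : c = c' := by
    have e := hc.symm.trans hc'
    have a1 := congrFun (congrFun e 0) 0
    simpa [Pi.smul_apply, dl_apply] using a1
  rw [this]
  exact hc''

/-- `H` is ICC. -/
theorem HH_icc : IsICCGroup HH := by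
  intro g hg hfin
  apply hg
  -- any nonprincipal ultrafilter
  obtain ⟨n, hn⟩ := exists_BB g.1 g.2
  have hfin' : (Set.range fun h : HH => cst (hyperfilter ℕ) h *
      ((fun _ => g : ℕ → HH) : ((hyperfilter ℕ : Ultrafilter ℕ) : Filter ℕ).Germ HH) *
      (cst (hyperfilter ℕ) h)⁻¹).Finite := by
    refine (hfin.image (cst (hyperfilter ℕ))).subset ?_
    rintro _ ⟨h, rfl⟩
    refine ⟨h * g * h⁻¹, ?_, rfl⟩
    exact isConj_iff.2 ⟨h, rfl⟩
  obtain ⟨k, c, hc⟩ := (eigen_window hfin' (n + 1)).exists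
  have h1 : hv g (dl 0 (n + 1 : ℕ)) = dl 0 (n + 1 : ℕ) := by
    refine hn.1 _ fun i l hl => ?_
    rw [dl_apply, if_neg]
    rintro ⟨-, rfl⟩
    rw [Nat.abs_cast] at hl
    push_cast at hl
    omega
  have h2 := hc 0 ((n + 1 : ℕ) : ℤ) (by rw [Nat.abs_cast])
  have hc1 : c = 1 := by
    have e := h2.symm.trans h1
    have a1 := congrFun (congrFun e 0) ((n + 1 : ℕ) : ℤ)
    simpa only [Pi.smul_apply, dl_apply, and_self, if_true, smul_eq_mul, mul_one] using a1
  have h3 : (g : EndXˣ) = 1 := by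
    refine BB_eq_one hn fun i l hl => ?_
    have := hc i l (hl.trans (by push_cast; omega))
    rw [hc1, one_smul] at this
    exact this
  exact Subtype.ext h3

end Pool.Agent.ExT
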