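import Pool.Agent.ExT.Elem5

/-!
# Locality of the elements of `G`, and `G` is ICC
-/

noncomputable section

namespace Pool.Agent.ExT

open Finset Filter

/-- The vector `x` vanishes on the window `[-r, r]`. -/
def Van (r : ℕ) (x : X) : Prop := ∀ (i : Fin 3) (k : ℤ), |k| ≤ r → x i k = 0

/-- The rotation of vectors. -/
def rotX (n : ℕ) (x : X) : X := fun i k => x i ((rot n).symm k)

theorem rotX_dl (n : ℕ) (i : Fin 3) (k : ℤ) : rotX n (dl i k) = dl i (rot n k) := by
  funext j l
  rw [rotX, dl_apply, dl_apply]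
  by_cases h : i = j
  · subst h
    by_cases h' : k = (rot n).symm l
    · subst h'; simp
    · have : ¬ rot n k = l := fun h2 => h' (by rw [← h2, Equiv.symm_apply_apply])
      simp [h', this]
  · simp [h]

/-- The indicator function of the window. -/
def indY (n : ℕ) : Y := fun k => if |k| ≤ n then 1 else 0

/-- The indicator function of the window in the coordinate `j`. -/
def indX (j : Fin 3) (n : ℕ) : X := Pi.single j (indY n)

theorem indX_apply (j i : Fin 3) (n : ℕ) (k : ℤ) :
    indX j n i k = if i = j ∧ |k| ≤ n then 1 else 0 := by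
  rw [indX]
  by_cases h : i = j
  · subst h; rw [Pi.single_eq_same, indY]; simp
  · rw [Pi.single_eq_of_ne h]; simp [h]

theorem indX_eq_sum (j : Fin 3) (n : ℕ) : indX j n = ∑ k ∈ win n, dl j k := by
  funext i k
  rw [indX_apply, Finset.sum_apply, Finset.sum_apply]
  simp only [dl_apply]
  by_cases h : i = j
  · subst h
    by_cases hk : |k| ≤ n
    · rw [if_pos ⟨rfl, hk⟩, Finset.sum_eq_single k]
      · simp
      · intro l _ hl; simp [hl]
      · intro h; exact absurd (mem_win.2 hk) h
    · rw [if_neg (fun h => hk h.2), Finset.sum_eq_zero]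
      intro l hl
      rw [if_neg]
      rintro ⟨-, rfl⟩
      exact hk (mem_win.1 hl)
  · rw [if_neg (fun h' => h h'.1), Finset.sum_eq_zero]
    intro l hl
    rw [if_neg (fun h' => h h'.1.symm)]

/-- Locality data for a sequence in `H`. -/
structure LocData (U : Ultrafilter ℕ) (g : ℕ → HH) where
  L : ℕ
  S : Matrix.SpecialLinearGroup (Fin 3) F17
  g0 : ℕ → EndXˣ
  comm : ∀ n x, (g0 n : EndX) (rotX n x) = rotX n ((g0 n : EndX) x)
  ind : ∀ n j, (g0 n : EndX) (indX j n) = ∑ i, (S : Matrix (Fin 3) (Fin 3) F17) i j • indX i n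
  shift : ∀ (n r : ℕ) (x : X), r + L < n → Van (r + L) x → Van r ((g0 n : EndX) x)
  shift' : ∀ (n r : ℕ) (x : X), r + L < n → Van (r + L) x →
    Van r ((((g0 n)⁻¹ : EndXˣ) : EndX) x)
  loc : ∀ᶠ n in (U : Filter ℕ), ∀ x, Van L x → hv (g n) x = (g0 n : EndX) x
  mem : ∀ᶠ n in (U : Filter ℕ), (g n : EndXˣ) ∈ BB n

theorem Van.mono {r s : ℕ} (h : r ≤ s) {x : X} (hx : Van s x) : Van r x :=
  fun i k hk => hx i k (hk.trans (by exact_mod_cast h))

theorem unit_apply_inv (g : EndXˣ) (x : X) : (g : EndX) (((g⁻¹ : EndXˣ) : EndX) x) = x := by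
  rw [← Module.End.mul_apply, ← Units.val_mul, mul_inv_cancel]; rfl

theorem unit_inv_apply (g : EndXˣ) (x : X) : ((g⁻¹ : EndXˣ) : EndX) ((g : EndX) x) = x := by
  rw [← Module.End.mul_apply, ← Units.val_mul, inv_mul_cancel]; rfl

namespace LocData

variable {U : Ultrafilter ℕ}

/-- The trivial data. -/
def one (U : Ultrafilter ℕ) : LocData U (fun _ => 1) where
  L := 0
  S := 1
  g0 := fun _ => 1
  comm := fun _ _ => rfl
  ind := by
    intro n j
    rw [Finset.sum_eq_single j]
    · simp
    · intro i _ hi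
      simp [Matrix.one_apply, hi]
    · intro h; exact absurd (Finset.mem_univ _) h
  shift := fun n r x _ hx => hx
  shift' := fun n r x _ hx => hx
  loc := Eventually.of_forall fun n x _ => rfl
  mem := Eventually.of_forall fun n => one_mem _

/-- Products. -/
def mul (hU : (U : Filter ℕ) ≤ cofinite) {g h : ℕ → HH} (a : LocData U g) (b : LocData U h) :
    LocData U (g * h) where
  L := a.L + b.L
  S := a.S * b.S
  g0 := a.g0 * b.g0
  comm := by
    intro n x
    show (a.g0 n : EndX) ((b.g0 n : EndX) (rotX n x)) = rotX n ((a.g0 n : EndX) ((b.g0 n : EndX) x))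
    rw [b.comm, a.comm]
  ind := by
    intro n j
    show (a.g0 n : EndX) ((b.g0 n : EndX) (indX j n)) = _
    rw [b.ind, map_sum]
    simp only [map_smul, a.ind, Finset.smul_sum]
    rw [Finset.sum_comm]
    refine Finset.sum_congr rfl fun i _ => ?_
    rw [Matrix.SpecialLinearGroup.coe_mul, Matrix.mul_apply, Finset.sum_smul]
    refine Finset.sum_congr rfl fun k _ => ?_
    rw [smul_smul, mul_comm]
  shift := by
    intro n r x hn hx
    show Van r ((a.g0 n : EndX) ((b.g0 n : EndX) x))
    refine a.shift n r _ (by omega) (b.shift n (r + a.L) x (by omega) ?_)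
    rwa [add_assoc]
  shift' := by
    intro n r x hn hx
    have e : (((a.g0 * b.g0) n)⁻¹ : EndXˣ) = (b.g0 n)⁻¹ * (a.g0 n)⁻¹ := by
      rw [Pi.mul_apply, mul_inv_rev]
    rw [e]
    show Van r ((((b.g0 n)⁻¹ : EndXˣ) : EndX) ((((a.g0 n)⁻¹ : EndXˣ) : EndX) x))
    refine b.shift' n r _ (by omega) (a.shift' n (r + b.L) x (by omega) ?_)
    rwa [add_assoc, add_comm b.L]
  loc := by
    have h1 : ∀ᶠ n : ℕ in (U : Filter ℕ), a.L + b.L < n := by
      have : ∀ᶠ n : ℕ in cofinite, a.L + b.L < n := by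
        rw [Nat.cofinite_eq_atTop]; exact eventually_gt_atTop _
      exact this.filter_mono hU
    filter_upwards [a.loc, b.loc, h1] with n ha hb hn x hx
    show hv (g n) (hv (h n) x) = (a.g0 n : EndX) ((b.g0 n : EndX) x)
    rw [hb x (hx.mono (by omega)), ha _ (b.shift n a.L x (by omega) hx)]
  mem := by
    filter_upwards [a.mem, b.mem] with n ha hb
    exact mul_mem ha hb

/-- Inverses. -/
def inv (hU : (U : Filter ℕ) ≤ cofinite) {g : ℕ → HH} (a : LocData U g) :
    LocData U g⁻¹ where
  L := 2 * a.L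
  S := a.S⁻¹
  g0 := a.g0⁻¹
  comm := by
    intro n x
    show ((((a.g0 n)⁻¹ : EndXˣ) : EndX) (rotX n x)) = rotX n ((((a.g0 n)⁻¹ : EndXˣ) : EndX) x)
    conv_lhs => rw [← unit_apply_inv (a.g0 n) x, ← a.comm, unit_inv_apply]
  ind := by
    intro n j
    show ((((a.g0 n)⁻¹ : EndXˣ) : EndX) (indX j n)) = _
    have e : (a.g0 n : EndX) (∑ i, ((a.S⁻¹ : Matrix.SpecialLinearGroup (Fin 3) F17) :
        Matrix (Fin 3) (Fin 3) F17) i j • indX i n) = indX j n := by
      rw [map_sum]
      simp only [map_smul, a.ind, Finset.smul_sum]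
      rw [Finset.sum_comm]
      have e2 : ∀ k i : Fin 3, ∑ i, ((a.S⁻¹ : Matrix.SpecialLinearGroup (Fin 3) F17) :
          Matrix (Fin 3) (Fin 3) F17) i j • (a.S : Matrix (Fin 3) (Fin 3) F17) k i • indX k n =
          (if k = j then (1 : F17) else 0) • indX k n := by
        intro k _
        have e3 := congrArg (fun M : Matrix.SpecialLinearGroup (Fin 3) F17 =>
          (M : Matrix (Fin 3) (Fin 3) F17) k j) (mul_inv_cancel a.S)
        simp only [Matrix.SpecialLinearGroup.coe_mul, Matrix.mul_apply,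
          Matrix.SpecialLinearGroup.coe_one, Matrix.one_apply] at e3
        rw [← e3, Finset.sum_smul]
        refine Finset.sum_congr rfl fun i _ => ?_
        rw [smul_smul, mul_comm]
      rw [Finset.sum_congr rfl fun k _ => e2 k 0]
      rw [Finset.sum_eq_single j]
      · rw [if_pos rfl, one_smul]
      · intro k _ hk
        rw [if_neg hk, zero_smul]
      · intro h; exact absurd (Finset.mem_univ _) h
    conv_lhs => rw [← e, unit_inv_apply]
  shift := by
    intro n r x hn hx
    refine (a.shift' n (r + a.L) x (by omega) ?_).mono (by omega)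
    exact hx.mono (by omega)
  shift' := by
    intro n r x hn hx
    show Van r ((((a.g0 n)⁻¹⁻¹ : EndXˣ) : EndX) x)
    rw [inv_inv]
    refine (a.shift n (r + a.L) x (by omega) ?_).mono (by omega)
    exact hx.mono (by omega)
  loc := by
    have h1 : ∀ᶠ n : ℕ in (U : Filter ℕ), 2 * a.L < n := by
      have : ∀ᶠ n : ℕ in cofinite, 2 * a.L < n := by
        rw [Nat.cofinite_eq_atTop]; exact eventually_gt_atTop _
      exact this.filter_mono hU
    filter_upwards [a.loc, h1] with n ha hn x hx
    show hv (g n)⁻¹ x = ((((a.g0 n)⁻¹ : EndXˣ) : EndX) x)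
    apply hv_inv_eq
    rw [ha _ (a.shift' n a.L x (by omega) (hx.mono (by omega))), unit_apply_inv]
  mem := by
    filter_upwards [a.mem] with n ha
    exact inv_mem ha

/-- Change of representative. -/
def congr {g g' : ℕ → HH} (a : LocData U g) (h : ∀ᶠ n in (U : Filter ℕ), g n = g' n) :
    LocData U g' where
  L := a.L
  S := a.S
  g0 := a.g0
  comm := a.comm
  ind := a.ind
  shift := a.shift
  shift' := a.shift'
  loc := by
    filter_upwards [a.loc, h] with n hn h
    rw [← h]; exact hn
  mem := by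
    filter_upwards [a.mem, h] with n hn h
    rw [← h]; exact hn

/-- The elementary matrices with rotation invariant entries. -/
def elem (i j : Fin 3) (hij : i ≠ j) (σ : ℕ → ℤ → ℤ)
    (hσ1 : ∀ (n : ℕ) (k : ℤ), |σ n k| ≤ n ↔ |k| ≤ n)
    (hσ2 : ∀ (n : ℕ) (k : ℤ), (rot n).symm (σ n k) = σ n ((rot n).symm k))
    (hσ3 : ∀ (n : ℕ) (k : ℤ) (r : ℕ), r + 1 < n → |k| ≤ r → |σ n k| ≤ r + 1) :
    LocData U (fun n => eH i j (cut n (σ n))) where
  L := 1
  S := ⟨Matrix.transvection i j 1, Matrix.det_transvection_of_ne i j hij 1⟩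
  g0 := fun n => ee i j (cut n (σ n))
  comm := by
    intro n x
    rw [ee_apply hij, ee_apply hij]
    funext a k
    rw [Pi.add_apply, Pi.add_apply]
    show x a ((rot n).symm k) + (Pi.single i (cut n (σ n) (rotX n x j)) : X) a k =
      x a ((rot n).symm k) + (Pi.single i (cut n (σ n) (x j)) : X) a ((rot n).symm k)
    congr 1
    by_cases ha : a = i
    · subst ha
      rw [Pi.single_eq_same, Pi.single_eq_same, cut_apply, cut_apply]
      simp only [abs_rot_symm]
      show (if |k| ≤ n then x j ((rot n).symm (σ n k)) else 0) = _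
      rw [hσ2]
    · rw [Pi.single_eq_of_ne ha, Pi.single_eq_of_ne ha]; rfl
  ind := by
    intro n a
    rw [ee_apply hij]
    have e1 : ∀ b : Fin 3, (Matrix.transvection i j (1 : F17)) b a =
        (if b = a then 1 else 0) + (if b = i ∧ a = j then 1 else 0) := by
      intro b
      rw [Matrix.transvection, Matrix.add_apply, Matrix.one_apply, Matrix.single_apply]
      congr 1
      simp only [eq_comm]
    show _ = ∑ b, (Matrix.transvection i j (1 : F17)) b a • indX b n
    simp only [e1, add_smul, Finset.sum_add_distrib, ite_smul, one_smul, zero_smul,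
      Finset.sum_ite_eq', Finset.mem_univ, if_true]
    congr 1
    by_cases ha : a = j
    · subst ha
      simp only [and_true, Finset.sum_ite_eq', Finset.mem_univ, if_true]
      rw [indX, indX, Pi.single_eq_same]
      congr 1
      funext k
      rw [cut_apply, indY, indY]
      simp only [hσ1]
      split_ifs <;> rfl
    · simp only [ha, and_false, if_false, Finset.sum_const_zero]
      rw [indX, Pi.single_eq_of_ne (Ne.symm ha), map_zero, Pi.single_zero]
  shift := by
    intro n r x hn hx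
    intro a k hk
    rw [ee_apply hij, Pi.add_apply, Pi.add_apply, hx a k (hk.trans (by push_cast; omega)),
      zero_add]
    by_cases ha : a = i
    · subst ha
      rw [Pi.single_eq_same, cut_apply]
      split_ifs with h
      · exact hx j _ (by push_cast; exact hσ3 n k r hn hk)
      · rfl
    · rw [Pi.single_eq_of_ne ha]; rfl
  shift' := by
    intro n r x hn hx
    rw [← ee_neg]
    intro a k hk
    rw [ee_apply hij, Pi.add_apply, Pi.add_apply, hx a k (hk.trans (by push_cast; omega)),
      zero_add]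
    by_cases ha : a = i
    · subst ha
      rw [Pi.single_eq_same, LinearMap.neg_apply, Pi.neg_apply, cut_apply]
      split_ifs with h
      · rw [hx j _ (by push_cast; exact hσ3 n k r hn hk), neg_zero]
      · exact neg_zero
    · rw [Pi.single_eq_of_ne ha]; rfl
  loc := by
    refine Eventually.of_forall fun n x _ => ?_
    have h : FS (cut n (σ n)) := ⟨n, cut_supp fun k hk => (hσ1 n k).2 hk⟩
    show ((eH i j (cut n (σ n)) : EndXˣ) : EndX) x = _
    rw [eH_val h]
  mem := by
    refine Eventually.of_forall fun n => ?_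
    have hs : Supp n (cut n (σ n)) := cut_supp fun k hk => (hσ1 n k).2 hk
    show (eH i j (cut n (σ n)) : EndXˣ) ∈ BB n
    rw [eH_val ⟨n, hs⟩]
    exact ee_mem_BB hs i j

/-- The defect generator. -/
def defect : LocData U (fun _ => eH 2 0 (EE 0 0)) where
  L := 0
  S := 1
  g0 := fun _ => 1
  comm := fun _ _ => rfl
  ind := (one U).ind
  shift := fun n r x _ hx => hx
  shift' := fun n r x _ hx => hx
  loc := by
    refine Eventually.of_forall fun n x hx => ?_
    show ((eH 2 0 (EE 0 0) : EndXˣ) : EndX) x = x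
    rw [eH_val (EE_FS 0 0), ee_apply (by decide), EE_apply, hx 0 0 (by simp), Pi.single_zero,
      Pi.single_zero, add_zero]
  mem := by
    refine Eventually.of_forall fun n => ?_
    show (eH 2 0 (EE 0 0) : EndXˣ) ∈ BB n
    rw [eH_val (EE_FS 0 0)]
    exact ee_mem_BB (EE_supp (by simp) (by simp)) 2 0

end LocData

/-- All elements of `G` have locality data. -/
theorem GG_loc {U : Ultrafilter ℕ} (hU : (U : Filter ℕ) ≤ cofinite)
    {x : (U : Filter ℕ).Germ HH} (hx : x ∈ GG U) :
    ∃ g : ℕ → HH, (g : (U : Filter ℕ).Germ HH) = x ∧ Nonempty (LocData U g) := by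
  refine Subgroup.closure_induction (p := fun x _ => ∃ g : ℕ → HH,
    (g : (U : Filter ℕ).Germ HH) = x ∧ Nonempty (LocData U g)) ?_ ?_ ?_ ?_ hx
  · rintro _ ⟨i, rfl⟩
    fin_cases i
    · refine ⟨_, rfl, ⟨LocData.elem 0 1 (by decide) (fun _ => id) (fun n k => Iff.rfl)
        (fun n k => rfl) (fun n k r _ hk => hk.trans (by omega))⟩⟩
    · refine ⟨_, rfl, ⟨LocData.elem 1 2 (by decide) (fun _ => id) (fun n k => Iff.rfl)
        (fun n k => rfl) (fun n k r _ hk => hk.trans (by omega))⟩⟩
    · refine ⟨_, rfl, ⟨LocData.elem 2 0 (by decide) (fun n => (rot n).symm) abs_rot_symm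
        (fun n k => rfl) (fun n k r hr hk => ?_)⟩⟩
      rw [rot_symm_of_lt (lt_of_le_of_lt hk (by omega))]
      rw [abs_le] at hk ⊢
      omega
    · refine ⟨_, rfl, ⟨LocData.elem 2 0 (by decide) (fun n => rot n) abs_rot
        (fun n k => by rw [Equiv.symm_apply_apply, Equiv.apply_symm_apply])
        (fun n k r hr hk => ?_)⟩⟩
      rw [rot_of_lt (lt_of_le_of_lt hk (by omega))]
      rw [abs_le] at hk ⊢
      omega
    · exact ⟨_, rfl, ⟨LocData.defect⟩⟩
  · exact ⟨fun _ => 1, rfl, ⟨LocData.one U⟩⟩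
  · rintro x y _ _ ⟨g, rfl, ⟨a⟩⟩ ⟨h, rfl, ⟨b⟩⟩
    exact ⟨g * h, rfl, ⟨a.mul hU b⟩⟩
  · rintro x _ ⟨g, rfl, ⟨a⟩⟩
    exact ⟨g⁻¹, rfl, ⟨a.inv hU⟩⟩

theorem cube_eq_one (c : F17) (h : c ^ 3 = 1) : c = 1 := by
  revert c; decide

theorem eq_one_of_loc {U : Ultrafilter ℕ} (hU : (U : Filter ℕ) ≤ cofinite) {g : ℕ → HH}
    (a : LocData U g)
    (hfin : (Set.range fun h : HH => cst U h * (g : (U : Filter ℕ).Germ HH) * (cst U h)⁻¹).Finite) :
    (g : (U : Filter ℕ).Germ HH) = 1 := by
  have h1 : ∀ᶠ n : ℕ in (U : Filter ℕ), a.L + 1 < n := by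
    have : ∀ᶠ n : ℕ in cofinite, a.L + 1 < n := by
      rw [Nat.cofinite_eq_atTop]; exact eventually_gt_atTop _
    exact this.filter_mono hU
  have e1 : (1 : (U : Filter ℕ).Germ HH) = ((fun _ => 1 : ℕ → HH) : (U : Filter ℕ).Germ HH) := rfl
  rw [e1, Germ.coe_eq]
  filter_upwards [h1, a.loc, a.mem, eigen_window hfin (a.L + 1)] with n hn hloc hmem hc
  obtain ⟨c, hc⟩ := hc
  -- `g0` is the scalar `c` on the window
  have hbase : ∀ i, (a.g0 n : EndX) (dl i ((a.L + 1 : ℕ) : ℤ)) = c • dl i ((a.L + 1 : ℕ) : ℤ) := by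
    intro i
    rw [← hloc, hc i _ (by rw [Nat.abs_cast])]
    intro i' k hk
    rw [dl_apply, if_neg]
    rintro ⟨-, rfl⟩
    rw [Nat.abs_cast] at hk
    push_cast at hk
    omega
  have hstep : ∀ i k, (a.g0 n : EndX) (dl i k) = c • dl i k →
      (a.g0 n : EndX) (dl i (rot n k)) = c • dl i (rot n k) := by
    intro i k hk
    rw [← rotX_dl, a.comm, hk]
    rfl
  have hup : ∀ (i : Fin 3) (k m : ℤ), (a.g0 n : EndX) (dl i k) = c • dl i k → -(n : ℤ) ≤ k →
      k ≤ m → m ≤ n → (a.g0 n : EndX) (dl i m) = c • dl i m := by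
    intro i k m hk hkn hkm hmn
    revert hmn
    induction m, hkm using Int.le_induction with
    | base => intro _; exact hk
    | succ m hkm ih =>
      intro hmn
      have h2 := hstep i m (ih (by omega))
      rwa [rot_apply, if_pos ⟨by omega, by omega⟩] at h2
  have hall : ∀ (i : Fin 3) (k : ℤ), |k| ≤ n → (a.g0 n : EndX) (dl i k) = c • dl i k := by
    intro i k hk
    have h2 := hup i _ n (hbase i) (by omega) (by push_cast; omega) le_rfl
    have h3 := hstep i n h2
    rw [rot_apply, if_neg (by omega), if_pos rfl] at h3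
    rw [abs_le] at hk
    exact hup i _ k h3 le_rfl hk.1 hk.2
  -- the scalar is trivial
  have hS : ∀ i j, (a.S : Matrix (Fin 3) (Fin 3) F17) i j = if i = j then c else 0 := by
    intro i j
    have h2 : (a.g0 n : EndX) (indX j n) = c • indX j n := by
      rw [indX_eq_sum, map_sum, Finset.smul_sum]
      exact Finset.sum_congr rfl fun k hk => hall j k (mem_win.1 hk)
    rw [a.ind] at h2
    have h3 := congrFun (congrFun h2 i) 0
    simp only [Finset.sum_apply, Pi.smul_apply, indX_apply, smul_eq_mul] at h3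
    simpa using h3
  have hc1 : c = 1 := by
    apply cube_eq_one
    have hdet := a.S.2
    rw [Matrix.det_fin_three] at hdet
    simp only [hS] at hdet
    simp at hdet
    rw [← hdet]
    ring
  refine Subtype.ext ?_
  refine BB_eq_one hmem fun i k hk => ?_
  by_cases hkL : |k| ≤ a.L
  · have := hc i k (hkL.trans (by push_cast; omega))
    rw [hc1, one_smul] at this
    exact this
  · have h4 : hv (g n) (dl i k) = (a.g0 n : EndX) (dl i k) := by
      refine hloc _ fun i' k' hk' => ?_
      rw [dl_apply, if_neg]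
      rintro ⟨-, rfl⟩
      exact hkL hk'
    show hv (g n) (dl i k) = dl i k
    rw [h4, hall i k hk, hc1, one_smul]

/-- `G` is ICC; more precisely the conjugates of a nontrivial element of `G` by elements of `H`
form an infinite set. -/
theorem GG_relICC {U : Ultrafilter ℕ} (hU : (U : Filter ℕ) ≤ cofinite) {x : GG U}
    (hx : x ≠ 1) : (Set.range fun h : HH => diagG hU h * x * (diagG hU h)⁻¹).Infinite := by
  intro hfin
  apply hx
  obtain ⟨g, hg, ⟨a⟩⟩ := GG_loc hU x.2
  have h1 : (g : (U : Filter ℕ).Germ HH) = 1 := by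
    refine eq_one_of_loc hU a ((hfin.image Subtype.val).subset ?_)
    rintro _ ⟨h, rfl⟩
    refine ⟨_, ⟨h, rfl⟩, ?_⟩
    rw [hg]
    rfl
  exact Subtype.ext (hg.symm.trans h1)

theorem GG_icc {U : Ultrafilter ℕ} (hU : (U : Filter ℕ) ≤ cofinite) : IsICCGroup (GG U) := by
  intro x hx hfin
  refine GG_relICC hU hx (hfin.subset ?_)
  rintro _ ⟨h, rfl⟩
  exact isConj_iff.2 ⟨_, rfl⟩

end Pool.Agent.ExT
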