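import Pool.Agent.ExT.LG

/-!
# `L(S)` has the Haagerup property if `S` is locally finite
-/

noncomputable section

namespace Pool.Agent.ExT

open scoped ENNReal InnerProductSpace ComplexOrder Topology
open Filter
open Pool.Agent.InnerAm (ell2 leftReg rightReg delta normSq_ell2 rightReg_apply leftReg_apply
  delta_apply rightReg_delta leftReg_delta norm_delta star_leftReg leftReg_rightReg_comm
  leftReg_mul_inv inner_leftReg)

universe u v

variable {G : Type u} [Group G]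

/-- The Fourier coefficient `x̂(g) = ⟨δ_g, x δ_1⟩`. -/
def coef (x : ell2 G →L[ℂ] ell2 G) (g : G) : ℂ := ⟪(delta g : ell2 G), x (delta (1 : G))⟫_ℂ

theorem coef_eq (x : ell2 G →L[ℂ] ell2 G) (g : G) : coef x g = (x (delta (1 : G)) : G → ℂ) g :=
  inner_delta_left _ _

theorem leftReg_delta' (g k : G) :
    (leftReg g : ell2 G →L[ℂ] ell2 G) (delta k) = delta (g * k) := by
  ext h
  rw [leftReg_apply, delta_apply, delta_apply]
  by_cases hh : h = g * k
  · rw [if_pos hh, if_pos (by rw [hh]; group)]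
  · rw [if_neg hh, if_neg (fun h' => hh (by rw [← h']; group))]

open Classical in
theorem coef_leftReg (g h : G) : coef (leftReg g) h = if h = g then 1 else 0 := by
  rw [coef_eq, leftReg_delta, delta_apply]

open Classical in
theorem coef_one (h : G) : coef (1 : ell2 G →L[ℂ] ell2 G) h = if h = 1 then 1 else 0 := by
  rw [coef_eq]
  show (delta (1 : G) : G → ℂ) h = _
  rw [delta_apply]

/-- `⟨δ_h, x δ_k⟩ = x̂(h k⁻¹)`. -/
theorem inner_delta_apply {x : ell2 G →L[ℂ] ell2 G} (hx : x ∈ LGvn G) (h k : G) :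
    ⟪(delta h : ell2 G), x (delta k)⟫_ℂ = coef x (h * k⁻¹) := by
  rw [inner_delta_left, apply_delta hx, coef_eq]

variable {S : Subgroup G} (K : Subgroup G) [Fintype K]

/-- The operator of the conditional expectation onto `ℂ[K]`. -/
def expOp (x : ell2 G →L[ℂ] ell2 G) : ell2 G →L[ℂ] ell2 G :=
  ∑ h : K, coef x h • leftReg (h : G)

theorem inner_expOp (x : ell2 G →L[ℂ] ell2 G) (ξ η : ell2 G) :
    ⟪ξ, expOp K x η⟫_ℂ = ∑ h : K, coef x h * ⟪ξ, (leftReg (h : G) : ell2 G →L[ℂ] ell2 G) η⟫_ℂ := by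
  rw [expOp, sum_apply, inner_sum]
  refine Finset.sum_congr rfl fun h _ => ?_
  rw [smul_apply, inner_smul_right]

theorem inner_leftReg_mul_inv (h k : G) (ξ η : ell2 G) :
    ⟪ξ, (leftReg (h * k⁻¹) : ell2 G →L[ℂ] ell2 G) η⟫_ℂ =
      ⟪(leftReg h⁻¹ : ell2 G →L[ℂ] ell2 G) ξ, (leftReg k⁻¹ : ell2 G →L[ℂ] ell2 G) η⟫_ℂ := by
  conv_lhs => rw [← leftReg_mul_inv h ξ]
  rw [← inner_leftReg h⁻¹ (leftReg h (leftReg h⁻¹ ξ))]
  have e1 : leftReg h⁻¹ (leftReg h (leftReg h⁻¹ ξ)) = leftReg h⁻¹ ξ := by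
    rw [leftReg_mul_inv]
  rw [e1]
  congr 1
  ext g
  rw [leftReg_apply, leftReg_apply, leftReg_apply]
  group

theorem hasSum_inner_leftReg (h k : G) (ξ η : ell2 G) :
    HasSum (fun g : G => (starRingEnd ℂ) ((ξ : G → ℂ) (h * g)) * (η : G → ℂ) (k * g))
      ⟪ξ, (leftReg (h * k⁻¹) : ell2 G →L[ℂ] ell2 G) η⟫_ℂ := by
  rw [inner_leftReg_mul_inv]
  have := lp.hasSum_inner (𝕜 := ℂ) ((leftReg h⁻¹ : ell2 G →L[ℂ] ell2 G) ξ)
    ((leftReg k⁻¹ : ell2 G →L[ℂ] ell2 G) η)
  refine HasSum.congr_fun this fun g => ?_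
  rw [leftReg_apply, leftReg_apply, inv_inv, inv_inv, RCLike.inner_apply, mul_comm]

theorem card_mul_inner_expOp {x : ell2 G →L[ℂ] ell2 G} (hx : x ∈ LGvn G) (ξ η : ell2 G) :
    HasSum (fun g : G => ∑ h : K, ∑ k : K,
      ⟪(delta (h : G) : ell2 G), x (delta (k : G))⟫_ℂ *
        ((starRingEnd ℂ) ((ξ : G → ℂ) (h * g)) * (η : G → ℂ) (k * g)))
      ((Fintype.card K : ℂ) * ⟪ξ, expOp K x η⟫_ℂ) := by
  have h1 : HasSum (fun g : G => ∑ h : K, ∑ k : K,
      ⟪(delta (h : G) : ell2 G), x (delta (k : G))⟫_ℂ *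
        ((starRingEnd ℂ) ((ξ : G → ℂ) (h * g)) * (η : G → ℂ) (k * g)))
      (∑ h : K, ∑ k : K, ⟪(delta (h : G) : ell2 G), x (delta (k : G))⟫_ℂ *
        ⟪ξ, (leftReg ((h : G) * (k : G)⁻¹) : ell2 G →L[ℂ] ell2 G) η⟫_ℂ) := by
    refine hasSum_sum fun h _ => hasSum_sum fun k _ => ?_
    exact (hasSum_inner_leftReg (h : G) (k : G) ξ η).mul_left _
  convert h1 using 1
  rw [inner_expOp, Finset.sum_comm]
  have h2 : ∀ k : K, ∑ h : K, ⟪(delta (h : G) : ell2 G), x (delta (k : G))⟫_ℂ *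
        ⟪ξ, (leftReg ((h : G) * (k : G)⁻¹) : ell2 G →L[ℂ] ell2 G) η⟫_ℂ =
      ∑ h : K, coef x h * ⟪ξ, (leftReg (h : G) : ell2 G →L[ℂ] ell2 G) η⟫_ℂ := by
    intro k
    rw [← Equiv.sum_comp (Equiv.mulRight k⁻¹)
      (fun h : K => coef x h * ⟪ξ, (leftReg (h : G) : ell2 G →L[ℂ] ell2 G) η⟫_ℂ)]
    refine Finset.sum_congr rfl fun h _ => ?_
    rw [inner_delta_apply hx]
    rfl
  rw [Finset.sum_congr rfl fun k _ => h2 k, Finset.sum_const, nsmul_eq_mul, Finset.card_univ]

theorem expOp_cp (n : ℕ) (x : Fin n → ell2 G →L[ℂ] ell2 G) (hx : ∀ i, x i ∈ LGvn G)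
    (ξ : Fin n → ell2 G) :
    0 ≤ ∑ i, ∑ j, ⟪ξ i, expOp K (star (x i) * x j) (ξ j)⟫_ℂ := by
  have hs : HasSum (fun g : G => ∑ i, ∑ j, ∑ h : K, ∑ k : K,
      ⟪(delta (h : G) : ell2 G), (star (x i) * x j) (delta (k : G))⟫_ℂ *
        ((starRingEnd ℂ) ((ξ i : G → ℂ) (h * g)) * (ξ j : G → ℂ) (k * g)))
      (∑ i, ∑ j, (Fintype.card K : ℂ) * ⟪ξ i, expOp K (star (x i) * x j) (ξ j)⟫_ℂ) := by
    refine hasSum_sum fun i _ => hasSum_sum fun j _ => ?_
    exact card_mul_inner_expOp K (mul_mem (star_mem (hx i)) (hx j)) _ _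
  have hpos : ∀ g : G, 0 ≤ ∑ i, ∑ j, ∑ h : K, ∑ k : K,
      ⟪(delta (h : G) : ell2 G), (star (x i) * x j) (delta (k : G))⟫_ℂ *
        ((starRingEnd ℂ) ((ξ i : G → ℂ) (h * g)) * (ξ j : G → ℂ) (k * g)) := by
    intro g
    have e : ∑ i, ∑ j, ∑ h : K, ∑ k : K,
      ⟪(delta (h : G) : ell2 G), (star (x i) * x j) (delta (k : G))⟫_ℂ *
        ((starRingEnd ℂ) ((ξ i : G → ℂ) (h * g)) * (ξ j : G → ℂ) (k * g)) =
        ⟪∑ i, ∑ h : K, ((ξ i : G → ℂ) (h * g)) • x i (delta (h : G)),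
          ∑ j, ∑ k : K, ((ξ j : G → ℂ) (k * g)) • x j (delta (k : G))⟫_ℂ := by
      rw [sum_inner]
      refine Finset.sum_congr rfl fun i _ => ?_
      rw [inner_sum]
      refine Finset.sum_congr rfl fun j _ => ?_
      rw [sum_inner]
      refine Finset.sum_congr rfl fun h _ => ?_
      rw [inner_sum]
      refine Finset.sum_congr rfl fun k _ => ?_
      rw [inner_smul_left, inner_smul_right, mul_apply_eq_comp,
        ContinuousLinearMap.star_eq_adjoint, ContinuousLinearMap.adjoint_inner_right]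
      ring
    rw [e, inner_self_eq_norm_sq_to_K]
    positivity
  have h0 : (0 : ℂ) ≤ ∑ i, ∑ j, (Fintype.card K : ℂ) *
      ⟪ξ i, expOp K (star (x i) * x j) (ξ j)⟫_ℂ := hs.nonneg hpos
  have hc : (0 : ℂ) < (Fintype.card K : ℂ) := by
    have : 0 < Fintype.card K := Fintype.card_pos
    exact_mod_cast this
  have e1 : ∑ i, ∑ j, ⟪ξ i, expOp K (star (x i) * x j) (ξ j)⟫_ℂ =
      (Fintype.card K : ℂ)⁻¹ * ∑ i, ∑ j, (Fintype.card K : ℂ) *
      ⟪ξ i, expOp K (star (x i) * x j) (ξ j)⟫_ℂ := by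
    simp_rw [← Finset.mul_sum]
    rw [← mul_assoc, inv_mul_cancel₀ hc.ne', one_mul]
  rw [e1]
  exact mul_nonneg (inv_nonneg.2 hc.le) h0

theorem expOp_delta_one (x : ell2 G →L[ℂ] ell2 G) :
    expOp K x (delta (1 : G)) = mulInd (K : Set G) (x (delta (1 : G))) := by
  classical
  ext g
  rw [mulInd_apply, expOp, sum_apply]
  have e : (∑ h : K, (coef x h • leftReg (h : G) : ell2 G →L[ℂ] ell2 G) (delta (1 : G)) : ell2 G) =
      ∑ h : K, coef x h • delta (h : G) := by
    refine Finset.sum_congr rfl fun h _ => ?_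
    rw [smul_apply, leftReg_delta]
  rw [e, lp.coeFn_sum, Finset.sum_apply]
  have e2 : ∀ h : K, ((coef x h • delta (h : G) : ell2 G) : G → ℂ) g =
      if g = (h : G) then coef x g else 0 := by
    intro h
    show coef x h * (delta (h : G) : G → ℂ) g = _
    rw [delta_apply]
    split_ifs with hh
    · rw [mul_one, hh]
    · rw [mul_zero]
  simp only [e2]
  by_cases hg : g ∈ (K : Set G)
  · rw [if_pos hg, Finset.sum_eq_single (⟨g, hg⟩ : K)]
    · rw [if_pos rfl, coef_eq]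
    · intro b _ hb
      exact if_neg fun h => hb (Subtype.ext h.symm)
    · intro h
      exact absurd (Finset.mem_univ _) h
  · rw [if_neg hg]
    refine Finset.sum_eq_zero fun h _ => if_neg fun h' => hg ?_
    rw [h']
    exact h.2

theorem expOp_mem (hK : K ≤ S) (x : ell2 G →L[ℂ] ell2 G) : expOp K x ∈ LSvn S :=
  sum_mem fun h _ => (LSvn S).toStarSubalgebra.smul_mem (leftReg_mem_LS (hK h.2)) _

theorem expOp_add (x y : ell2 G →L[ℂ] ell2 G) : expOp K (x + y) = expOp K x + expOp K y := by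
  simp only [expOp, coef, add_apply, inner_add_right, add_smul, Finset.sum_add_distrib]

theorem expOp_smul (c : ℂ) (x : ell2 G →L[ℂ] ell2 G) : expOp K (c • x) = c • expOp K x := by
  simp only [expOp, coef, smul_apply, inner_smul_right, mul_smul, Finset.smul_sum]

theorem expOp_one : expOp K (1 : ell2 G →L[ℂ] ell2 G) = 1 := by
  refine eq_of_delta_one (LSvn_le K (expOp_mem K le_rfl _)) (one_mem _) ?_
  rw [expOp_delta_one]
  ext g
  rw [mulInd_apply]
  classical
  show (if g ∈ (K : Set G) then (delta (1 : G) : G → ℂ) g else 0) = (delta (1 : G) : G → ℂ) g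
  rw [delta_apply]
  by_cases hg : g = 1
  · subst hg; simp [one_mem]
  · simp [hg]

theorem inner_expOp_one (x : ell2 G →L[ℂ] ell2 G) :
    ⟪(delta (1 : G) : ell2 G), expOp K x (delta (1 : G))⟫_ℂ =
      ⟪(delta (1 : G) : ell2 G), x (delta (1 : G))⟫_ℂ := by
  rw [expOp_delta_one, inner_delta_left, inner_delta_left, mulInd_apply, if_pos]
  exact one_mem K

theorem norm_coef_le (x : ell2 G →L[ℂ] ell2 G) (g : G) : ‖coef x g‖ ≤ ‖x (delta (1 : G))‖ := by
  refine (norm_inner_le_norm _ _).trans ?_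
  rw [norm_delta, one_mul]

theorem expOp_tendsto (x : ℕ → ell2 G →L[ℂ] ell2 G)
    (hx : Tendsto (fun n => ‖x n (delta (1 : G))‖) atTop (𝓝 0)) (ξ : ell2 G) :
    Tendsto (fun n => expOp K (x n) ξ) atTop (𝓝 0) := by
  have h1 : ∀ h : K, Tendsto (fun n => coef (x n) (h : G)) atTop (𝓝 0) := by
    intro h
    exact squeeze_zero_norm (fun n => norm_coef_le _ _) hx
  have h2 : Tendsto (fun n => ∑ h : K, coef (x n) (h : G) •
      (leftReg (h : G) : ell2 G →L[ℂ] ell2 G) ξ) atTop (𝓝 (∑ h : K, (0 : ℂ) •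
      (leftReg (h : G) : ell2 G →L[ℂ] ell2 G) ξ)) :=
    tendsto_finsetSum _ fun h _ => (h1 h).smul_const _
  simp only [zero_smul, Finset.sum_const_zero] at h2
  refine h2.congr fun n => ?_
  rw [expOp, sum_apply]
  rfl

theorem exists_compact : ∃ T : ell2 G →L[ℂ] ell2 G, IsCompactOperator T ∧
    ∀ x : ell2 G →L[ℂ] ell2 G, T (x (delta (1 : G))) = expOp K x (delta (1 : G)) := by
  refine ⟨∑ h : K, (innerSL ℂ (delta (h : G) : ell2 G)).smulRight (delta (h : G) : ell2 G),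
    ?_, ?_⟩
  · have : ∀ s : Finset K, IsCompactOperator (∑ h ∈ s,
        (innerSL ℂ (delta (h : G) : ell2 G)).smulRight (delta (h : G) : ell2 G) :
          ell2 G →L[ℂ] ell2 G) := by
      classical
      intro s
      induction s using Finset.induction_on with
      | empty => exact isCompactOperator_zero
      | insert a s ha ih =>
        rw [Finset.sum_insert ha]
        have h1 : IsCompactOperator
            ((innerSL ℂ (delta (a : G) : ell2 G)).smulRight (delta (a : G) : ell2 G) :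
              ell2 G →L[ℂ] ell2 G) := by
          have h2 : IsCompactOperator (innerSL ℂ (delta (a : G) : ell2 G)) :=
            isCompactOperator_of_locallyCompactSpace_dom _
          exact h2.clm_comp (ContinuousLinearMap.toSpanSingleton ℂ (delta (a : G) : ell2 G))
        exact h1.add ih
    exact this Finset.univ
  · intro x
    rw [sum_apply, expOp, sum_apply]
    refine Finset.sum_congr rfl fun h _ => ?_
    rw [smul_apply, leftReg_delta]
    rfl

/-- The conditional expectation onto `ℂ[K]`. -/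
def expMap (hK : K ≤ S) : (LS S).A →ₗ[ℂ] (LS S).A where
  toFun x := ⟨expOp K x.1, expOp_mem K hK _⟩
  map_add' x y := Subtype.ext (expOp_add K x.1 y.1)
  map_smul' c x := Subtype.ext (expOp_smul K c x.1)

theorem expMap_haagerup (hK : K ≤ S) : (LS S).IsHaagerupMap (expMap K hK) where
  unital := Subtype.ext (expOp_one K)
  trace x := inner_expOp_one K x.1
  cp n x ξ := expOp_cp K n (fun i => (x i).1) (fun i => LSvn_le S (x i).2) ξ
  normal x _ hx ξ := expOp_tendsto K (fun n => (x n).1) hx ξ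
  compact := by
    obtain ⟨T, hT, h⟩ := exists_compact K
    exact ⟨T, hT, fun x => h x.1⟩

theorem norm_expOp_sub_le (x : ell2 G →L[ℂ] ell2 G) (s : Finset G)
    (hs : ∀ g ∈ s, g ∉ K → (x (delta (1 : G)) : G → ℂ) g = 0) :
    ‖(expOp K x - x) (delta (1 : G))‖ ≤
      ‖∑ g ∈ s, (x (delta (1 : G)) : G → ℂ) g • delta g - x (delta (1 : G))‖ := by
  classical
  rw [sub_apply, expOp_delta_one]
  refine norm_le_of_sq fun g => ?_
  show ‖(mulInd (K : Set G) (x (delta (1 : G))) : G → ℂ) g - (x (delta (1 : G)) : G → ℂ) g‖ ≤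
    ‖((∑ g ∈ s, (x (delta (1 : G)) : G → ℂ) g • delta g : ell2 G) : G → ℂ) g -
      (x (delta (1 : G)) : G → ℂ) g‖
  rw [mulInd_apply]
  by_cases hg : g ∈ (K : Set G)
  · rw [if_pos hg, sub_self, norm_zero]
    exact norm_nonneg _
  · rw [if_neg hg, lp.coeFn_sum, Finset.sum_apply]
    have e2 : ∀ h : G, (((x (delta (1 : G)) : G → ℂ) h • delta h : ell2 G) : G → ℂ) g =
        if h = g then (x (delta (1 : G)) : G → ℂ) g else 0 := by
      intro h
      show (x (delta (1 : G)) : G → ℂ) h * (delta h : G → ℂ) g = _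
      rw [delta_apply]
      by_cases hh : h = g
      · subst hh; simp
      · rw [if_neg hh, if_neg (fun h' => hh h'.symm), mul_zero]
    simp only [e2]
    rw [Finset.sum_ite_eq' s g]
    by_cases hgs : g ∈ s
    · rw [hs g hgs hg]
      simp
    · rw [if_neg hgs]

theorem LS_haagerup (S : Subgroup G) (hS : IsLocallyFiniteGroup S) :
    (LS S).HasHaagerupProperty := by
  classical
  intro F ε hε
  have hF : ∀ x : ell2 G →L[ℂ] ell2 G, ∃ s : Finset G,
      ‖∑ g ∈ s, (x (delta (1 : G)) : G → ℂ) g • delta g - x (delta (1 : G))‖ < ε := by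
    intro x
    obtain ⟨s, hs⟩ := ((Metric.tendsto_nhds.1 (hasSum_delta (x (delta (1 : G))))) ε hε).exists
    exact ⟨s, by rwa [dist_eq_norm] at hs⟩
  choose s hs using hF
  let T : Finset S := (F.biUnion fun x => s x.1).subtype (· ∈ S)
  let K : Subgroup G := (Subgroup.closure (T : Set S)).map S.subtype
  have hfin : Finite K := by
    have := hS T
    exact Finite.of_surjective _ ((Subgroup.closure (T : Set S)).equivMapOfInjective S.subtype
      S.subtype_injective).surjective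
  have hK : K ≤ S := Subgroup.map_subtype_le _
  let _ : Fintype K := Fintype.ofFinite K
  refine ⟨expMap K hK, expMap_haagerup K hK, fun x hx => ?_⟩
  refine lt_of_le_of_lt (norm_expOp_sub_le K x.1 (s x.1) fun g hg hgK => ?_) (hs x.1)
  refine LS_apply_eq_zero x.2 fun hgS => hgK ?_
  have h1 : (⟨g, hgS⟩ : S) ∈ T := by
    rw [Finset.mem_subtype, Finset.mem_biUnion]
    exact ⟨x, hx, hg⟩
  exact ⟨⟨g, hgS⟩, Subgroup.subset_closure h1, rfl⟩

end Pool.Agent.ExT
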