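import Pool.Agent.ExT.Ind
import Pool.Agent.ExT.Haag
import Pool.Agent.ExT.Bimod

/-!
# Existential embeddings `L(S) ≤ L(G)` from asymptotic retractions `G → S`
-/

noncomputable section

namespace Pool.Agent.ExT

open scoped ENNReal InnerProductSpace ComplexOrder Topology
open Filter
open Pool.Agent.InnerAm (ell2 leftReg rightReg delta normSq_ell2 rightReg_apply leftReg_apply
  delta_apply rightReg_delta leftReg_delta norm_delta star_leftReg leftReg_rightReg_comm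
  leftReg_mul_inv inner_leftReg)

universe u v

variable {G : Type u} [Group G]

/-- Bounded operators on `ell2 G`. -/
abbrev Op (G : Type u) : Type u := ell2 G →L[ℂ] ell2 G

/-- A sequence of maps `φ n : G → S` that is asymptotically (along `U`) a homomorphism, injective,
and the identity on `S`. -/
structure AsympMaps (U : Ultrafilter ℕ) (S : Subgroup G) (φ : ℕ → G → G) : Prop where
  mem : ∀ n g, φ n g ∈ S
  mul : ∀ g h, ∀ᶠ n in (U : Filter ℕ), φ n (g * h) = φ n g * φ n h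
  inj : ∀ g, g ≠ 1 → ∀ᶠ n in (U : Filter ℕ), φ n g ≠ 1
  fix : ∀ g ∈ S, ∀ᶠ n in (U : Filter ℕ), φ n g = g

namespace AsympMaps

variable {U : Ultrafilter ℕ} {S : Subgroup G} {φ : ℕ → G → G} (h : AsympMaps U S φ)

include h

theorem one : ∀ᶠ n in (U : Filter ℕ), φ n 1 = 1 := by
  filter_upwards [h.mul 1 1] with n hn
  rw [mul_one] at hn
  exact (left_eq_mul.1 hn)

theorem inv (g : G) : ∀ᶠ n in (U : Filter ℕ), φ n g⁻¹ = (φ n g)⁻¹ := by
  filter_upwards [h.mul g⁻¹ g, h.one] with n hn h1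
  rw [inv_mul_cancel, h1] at hn
  exact eq_inv_of_mul_eq_one_left hn.symm

theorem ne {g k : G} (hgk : g ≠ k) : ∀ᶠ n in (U : Filter ℕ), φ n g ≠ φ n k := by
  have h1 : g * k⁻¹ ≠ 1 := fun h => hgk (mul_inv_eq_one.1 h)
  filter_upwards [h.mul g k⁻¹, h.inv k, h.inj _ h1] with n hn h2 h3 h4
  rw [h2, h4, mul_inv_cancel] at hn
  exact h3 hn

end AsympMaps

/-- The space of the pairs `(∑ c_g λ_g, (∑ c_g λ_{φ_n(g)})_n)`. -/
def DD (φ : ℕ → G → G) : Submodule ℂ (Op G × (ℕ → Op G)) :=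
  Submodule.span ℂ (Set.range fun g : G => ((leftReg g : Op G), fun n => (leftReg (φ n g) : Op G)))

section

variable {U : Ultrafilter ℕ} {S : Subgroup G} {φ : ℕ → G → G}

theorem DD_mem1 {p : Op G × (ℕ → Op G)} (hp : p ∈ DD φ) : p.1 ∈ LGvn G := by
  refine Submodule.span_induction (p := fun (x : Op G × (ℕ → Op G)) _ => x.1 ∈ LGvn G) ?_ ?_ ?_ ?_ hp
  · rintro _ ⟨g, rfl⟩
    exact leftReg_mem_LG g
  · exact zero_mem _
  · intro x y _ _ hx hy
    exact add_mem hx hy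
  · intro c x _ hx
    exact (LGvn G).toStarSubalgebra.smul_mem hx c

theorem DD_mem2 (h : AsympMaps U S φ) {p : Op G × (ℕ → Op G)} (hp : p ∈ DD φ) (n : ℕ) :
    p.2 n ∈ LSvn S := by
  refine Submodule.span_induction (p := fun (x : Op G × (ℕ → Op G)) _ => x.2 n ∈ LSvn S) ?_ ?_ ?_ ?_ hp
  · rintro _ ⟨g, rfl⟩
    exact leftReg_mem_LS (h.mem n g)
  · exact zero_mem _
  · intro x y _ _ hx hy
    exact add_mem hx hy
  · intro c x _ hx
    exact (LSvn S).toStarSubalgebra.smul_mem hx c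

theorem norm_leftReg_le (g : G) : ‖(leftReg g : Op G)‖ ≤ 1 := by
  refine ContinuousLinearMap.opNorm_le_bound _ zero_le_one fun ξ => ?_
  rw [one_mul]
  exact ((Pool.Agent.InnerAm.compEquiv (Equiv.mulLeft g⁻¹)).norm_map ξ).le

theorem DD_bdd {p : Op G × (ℕ → Op G)} (hp : p ∈ DD φ) :
    ∃ C : ℝ, 0 ≤ C ∧ ‖p.1‖ ≤ C ∧ ∀ n, ‖p.2 n‖ ≤ C := by
  refine Submodule.span_induction
    (p := fun (x : Op G × (ℕ → Op G)) _ => ∃ C : ℝ, 0 ≤ C ∧ ‖x.1‖ ≤ C ∧ ∀ n, ‖x.2 n‖ ≤ C) ?_ ?_ ?_ ?_ hp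
  · rintro _ ⟨g, rfl⟩
    exact ⟨1, zero_le_one, norm_leftReg_le g, fun n => norm_leftReg_le _⟩
  · refine ⟨0, le_rfl, ?_, fun n => ?_⟩
    · simp
    · simp
  · rintro x y _ _ ⟨C, hC0, hC1, hC2⟩ ⟨D, hD0, hD1, hD2⟩
    refine ⟨C + D, by positivity, ?_, fun n => ?_⟩
    · exact (norm_add_le _ _).trans (add_le_add hC1 hD1)
    · exact (norm_add_le _ _).trans (add_le_add (hC2 n) (hD2 n))
  · rintro c x _ ⟨C, hC0, hC1, hC2⟩
    refine ⟨‖c‖ * C, by positivity, ?_, fun n => ?_⟩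
    · show ‖c • x.1‖ ≤ ‖c‖ * C
      rw [norm_smul]
      exact mul_le_mul_of_nonneg_left hC1 (norm_nonneg _)
    · show ‖c • x.2 n‖ ≤ ‖c‖ * C
      rw [norm_smul]
      exact mul_le_mul_of_nonneg_left (hC2 n) (norm_nonneg _)

theorem DD_mul (h : AsympMaps U S φ) {p q : Op G × (ℕ → Op G)} (hp : p ∈ DD φ) (hq : q ∈ DD φ) :
    ∃ r ∈ DD φ, r.1 = p.1 * q.1 ∧ ∀ᶠ n in (U : Filter ℕ), r.2 n = p.2 n * q.2 n := by
  refine Submodule.span_induction (p := fun (x : Op G × (ℕ → Op G)) _ => ∃ r ∈ DD φ, r.1 = x.1 * q.1 ∧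
    ∀ᶠ n in (U : Filter ℕ), r.2 n = x.2 n * q.2 n) ?_ ?_ ?_ ?_ hp
  · rintro _ ⟨g, rfl⟩
    refine Submodule.span_induction (p := fun (y : Op G × (ℕ → Op G)) _ => ∃ r ∈ DD φ, r.1 = leftReg g * y.1 ∧
      ∀ᶠ n in (U : Filter ℕ), r.2 n = leftReg (φ n g) * y.2 n) ?_ ?_ ?_ ?_ hq
    · rintro _ ⟨k, rfl⟩
      refine ⟨_, Submodule.subset_span ⟨g * k, rfl⟩, leftReg_mul g k, ?_⟩
      filter_upwards [h.mul g k] with n hn
      show leftReg (φ n (g * k)) = leftReg (φ n g) * leftReg (φ n k)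
      rw [hn, leftReg_mul]
    · refine ⟨0, zero_mem _, ?_, ?_⟩
      · simp
      · filter_upwards with n
        simp
    · rintro x y _ _ ⟨r, hr, h1, h2⟩ ⟨s, hs, h3, h4⟩
      refine ⟨r + s, add_mem hr hs, ?_, ?_⟩
      · show r.1 + s.1 = leftReg g * (x.1 + y.1)
        rw [h1, h3, mul_add]
      · filter_upwards [h2, h4] with n hn1 hn2
        show r.2 n + s.2 n = leftReg (φ n g) * (x.2 n + y.2 n)
        rw [hn1, hn2, mul_add]
    · rintro c x _ ⟨r, hr, h1, h2⟩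
      refine ⟨c • r, Submodule.smul_mem _ _ hr, ?_, ?_⟩
      · show c • r.1 = leftReg g * (c • x.1)
        rw [h1, mul_smul_comm]
      · filter_upwards [h2] with n hn1
        show c • r.2 n = leftReg (φ n g) * (c • x.2 n)
        rw [hn1, mul_smul_comm]
  · refine ⟨0, zero_mem _, ?_, ?_⟩
    · simp
    · filter_upwards with n
      simp
  · rintro x y _ _ ⟨r, hr, h1, h2⟩ ⟨s, hs, h3, h4⟩
    refine ⟨r + s, add_mem hr hs, ?_, ?_⟩
    · show r.1 + s.1 = (x.1 + y.1) * q.1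
      rw [h1, h3, add_mul]
    · filter_upwards [h2, h4] with n hn1 hn2
      show r.2 n + s.2 n = (x.2 n + y.2 n) * q.2 n
      rw [hn1, hn2, add_mul]
  · rintro c x _ ⟨r, hr, h1, h2⟩
    refine ⟨c • r, Submodule.smul_mem _ _ hr, ?_, ?_⟩
    · show c • r.1 = (c • x.1) * q.1
      rw [h1, smul_mul_assoc]
    · filter_upwards [h2] with n hn1
      show c • r.2 n = (c • x.2 n) * q.2 n
      rw [hn1, smul_mul_assoc]

theorem DD_star (h : AsympMaps U S φ) {p : Op G × (ℕ → Op G)} (hp : p ∈ DD φ) :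
    ∃ r ∈ DD φ, r.1 = star p.1 ∧ ∀ᶠ n in (U : Filter ℕ), r.2 n = star (p.2 n) := by
  refine Submodule.span_induction (p := fun (x : Op G × (ℕ → Op G)) _ => ∃ r ∈ DD φ, r.1 = star x.1 ∧
    ∀ᶠ n in (U : Filter ℕ), r.2 n = star (x.2 n)) ?_ ?_ ?_ ?_ hp
  · rintro _ ⟨g, rfl⟩
    refine ⟨_, Submodule.subset_span ⟨g⁻¹, rfl⟩, (star_leftReg g).symm, ?_⟩
    filter_upwards [h.inv g] with n hn
    show leftReg (φ n g⁻¹) = star (leftReg (φ n g))
    rw [hn, star_leftReg]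
  · refine ⟨0, zero_mem _, ?_, ?_⟩
    · simp
    · filter_upwards with n
      simp
  · rintro x y _ _ ⟨r, hr, h1, h2⟩ ⟨s, hs, h3, h4⟩
    refine ⟨r + s, add_mem hr hs, ?_, ?_⟩
    · show r.1 + s.1 = star (x.1 + y.1)
      rw [h1, h3, star_add]
    · filter_upwards [h2, h4] with n hn1 hn2
      show r.2 n + s.2 n = star (x.2 n + y.2 n)
      rw [hn1, hn2, star_add]
  · rintro c x _ ⟨r, hr, h1, h2⟩
    refine ⟨star c • r, Submodule.smul_mem _ _ hr, ?_, ?_⟩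
    · show star c • r.1 = star (c • x.1)
      rw [h1, star_smul]
    · filter_upwards [h2] with n hn1
      show star c • r.2 n = star (c • x.2 n)
      rw [hn1, star_smul]

theorem DD_inner (h : AsympMaps U S φ) {p q : Op G × (ℕ → Op G)} (hp : p ∈ DD φ)
    (hq : q ∈ DD φ) : ∀ᶠ n in (U : Filter ℕ),
      ⟪p.2 n (delta (1 : G)), q.2 n (delta (1 : G))⟫_ℂ =
        ⟪p.1 (delta (1 : G)), q.1 (delta (1 : G))⟫_ℂ := by
  refine Submodule.span_induction (p := fun (x : Op G × (ℕ → Op G)) _ => ∀ᶠ n in (U : Filter ℕ),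
      ⟪x.2 n (delta (1 : G)), q.2 n (delta (1 : G))⟫_ℂ =
        ⟪x.1 (delta (1 : G)), q.1 (delta (1 : G))⟫_ℂ) ?_ ?_ ?_ ?_ hp
  · rintro _ ⟨g, rfl⟩
    refine Submodule.span_induction (p := fun (y : Op G × (ℕ → Op G)) _ => ∀ᶠ n in (U : Filter ℕ),
      ⟪leftReg (φ n g) (delta (1 : G)), y.2 n (delta (1 : G))⟫_ℂ =
        ⟪leftReg g (delta (1 : G)), y.1 (delta (1 : G))⟫_ℂ) ?_ ?_ ?_ ?_ hq
    · rintro _ ⟨k, rfl⟩
      by_cases hgk : g = k
      · subst hgk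
        filter_upwards with n
        rw [inner_leftReg, inner_leftReg]
      · filter_upwards [h.ne hgk] with n hn
        show ⟪leftReg (φ n g) (delta (1 : G)), leftReg (φ n k) (delta (1 : G))⟫_ℂ =
          ⟪leftReg g (delta (1 : G)), leftReg k (delta (1 : G))⟫_ℂ
        rw [leftReg_delta, leftReg_delta, leftReg_delta, leftReg_delta, inner_delta_left,
          inner_delta_left, delta_apply, delta_apply, if_neg hn, if_neg hgk]
    · filter_upwards with n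
      simp
    · intro x y _ _ h1 h2
      filter_upwards [h1, h2] with n hn1 hn2
      show ⟪leftReg (φ n g) (delta (1 : G)), (x.2 n + y.2 n) (delta (1 : G))⟫_ℂ =
          ⟪leftReg g (delta (1 : G)), (x.1 + y.1) (delta (1 : G))⟫_ℂ
      rw [add_apply, add_apply, inner_add_right, inner_add_right, hn1, hn2]
    · intro c x _ h1
      filter_upwards [h1] with n hn1
      show ⟪leftReg (φ n g) (delta (1 : G)), (c • x.2 n) (delta (1 : G))⟫_ℂ =
          ⟪leftReg g (delta (1 : G)), (c • x.1) (delta (1 : G))⟫_ℂ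
      rw [smul_apply, smul_apply, inner_smul_right, inner_smul_right, hn1]
  · filter_upwards with n
    simp
  · intro x y _ _ h1 h2
    filter_upwards [h1, h2] with n hn1 hn2
    show ⟪(x.2 n + y.2 n) (delta (1 : G)), q.2 n (delta (1 : G))⟫_ℂ =
        ⟪(x.1 + y.1) (delta (1 : G)), q.1 (delta (1 : G))⟫_ℂ
    rw [add_apply, add_apply, inner_add_left, inner_add_left, hn1, hn2]
  · intro c x _ h1
    filter_upwards [h1] with n hn1
    show ⟪(c • x.2 n) (delta (1 : G)), q.2 n (delta (1 : G))⟫_ℂ =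
        ⟪(c • x.1) (delta (1 : G)), q.1 (delta (1 : G))⟫_ℂ
    rw [smul_apply, smul_apply, inner_smul_left, inner_smul_left, hn1]

theorem DD_norm (h : AsympMaps U S φ) {p : Op G × (ℕ → Op G)} (hp : p ∈ DD φ) :
    ∀ᶠ n in (U : Filter ℕ), ‖p.2 n (delta (1 : G))‖ = ‖p.1 (delta (1 : G))‖ := by
  filter_upwards [DD_inner h hp hp] with n hn
  rw [inner_self_eq_norm_sq_to_K, inner_self_eq_norm_sq_to_K] at hn
  have h1 : ‖p.2 n (delta (1 : G))‖ ^ 2 = ‖p.1 (delta (1 : G))‖ ^ 2 := by exact_mod_cast hn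
  exact (pow_left_inj₀ (norm_nonneg _) (norm_nonneg _) two_ne_zero).1 h1

/-- `(1, (1)_n)` belongs to `DD` asymptotically. -/
theorem DD_one (h : AsympMaps U S φ) :
    ∃ r ∈ DD φ, r.1 = 1 ∧ ∀ᶠ n in (U : Filter ℕ), r.2 n = 1 := by
  refine ⟨_, Submodule.subset_span ⟨1, rfl⟩, leftReg_one, ?_⟩
  filter_upwards [h.one] with n hn
  show leftReg (φ n 1) = 1
  rw [hn, leftReg_one]

theorem DD_trace (h : AsympMaps U S φ) {p : Op G × (ℕ → Op G)} (hp : p ∈ DD φ) :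
    ∀ᶠ n in (U : Filter ℕ), ⟪(delta (1 : G) : ell2 G), p.2 n (delta (1 : G))⟫_ℂ =
      ⟪(delta (1 : G) : ell2 G), p.1 (delta (1 : G))⟫_ℂ := by
  obtain ⟨r, hr, h1, h2⟩ := DD_one h
  filter_upwards [DD_inner h hr hp, h2] with n hn hn2
  rw [h1, hn2] at hn
  exact hn

theorem DD_near (x : Op G) {ε : ℝ} (hε : 0 < ε) :
    ∃ s : Finset G, ‖(x - ∑ g ∈ s, coef x g • (leftReg g : Op G)) (delta (1 : G))‖ < ε := by
  obtain ⟨s, hs⟩ := ((Metric.tendsto_nhds.1 (hasSum_delta (x (delta (1 : G))))) ε hε).exists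
  refine ⟨s, ?_⟩
  rw [dist_eq_norm, norm_sub_rev] at hs
  rw [sub_apply, sum_apply]
  refine lt_of_le_of_lt (le_of_eq ?_) hs
  congr 2
  refine Finset.sum_congr rfl fun g _ => ?_
  rw [smul_apply, leftReg_delta, coef_eq]

theorem DD_LS (h : AsympMaps U S φ) {x : Op G} (hx : x ∈ LSvn S) {ε : ℝ} (hε : 0 < ε) :
    ∃ p ∈ DD φ, ‖(x - p.1) (delta (1 : G))‖ < ε ∧ ∀ᶠ n in (U : Filter ℕ), p.2 n = p.1 := by
  obtain ⟨s, hs⟩ := DD_near x hε
  refine ⟨∑ g ∈ s, coef x g • ((leftReg g : Op G), fun n => (leftReg (φ n g) : Op G)),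
    Submodule.sum_mem _ fun g _ => Submodule.smul_mem _ _ (Submodule.subset_span ⟨g, rfl⟩),
    ?_, ?_⟩
  · rw [Prod.fst_sum]
    exact hs
  · have h1 : ∀ g : G, ∀ᶠ n in (U : Filter ℕ),
        coef x g • (leftReg (φ n g) : Op G) = coef x g • leftReg g := by
      intro g
      by_cases hg : g ∈ S
      · filter_upwards [h.fix g hg] with n hn
        rw [hn]
      · filter_upwards with n
        rw [coef_eq, LS_apply_eq_zero hx hg, zero_smul, zero_smul]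
    have h2 : ∀ᶠ n in (U : Filter ℕ), ∀ g ∈ s,
        coef x g • (leftReg (φ n g) : Op G) = coef x g • leftReg g :=
      (Filter.eventually_all_finset s).2 fun g _ => h1 g
    filter_upwards [h2] with n hn
    rw [Prod.fst_sum, Prod.snd_sum, Finset.sum_apply]
    exact Finset.sum_congr rfl hn

end

end Pool.Agent.ExT
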