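import Pool.Agent.ExT.Embed

/-!
# Represented elements
-/

noncomputable section

namespace Pool.Agent.ExT

open scoped ENNReal InnerProductSpace ComplexOrder Topology Polynomial
open Filter
open Pool.Agent.InnerAm (ell2 leftReg rightReg delta normSq_ell2 rightReg_apply leftReg_apply
  delta_apply rightReg_delta leftReg_delta norm_delta star_leftReg leftReg_rightReg_comm
  leftReg_mul_inv inner_leftReg)

universe u v

variable {G : Type u} [Group G]

/-- The sequence `xs` represents the image of `x` in the ultrapower. -/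
def Rep (U : Ultrafilter ℕ) (φ : ℕ → G → G) (x : Op G) (xs : ℕ → Op G) : Prop :=
  ∀ ε : ℝ, 0 < ε → ∃ p ∈ DD φ, ‖(x - p.1) (delta (1 : G))‖ < ε ∧
    ∀ᶠ n in (U : Filter ℕ), ‖(xs n - p.2 n) (delta (1 : G))‖ < ε

namespace Rep

variable {U : Ultrafilter ℕ} {S : Subgroup G} {φ : ℕ → G → G} {x y : Op G} {xs ys : ℕ → Op G}

theorem of_near (h : ∀ ε : ℝ, 0 < ε → ∃ y ys, Rep U φ y ys ∧ ‖(x - y) (delta (1 : G))‖ < ε ∧
    ∀ᶠ n in (U : Filter ℕ), ‖(xs n - ys n) (delta (1 : G))‖ < ε) : Rep U φ x xs := by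
  intro ε hε
  obtain ⟨y, ys, hy, h1, h2⟩ := h (ε / 2) (half_pos hε)
  obtain ⟨p, hp, h3, h4⟩ := hy (ε / 2) (half_pos hε)
  refine ⟨p, hp, ?_, ?_⟩
  · have e : (x - p.1) (delta (1 : G)) = (x - y) (delta (1 : G)) + (y - p.1) (delta (1 : G)) := by
      simp only [sub_apply]; abel
    rw [e]
    refine (norm_add_le _ _).trans_lt ?_
    linarith
  · filter_upwards [h2, h4] with n h5 h6
    have e : (xs n - p.2 n) (delta (1 : G)) =
        (xs n - ys n) (delta (1 : G)) + (ys n - p.2 n) (delta (1 : G)) := by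
      simp only [sub_apply]; abel
    rw [e]
    refine (norm_add_le _ _).trans_lt ?_
    linarith

theorem of_mem {p : Op G × (ℕ → Op G)} (hp : p ∈ DD φ) : Rep U φ p.1 p.2 := by
  intro ε hε
  refine ⟨p, hp, ?_, ?_⟩
  · simpa using hε
  · filter_upwards with n
    simpa using hε

theorem congr (h : Rep U φ x xs) (hxy : ∀ᶠ n in (U : Filter ℕ), xs n = ys n) : Rep U φ x ys := by
  intro ε hε
  obtain ⟨p, hp, h1, h2⟩ := h ε hε
  refine ⟨p, hp, h1, ?_⟩
  filter_upwards [h2, hxy] with n h3 h4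
  rwa [← h4]

theorem one (h : AsympMaps U S φ) : Rep U φ (1 : Op G) (fun _ => 1) := by
  obtain ⟨r, hr, h1, h2⟩ := DD_one h
  rw [← h1]
  refine (of_mem hr).congr ?_
  rw [h1]
  exact h2

theorem add (hx : Rep U φ x xs) (hy : Rep U φ y ys) :
    Rep U φ (x + y) (fun n => xs n + ys n) := by
  intro ε hε
  obtain ⟨p, hp, h1, h2⟩ := hx (ε / 2) (half_pos hε)
  obtain ⟨q, hq, h3, h4⟩ := hy (ε / 2) (half_pos hε)
  refine ⟨p + q, add_mem hp hq, ?_, ?_⟩
  · have e : (x + y - (p + q).1) (delta (1 : G)) =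
        (x - p.1) (delta (1 : G)) + (y - q.1) (delta (1 : G)) := by
      simp only [sub_apply, add_apply, Prod.fst_add]; abel
    rw [e]
    refine (norm_add_le _ _).trans_lt ?_
    linarith
  · filter_upwards [h2, h4] with n h5 h6
    have e : (xs n + ys n - (p + q).2 n) (delta (1 : G)) =
        (xs n - p.2 n) (delta (1 : G)) + (ys n - q.2 n) (delta (1 : G)) := by
      simp only [sub_apply, add_apply, Prod.snd_add, Pi.add_apply]; abel
    rw [e]
    refine (norm_add_le _ _).trans_lt ?_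
    linarith

theorem smul (c : ℂ) (hx : Rep U φ x xs) : Rep U φ (c • x) (fun n => c • xs n) := by
  intro ε hε
  have hc : 0 < ‖c‖ + 1 := by positivity
  obtain ⟨p, hp, h1, h2⟩ := hx (ε / (‖c‖ + 1)) (div_pos hε hc)
  have key : ∀ t : ℝ, 0 ≤ t → t < ε / (‖c‖ + 1) → ‖c‖ * t < ε := by
    intro t ht0 ht
    rw [lt_div_iff₀ hc] at ht
    nlinarith
  refine ⟨c • p, Submodule.smul_mem _ _ hp, ?_, ?_⟩
  · have e : (c • x - (c • p).1) (delta (1 : G)) = c • ((x - p.1) (delta (1 : G))) := by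
      rw [Prod.smul_fst, ← smul_sub, smul_apply]
    rw [e, norm_smul]
    exact key _ (norm_nonneg _) h1
  · filter_upwards [h2] with n h5
    have e : (c • xs n - (c • p).2 n) (delta (1 : G)) =
        c • ((xs n - p.2 n) (delta (1 : G))) := by
      rw [Prod.smul_snd, Pi.smul_apply, ← smul_sub, smul_apply]
    rw [e, norm_smul]
    exact key _ (norm_nonneg _) h5

theorem star (h : AsympMaps U S φ) (hxm : x ∈ LGvn G) (hxsm : ∀ n, xs n ∈ LGvn G)
    (hx : Rep U φ x xs) : Rep U φ (star x) (fun n => star (xs n)) := by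
  intro ε hε
  obtain ⟨p, hp, h1, h2⟩ := hx ε hε
  obtain ⟨r, hr, h3, h4⟩ := DD_star h hp
  refine ⟨r, hr, ?_, ?_⟩
  · rw [h3, ← star_sub]
    have : ‖Star.star (x - p.1) (delta (1 : G))‖ = ‖(x - p.1) (delta (1 : G))‖ :=
      TracialVNA.norm_star_Ω (N := LG G) (sub_mem hxm (DD_mem1 hp))
    rw [this]
    exact h1
  · filter_upwards [h2, h4] with n h5 h6
    rw [h6, ← star_sub]
    have : ‖Star.star (xs n - p.2 n) (delta (1 : G))‖ = ‖(xs n - p.2 n) (delta (1 : G))‖ :=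
      TracialVNA.norm_star_Ω (N := LG G) (sub_mem (hxsm n) (LSvn_le S (DD_mem2 h hp n)))
    rw [this]
    exact h5

theorem mul_bound {a b p q : Op G} {C D : ℝ} (ha : a ∈ LGvn G)
    (hp : p ∈ LGvn G) (hq : q ∈ LGvn G) (hC : ‖a‖ ≤ C) (hD : ‖q‖ ≤ D) :
    ‖(a * b - p * q) (delta (1 : G))‖ ≤
      C * ‖(b - q) (delta (1 : G))‖ + D * ‖(a - p) (delta (1 : G))‖ := by
  have e : a * b - p * q = a * (b - q) + (a - p) * q := by noncomm_ring
  rw [e, add_apply]
  refine (norm_add_le _ _).trans (add_le_add ?_ ?_)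
  · rw [mul_apply_eq_comp]
    exact (a.le_opNorm _).trans (mul_le_mul_of_nonneg_right hC (norm_nonneg _))
  · have : ‖((a - p) * q) (delta (1 : G))‖ ≤ ‖q‖ * ‖(a - p) (delta (1 : G))‖ :=
      TracialVNA.norm_mul_Ω (N := LG G) (sub_mem ha hp) hq
    exact this.trans (mul_le_mul_of_nonneg_right hD (norm_nonneg _))

theorem mul (h : AsympMaps U S φ) {C : ℝ} (hxm : x ∈ LGvn G) (hxsm : ∀ n, xs n ∈ LGvn G)
    (hC : ‖x‖ ≤ C) (hCs : ∀ n, ‖xs n‖ ≤ C)
    (hx : Rep U φ x xs) (hy : Rep U φ y ys) : Rep U φ (x * y) (fun n => xs n * ys n) := by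
  intro ε hε
  have hC0 : 0 ≤ C := (norm_nonneg _).trans hC
  obtain ⟨q, hq, h1, h2⟩ := hy (ε / (2 * (C + 1))) (by positivity)
  obtain ⟨D, hD0, hD1, hD2⟩ := DD_bdd hq
  obtain ⟨p, hp, h3, h4⟩ := hx (ε / (2 * (D + 1))) (by positivity)
  obtain ⟨r, hr, h5, h6⟩ := DD_mul h hp hq
  have key : ∀ s t : ℝ, 0 ≤ s → 0 ≤ t → s < ε / (2 * (C + 1)) → t < ε / (2 * (D + 1)) →
      C * s + D * t < ε := by
    intro s t hs0 ht0 hs ht
    rw [lt_div_iff₀ (by positivity)] at hs ht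
    nlinarith
  refine ⟨r, hr, ?_, ?_⟩
  · rw [h5]
    exact (mul_bound hxm (DD_mem1 hp) (DD_mem1 hq) hC hD1).trans_lt
      (key _ _ (norm_nonneg _) (norm_nonneg _) h1 h3)
  · filter_upwards [h2, h4, h6] with n h7 h8 h9
    rw [h9]
    exact (mul_bound (hxsm n) (LSvn_le S (DD_mem2 h hp n)) (LSvn_le S (DD_mem2 h hq n))
      (hCs n) (hD2 n)).trans_lt (key _ _ (norm_nonneg _) (norm_nonneg _) h7 h8)

theorem norm (h : AsympMaps U S φ) (hx : Rep U φ x xs) :
    Tendsto (fun n => ‖xs n (delta (1 : G))‖) U (𝓝 ‖x (delta (1 : G))‖) := by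
  rw [Metric.tendsto_nhds]
  intro ε hε
  obtain ⟨p, hp, h1, h2⟩ := hx (ε / 2) (half_pos hε)
  filter_upwards [h2, DD_norm h hp] with n h3 h4
  rw [Real.dist_eq]
  have e1 : |‖xs n (delta (1 : G))‖ - ‖p.2 n (delta (1 : G))‖| ≤
      ‖(xs n - p.2 n) (delta (1 : G))‖ := by
    rw [sub_apply]; exact abs_norm_sub_norm_le _ _
  have e2 : |‖x (delta (1 : G))‖ - ‖p.1 (delta (1 : G))‖| ≤
      ‖(x - p.1) (delta (1 : G))‖ := by
    rw [sub_apply]; exact abs_norm_sub_norm_le _ _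
  rw [h4] at e1
  rw [abs_le] at e1 e2
  rw [abs_lt]
  constructor <;> linarith

theorem trace (h : AsympMaps U S φ) (hx : Rep U φ x xs) :
    Tendsto (fun n => ⟪(delta (1 : G) : ell2 G), xs n (delta (1 : G))⟫_ℂ) U
      (𝓝 ⟪(delta (1 : G) : ell2 G), x (delta (1 : G))⟫_ℂ) := by
  rw [Metric.tendsto_nhds]
  intro ε hε
  obtain ⟨p, hp, h1, h2⟩ := hx (ε / 2) (half_pos hε)
  have hin : ∀ ξ : ell2 G, ‖⟪(delta (1 : G) : ell2 G), ξ⟫_ℂ‖ ≤ ‖ξ‖ := by
    intro ξ
    refine (norm_inner_le_norm _ _).trans ?_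
    rw [norm_delta, one_mul]
  filter_upwards [h2, DD_trace h hp] with n h3 h4
  rw [dist_eq_norm]
  have e : ⟪(delta (1 : G) : ell2 G), xs n (delta (1 : G))⟫_ℂ -
      ⟪(delta (1 : G) : ell2 G), x (delta (1 : G))⟫_ℂ =
      ⟪(delta (1 : G) : ell2 G), (xs n - p.2 n) (delta (1 : G))⟫_ℂ -
      ⟪(delta (1 : G) : ell2 G), (x - p.1) (delta (1 : G))⟫_ℂ := by
    rw [sub_apply, sub_apply, inner_sub_right, inner_sub_right, h4]
    ring
  rw [e]
  refine (norm_sub_le _ _).trans_lt ?_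
  have := hin ((xs n - p.2 n) (delta (1 : G)))
  have := hin ((x - p.1) (delta (1 : G)))
  linarith

theorem unique (h : AsympMaps U S φ) (hx : Rep U φ x xs) (hy : Rep U φ x ys) :
    Tendsto (fun n => ‖(xs n - ys n) (delta (1 : G))‖) U (𝓝 0) := by
  have h1 := (hx.add (hy.smul (-1))).norm h
  have e : x + (-1 : ℂ) • x = 0 := by rw [neg_one_smul, add_neg_cancel]
  rw [e] at h1
  simpa [← sub_eq_add_neg] using h1

theorem sub (hx : Rep U φ x xs) (hy : Rep U φ y ys) :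
    Rep U φ (x - y) (fun n => xs n - ys n) := by
  have h1 := hx.add (hy.smul (-1))
  simpa only [neg_one_smul, ← sub_eq_add_neg] using h1

theorem pow (h : AsympMaps U S φ) {C : ℝ} (hxm : x ∈ LGvn G) (hxsm : ∀ n, xs n ∈ LGvn G)
    (hC : ‖x‖ ≤ C) (hCs : ∀ n, ‖xs n‖ ≤ C) (hx : Rep U φ x xs) (k : ℕ) :
    Rep U φ (x ^ k) (fun n => xs n ^ k) := by
  induction k with
  | zero => simpa only [pow_zero] using one h
  | succ k ih =>
    simp only [pow_succ']
    exact mul h hxm hxsm hC hCs hx ih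

theorem aeval (h : AsympMaps U S φ) {C : ℝ} (hxm : x ∈ LGvn G) (hxsm : ∀ n, xs n ∈ LGvn G)
    (hC : ‖x‖ ≤ C) (hCs : ∀ n, ‖xs n‖ ≤ C) (hx : Rep U φ x xs) (q : ℂ[X]) :
    Rep U φ (Polynomial.aeval x q) (fun n => Polynomial.aeval (xs n) q) := by
  induction q using Polynomial.induction_on' with
  | add p q hp hq =>
    simp only [map_add]
    exact hp.add hq
  | monomial k a =>
    have h1 := (pow h hxm hxsm hC hCs hx k).smul a
    have e : ∀ z : Op G, Polynomial.aeval z (Polynomial.monomial k a) = a • z ^ k := by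
      intro z
      rw [Polynomial.aeval_monomial, Algebra.algebraMap_eq_smul_one, smul_mul_assoc, one_mul]
    simp only [e]
    exact h1

theorem fc (h : AsympMaps U S φ) {C : ℝ} (hxm : x ∈ LGvn G) (hxsm : ∀ n, xs n ∈ LGvn G)
    (hC : ‖x‖ ≤ C) (hCs : ∀ n, ‖xs n‖ ≤ C) (hxa : IsSelfAdjoint x)
    (hxsa : ∀ n, IsSelfAdjoint (xs n)) (hx : Rep U φ x xs) {f : ℝ → ℝ} (hf : Continuous f) :
    Rep U φ (ExT.fc f x) (fun n => ExT.fc f (xs n)) := by
  refine of_near fun ε hε => ?_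
  obtain ⟨q, hq⟩ := exists_polynomial_near_of_continuousOn (-C) C f hf.continuousOn (ε / 2)
    (half_pos hε)
  have key : ∀ z : Op G, ‖z (delta (1 : G))‖ ≤ ‖z‖ := by
    intro z
    refine (z.le_opNorm _).trans ?_
    rw [norm_delta, mul_one]
  refine ⟨_, _, aeval h hxm hxsm hC hCs hx (q.map (algebraMap ℝ ℂ)), ?_, ?_⟩
  · refine (key _).trans_lt ?_
    have := norm_fc_sub_aeval_le hf (half_pos hε).le hq hxa hC
    linarith
  · filter_upwards with n
    refine (key _).trans_lt ?_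
    have := norm_fc_sub_aeval_le hf (half_pos hε).le hq (hxsa n) (hCs n)
    linarith

end Rep

/-- `max (-1) (min 1 t)`. -/
def clamp (t : ℝ) : ℝ := max (-1) (min 1 t)

theorem continuous_clamp : Continuous clamp := by unfold clamp; fun_prop

theorem abs_clamp_le (t : ℝ) : |clamp t| ≤ 1 := by
  rw [abs_le, clamp]
  exact ⟨le_max_left _ _, max_le (by norm_num) (min_le_left _ _)⟩

theorem clamp_eq (t : ℝ) (h1 : |t| ≤ 1) : clamp t = t := by
  rw [abs_le] at h1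
  show max (-1) (min 1 t) = t
  rw [min_eq_right h1.2, max_eq_right h1.1]

section

variable {U : Ultrafilter ℕ} {S : Subgroup G} {φ : ℕ → G → G}

/-- `x` is represented by a bounded sequence of elements of `L(S)`. -/
def HasRep (U : Ultrafilter ℕ) (S : Subgroup G) (φ : ℕ → G → G) (x : Op G) : Prop :=
  ∃ xs : ℕ → Op G, (∀ n, xs n ∈ LSvn S) ∧ (∃ C : ℝ, ∀ n, ‖xs n‖ ≤ C) ∧ Rep U φ x xs

theorem HasRep.add {x y : Op G} (hx : HasRep U S φ x) (hy : HasRep U S φ y) :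
    HasRep U S φ (x + y) := by
  obtain ⟨xs, h1, ⟨C, hC⟩, h2⟩ := hx
  obtain ⟨ys, h3, ⟨D, hD⟩, h4⟩ := hy
  refine ⟨fun n => xs n + ys n, fun n => add_mem (h1 n) (h3 n), ⟨C + D, fun n => ?_⟩, h2.add h4⟩
  exact (norm_add_le _ _).trans (add_le_add (hC n) (hD n))

theorem HasRep.smul {x : Op G} (c : ℂ) (hx : HasRep U S φ x) : HasRep U S φ (c • x) := by
  obtain ⟨xs, h1, ⟨C, hC⟩, h2⟩ := hx
  refine ⟨fun n => c • xs n, fun n => (LSvn S).toStarSubalgebra.smul_mem (h1 n) c,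
    ⟨‖c‖ * C, fun n => ?_⟩, h2.smul c⟩
  rw [norm_smul]
  exact mul_le_mul_of_nonneg_left (hC n) (norm_nonneg _)

theorem HasRep.mul (h : AsympMaps U S φ) {x y : Op G} (hxm : x ∈ LGvn G)
    (hx : HasRep U S φ x) (hy : HasRep U S φ y) : HasRep U S φ (x * y) := by
  obtain ⟨xs, h1, ⟨C, hC⟩, h2⟩ := hx
  obtain ⟨ys, h3, ⟨D, hD⟩, h4⟩ := hy
  refine ⟨fun n => xs n * ys n, fun n => mul_mem (h1 n) (h3 n), ⟨C * D, fun n => ?_⟩,
    Rep.mul h (C := max ‖x‖ C) hxm (fun n => LSvn_le S (h1 n)) (le_max_left _ _)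
      (fun n => (hC n).trans (le_max_right _ _)) h2 h4⟩
  refine (norm_mul_le _ _).trans ?_
  exact mul_le_mul (hC n) (hD n) (norm_nonneg _) ((norm_nonneg _).trans (hC n))

theorem HasRep.star (h : AsympMaps U S φ) {x : Op G} (hxm : x ∈ LGvn G)
    (hx : HasRep U S φ x) : HasRep U S φ (star x) := by
  obtain ⟨xs, h1, ⟨C, hC⟩, h2⟩ := hx
  refine ⟨fun n => Star.star (xs n), fun n => star_mem (h1 n), ⟨C, fun n => ?_⟩,
    h2.star h hxm fun n => LSvn_le S (h1 n)⟩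
  exact (norm_star_op (xs n)).trans_le (hC n)

theorem HasRep.exists_sa (h : AsympMaps U S φ) {x : Op G} (hxm : x ∈ LGvn G)
    (hxa : IsSelfAdjoint x) (hx : HasRep U S φ x) : ∃ xs : ℕ → Op G, (∀ n, xs n ∈ LSvn S) ∧
      (∀ n, IsSelfAdjoint (xs n)) ∧ (∃ C : ℝ, ∀ n, ‖xs n‖ ≤ C) ∧ Rep U φ x xs := by
  obtain ⟨xs, h1, ⟨C, hC⟩, h2⟩ := hx
  have hsmem : ∀ (c : ℂ) {z : Op G}, z ∈ LSvn S → c • z ∈ LSvn S :=
    fun c z hz => (LSvn S).toStarSubalgebra.smul_mem hz c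
  refine ⟨fun n => (2⁻¹ : ℂ) • (xs n + Star.star (xs n)),
    fun n => hsmem _ (add_mem (h1 n) (star_mem (h1 n))), fun n => ?_, ⟨C, fun n => ?_⟩, ?_⟩
  · rw [IsSelfAdjoint, star_smul, star_add, star_star, add_comm]
    congr 1
    simp
  · rw [norm_smul]
    have h3 : ‖(2⁻¹ : ℂ)‖ = 2⁻¹ := by norm_num
    have h4 : ‖xs n + Star.star (xs n)‖ ≤ C + C := by
      refine (norm_add_le _ _).trans (add_le_add (hC n) ?_)
      exact (norm_star_op (xs n)).trans_le (hC n)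
    rw [h3]
    linarith
  · have h3 := (h2.add (h2.star h hxm fun n => LSvn_le S (h1 n))).smul (2⁻¹ : ℂ)
    have e : (2⁻¹ : ℂ) • (x + Star.star x) = x := by
      rw [hxa.star_eq, ← two_smul ℂ x, smul_smul]
      norm_num
    rw [e] at h3
    exact h3

theorem HasRep.fc (h : AsympMaps U S φ) {x : Op G} (hxm : x ∈ LGvn G)
    (hxa : IsSelfAdjoint x) (hx : HasRep U S φ x) {f : ℝ → ℝ} (hf : Continuous f)
    {D : ℝ} (hD : 0 ≤ D) (hfD : ∀ t, |f t| ≤ D) :
    ∃ xs : ℕ → Op G, (∀ n, xs n ∈ LSvn S) ∧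
      (∀ n, ‖xs n‖ ≤ D) ∧ Rep U φ (ExT.fc f x) xs := by
  obtain ⟨xs, h1, h2, ⟨C, hC⟩, h3⟩ := hx.exists_sa h hxm hxa
  refine ⟨fun n => ExT.fc f (xs n), fun n => cfc_mem _ (h1 n) _,
    fun n => norm_fc_le hD hfD _, ?_⟩
  exact Rep.fc h (C := max ‖x‖ C) hxm (fun n => LSvn_le S (h1 n)) (le_max_left _ _)
      (fun n => (hC n).trans (le_max_right _ _)) hxa h2 h3 hf

theorem HasRep.clamp (h : AsympMaps U S φ) {x : Op G} (hxm : x ∈ LGvn G)
    (hxa : IsSelfAdjoint x) (hx1 : ‖x‖ ≤ 1) (hx : HasRep U S φ x) :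
    ∃ xs : ℕ → Op G, (∀ n, xs n ∈ LSvn S) ∧ (∀ n, ‖xs n‖ ≤ 1) ∧ Rep U φ x xs := by
  obtain ⟨xs, h1, h2, h3⟩ := hx.fc h hxm hxa continuous_clamp zero_le_one abs_clamp_le
  rw [fc_eq_self clamp_eq hxa hx1] at h3
  exact ⟨xs, h1, h2, h3⟩

theorem HasRep.bounded (h : AsympMaps U S φ) {x : Op G} (hxm : x ∈ LGvn G)
    (hx1 : ‖x‖ ≤ 1) (hx : HasRep U S φ x) :
    ∃ xs : ℕ → Op G, (∀ n, xs n ∈ LSvn S) ∧ (∀ n, ‖xs n‖ ≤ 2) ∧ Rep U φ x xs := by
  have hsmem : ∀ (c : ℂ) {z : Op G}, z ∈ LGvn G → c • z ∈ LGvn G :=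
    fun c z hz => (LGvn G).toStarSubalgebra.smul_mem hz c
  have hsx : Star.star x ∈ LGvn G := star_mem hxm
  have h2i : ‖(2⁻¹ : ℂ)‖ = 2⁻¹ := by norm_num
  have hst := hx.star h hxm
  -- the real part
  obtain ⟨as, ha1, ha2, ha3⟩ := HasRep.clamp h (x := (2⁻¹ : ℂ) • (x + Star.star x))
    (hsmem _ (add_mem hxm hsx)) (by
      rw [IsSelfAdjoint, star_smul, star_add, star_star, add_comm]
      congr 1
      simp) (by
      rw [norm_smul, h2i]
      have := norm_add_le x (Star.star x)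
      have h3 : ‖Star.star x‖ = ‖x‖ := norm_star_op x
      linarith) ((hx.add hst).smul _)
  -- the imaginary part
  obtain ⟨bs, hb1, hb2, hb3⟩ := HasRep.clamp h
    (x := (2⁻¹ * Complex.I : ℂ) • (x + (-1 : ℂ) • Star.star x))
    (hsmem _ (add_mem hxm (hsmem _ hsx))) (by
      rw [IsSelfAdjoint, star_smul, star_add, star_smul, star_star, neg_one_smul]
      have e : Star.star (2⁻¹ * Complex.I : ℂ) = - (2⁻¹ * Complex.I) := by simp
      have e2 : Star.star (-1 : ℂ) = -1 := by simp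
      rw [e, e2, neg_smul, neg_one_smul, ← smul_neg]
      congr 1
      abel) (by
      rw [norm_smul, norm_mul, h2i, Complex.norm_I, mul_one, neg_one_smul, ← sub_eq_add_neg]
      have := norm_sub_le x (Star.star x)
      have h3 : ‖Star.star x‖ = ‖x‖ := norm_star_op x
      linarith) ((hx.add (hst.smul _)).smul _)
  refine ⟨fun n => as n + (-Complex.I) • bs n, fun n => add_mem (ha1 n)
    ((LSvn S).toStarSubalgebra.smul_mem (hb1 n) _), fun n => ?_, ?_⟩
  · refine (norm_add_le _ _).trans ?_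
    rw [norm_smul, norm_neg, Complex.norm_I, one_mul]
    have := ha2 n
    have := hb2 n
    linarith
  · have h3 := ha3.add (hb3.smul (-Complex.I))
    have e : (2⁻¹ : ℂ) • (x + Star.star x) +
        (-Complex.I) • (2⁻¹ * Complex.I : ℂ) • (x + (-1 : ℂ) • Star.star x) = x := by
      have e1 : -Complex.I * (2⁻¹ * Complex.I) = (2⁻¹ : ℂ) := by
        linear_combination (-(2⁻¹ : ℂ)) * Complex.I_mul_I
      rw [smul_smul, e1, ← smul_add]
      have : x + Star.star x + (x + (-1 : ℂ) • Star.star x) = (2 : ℂ) • x := by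
        rw [two_smul, neg_one_smul]; abel
      rw [this, smul_smul]
      norm_num
    rw [e] at h3
    exact h3

/-- The diagonal argument. -/
theorem HasRep.lim (hU : (U : Filter ℕ) ≤ Filter.cofinite) (h : AsympMaps U S φ)
    {y : ℕ → Op G} {x : Op G}
    (hlim : Tendsto (fun k => ‖(y k - x) (delta (1 : G))‖) atTop (𝓝 0))
    {ys : ℕ → ℕ → Op G} {C : ℝ} (h1 : ∀ k n, ys k n ∈ LSvn S) (h2 : ∀ k n, ‖ys k n‖ ≤ C)
    (h3 : ∀ k, Rep U φ (y k) (ys k)) :
    HasRep U S φ x := by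
  classical
  -- the error bound
  set e : ℕ → ℝ := fun k => ‖(y k - x) (delta (1 : G))‖ + 1 / ((k : ℝ) + 1) with he
  have he0 : Tendsto e atTop (𝓝 0) := by
    have := hlim.add (tendsto_one_div_add_atTop_nhds_zero_nat (𝕜 := ℝ))
    rw [add_zero] at this
    exact this
  let A : ℕ → Set ℕ := fun k => {n | ∀ j ≤ k, ∀ l ≤ k,
    ‖(ys j n - ys l n) (delta (1 : G))‖ ≤ e j + e l}
  have hA : ∀ k, A k ∈ (U : Filter ℕ) := by
    intro k
    have hjl : ∀ j l, ∀ᶠ n in (U : Filter ℕ),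
        ‖(ys j n - ys l n) (delta (1 : G))‖ ≤ e j + e l := by
      intro j l
      have h4 := ((h3 j).sub (h3 l)).norm h
      have h5 : ‖(y j - y l) (delta (1 : G))‖ < e j + e l := by
        have e1 : (y j - y l) (delta (1 : G)) =
            (y j - x) (delta (1 : G)) - (y l - x) (delta (1 : G)) := by
          simp only [sub_apply]; abel
        rw [e1]
        refine (norm_sub_le _ _).trans_lt ?_
        have p1 : (0 : ℝ) < 1 / ((j : ℝ) + 1) := by positivity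
        have p2 : (0 : ℝ) < 1 / ((l : ℝ) + 1) := by positivity
        simp only [he]
        linarith
      exact (h4.eventually (gt_mem_nhds h5)).mono fun n hn => le_of_lt hn
    have h6 : ∀ᶠ n in (U : Filter ℕ), ∀ j ∈ Finset.range (k + 1), ∀ l ∈ Finset.range (k + 1),
        ‖(ys j n - ys l n) (delta (1 : G))‖ ≤ e j + e l :=
      (Filter.eventually_all_finset _).2 fun j _ =>
        (Filter.eventually_all_finset _).2 fun l _ => hjl j l
    filter_upwards [h6] with n hn j hj l hl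
    exact hn j (Finset.mem_range.2 (by omega)) l (Finset.mem_range.2 (by omega))
  let κ : ℕ → ℕ := fun n => Nat.findGreatest (fun k => n ∈ A k) n
  have hκ0 : ∀ n, n ∈ A 0 → n ∈ A (κ n) := fun n hn =>
    Nat.findGreatest_spec (P := fun k => n ∈ A k) (Nat.zero_le n) hn
  have hκ : ∀ k, ∀ᶠ n in (U : Filter ℕ), k ≤ κ n := by
    intro k
    have h5 : ∀ᶠ n in (U : Filter ℕ), k ≤ n := by
      refine hU ?_
      rw [Filter.mem_cofinite]
      refine (Set.finite_lt_nat k).subset fun n hn => ?_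
      simpa using hn
    filter_upwards [h5, hA k] with n hn hk
    exact Nat.le_findGreatest hn hk
  refine ⟨fun n => ys (κ n) n, fun n => h1 _ _, ⟨C, fun n => h2 _ _⟩, ?_⟩
  refine Rep.of_near fun ε hε => ?_
  have h7 : ∀ᶠ k in atTop, e k < ε / 4 := he0.eventually (gt_mem_nhds (by positivity))
  obtain ⟨m, hm⟩ := Filter.eventually_atTop.1 h7
  refine ⟨y m, ys m, h3 m, ?_, ?_⟩
  · rw [← neg_sub, neg_apply, norm_neg]
    have h8 := hm m le_rfl
    have p1 : (0 : ℝ) < 1 / ((m : ℝ) + 1) := by positivity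
    simp only [he] at h8
    linarith
  · filter_upwards [hκ m, hA 0] with n hn h0
    have h9 := hκ0 n h0 (κ n) le_rfl m hn
    have h10 := hm (κ n) hn
    have h11 := hm m le_rfl
    linarith

theorem hasRep_all (hU : (U : Filter ℕ) ≤ Filter.cofinite) (h : AsympMaps U S φ) :
    ∀ x ∈ LGvn G, HasRep U S φ x := by
  refine LG_induction ?_ ?_ ?_ ?_ ?_ ?_
  · intro g
    refine ⟨fun n => leftReg (φ n g), fun n => leftReg_mem_LS (h.mem n g),
      ⟨1, fun n => norm_leftReg_le _⟩, ?_⟩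
    exact Rep.of_mem (p := ((leftReg g : Op G), fun n => (leftReg (φ n g) : Op G)))
      (Submodule.subset_span ⟨g, rfl⟩)
  · intro x _ y _ hx hy
    exact hx.add hy
  · intro c x _ hx
    exact hx.smul c
  · intro x hxm y _ hx hy
    exact HasRep.mul h hxm hx hy
  · intro x hxm hxa hx
    obtain ⟨xs, h1, h2, h3⟩ := hx.fc h hxm hxa cont_res zero_le_one (fun t => by
      rw [abs_of_nonneg (by positivity)]
      exact inv_le_one_of_one_le₀ (by nlinarith [sq_nonneg t]))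
    exact ⟨xs, h1, ⟨1, h2⟩, h3⟩
  · intro y x hym hxm hy1 hlim hy
    have := fun k => (hy k).bounded h (hym k) (hy1 k)
    choose ys h1 h2 h3 using this
    exact HasRep.lim hU h hlim h1 h2 h3

end

end Pool.Agent.ExT
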