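import Pool.Agent.ExT.Embed2

/-!
# The embedding `L(G) → L(S)^U`
-/

noncomputable section

namespace Pool.Agent.ExT

open scoped ENNReal InnerProductSpace ComplexOrder Topology
open Filter TracialVNA
open Pool.Agent.InnerAm (ell2 leftReg rightReg delta normSq_ell2 rightReg_apply leftReg_apply
  delta_apply rightReg_delta leftReg_delta norm_delta star_leftReg leftReg_rightReg_comm
  leftReg_mul_inv inner_leftReg)

universe u v

variable {G : Type u} [Group G] {U : Ultrafilter ℕ} {S : Subgroup G} {φ : ℕ → G → G}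

/-- A representing sequence of `x`. -/
def repSeq (hall : ∀ x ∈ LGvn G, HasRep U S φ x) (x : (LG G).A) (n : ℕ) : (LS S).A :=
  ⟨(hall x.1 x.2).choose n, (hall x.1 x.2).choose_spec.1 n⟩

theorem repSeq_bdd (hall : ∀ x ∈ LGvn G, HasRep U S φ x) (x : (LG G).A) :
    ∃ C : ℝ, ∀ n, ‖(repSeq hall x n).1‖ ≤ C := (hall x.1 x.2).choose_spec.2.1

theorem repSeq_rep (hall : ∀ x ∈ LGvn G, HasRep U S φ x) (x : (LG G).A) :
    Rep U φ x.1 (fun n => (repSeq hall x n).1) := (hall x.1 x.2).choose_spec.2.2

theorem repSeq_unique (h : AsympMaps U S φ) (hall : ∀ x ∈ LGvn G, HasRep U S φ x) (x : (LG G).A)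
    (ys : ℕ → (LS S).A) (hy : Rep U φ x.1 (fun n => (ys n).1)) :
    Tendsto (fun n => norm2 (repSeq hall x n - ys n)) U (𝓝 0) :=
  Rep.unique h (repSeq_rep hall x) hy

/-- The embedding `L(G) → L(S)^U`. -/
def piHom (h : AsympMaps U S φ) (hall : ∀ x ∈ LGvn G, HasRep U S φ x) :
    UltraEmbedding (LS S) (LG G) U where
  seq := repSeq hall
  bounded := repSeq_bdd hall
  map_one := repSeq_unique h hall 1 (fun _ => 1) (Rep.one h)
  map_add x y := repSeq_unique h hall (x + y) (fun n => repSeq hall x n + repSeq hall y n)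
    ((repSeq_rep hall x).add (repSeq_rep hall y))
  map_smul c x := repSeq_unique h hall (c • x) (fun n => c • repSeq hall x n)
    ((repSeq_rep hall x).smul c)
  map_mul x y := by
    refine repSeq_unique h hall (x * y) (fun n => repSeq hall x n * repSeq hall y n) ?_
    obtain ⟨C, hC⟩ := repSeq_bdd hall x
    exact Rep.mul h (C := max ‖x.1‖ C) x.2 (fun n => LSvn_le S (repSeq hall x n).2)
      (le_max_left _ _) (fun n => (hC n).trans (le_max_right _ _)) (repSeq_rep hall x)
      (repSeq_rep hall y)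
  map_star x := repSeq_unique h hall (star x) (fun n => star (repSeq hall x n))
    ((repSeq_rep hall x).star h x.2 fun n => LSvn_le S (repSeq hall x n).2)
  map_trace x := (repSeq_rep hall x).trace h

theorem existential_of_asympMaps (hU : (U : Filter ℕ) ≤ Filter.cofinite)
    (h : AsympMaps U S φ) : (LSincl S).IsExistential U := by
  refine ⟨piHom h (hasRep_all hU h), fun x => ?_⟩
  refine repSeq_unique h (hasRep_all hU h) ((LSincl S).toHom x) (fun _ => x) ?_
  refine Rep.of_near fun ε hε => ?_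
  obtain ⟨p, hp, h1, h2⟩ := DD_LS h x.2 hε
  refine ⟨p.1, p.2, Rep.of_mem hp, h1, ?_⟩
  filter_upwards [h2] with n hn
  rw [hn]
  exact h1

end Pool.Agent.ExT
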