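import Pool.Agent.ExT.LG

/-!
# Factoriality
-/

noncomputable section

namespace Pool.Agent.ExT

open scoped ENNReal InnerProductSpace ComplexOrder Topology
open Pool.Agent.InnerAm (ell2 leftReg rightReg delta normSq_ell2 rightReg_apply leftReg_apply
  delta_apply rightReg_delta leftReg_delta norm_delta star_leftReg leftReg_rightReg_comm
  leftReg_mul_inv inner_leftReg)

universe u

variable {G : Type u} [Group G]

theorem coeff_conj {x : ell2 G →L[ℂ] ell2 G} (hx : x ∈ LGvn G) {h : G}
    (hh : leftReg h * x = x * leftReg h) (g : G) :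
    (x (delta (1 : G)) : G → ℂ) (h * g * h⁻¹) = (x (delta (1 : G)) : G → ℂ) g := by
  have e := DFunLike.congr_fun hh (delta (1 : G))
  have e1 : leftReg h (x (delta (1 : G))) = x (delta h) := by
    rw [← leftReg_delta h]; exact e
  have e2 := congrArg (fun ξ : ell2 G => (ξ : G → ℂ) (h * g)) e1
  simp only at e2
  rw [leftReg_apply, apply_delta hx h, inv_mul_cancel_left] at e2
  exact e2.symm

omit [Group G] in
theorem finite_level (ξ : ell2 G) {c : ℂ} (hc : c ≠ 0) :
    {g : G | (ξ : G → ℂ) g = c}.Finite := by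
  have h := (normSq_ell2 ξ).1.tendsto_cofinite_zero
  have h2 : 0 < ‖c‖ ^ 2 := by positivity
  have h3 := h.eventually (gt_mem_nhds h2)
  rw [Filter.eventually_cofinite] at h3
  refine h3.subset fun g hg => ?_
  rw [Set.mem_ofPred_eq, not_lt]
  rw [Set.mem_ofPred_eq] at hg
  rw [hg]

theorem scalar_of_commute {x : ell2 G →L[ℂ] ell2 G} (hx : x ∈ LGvn G) (S : Subgroup G)
    (hcomm : ∀ h ∈ S, leftReg h * x = x * leftReg h)
    (hinf : ∀ g : G, g ≠ 1 → (x (delta (1 : G)) : G → ℂ) g ≠ 0 →
      (Set.range fun h : S => (h : G) * g * (h : G)⁻¹).Infinite) :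
    x = ((x (delta (1 : G)) : G → ℂ) 1) • (1 : ell2 G →L[ℂ] ell2 G) := by
  refine eq_of_delta_one hx (by
    exact (LGvn G).toStarSubalgebra.smul_mem (one_mem (LGvn G)) _) ?_
  ext g
  rw [smul_apply]
  show _ = (x (delta (1 : G)) : G → ℂ) 1 * (delta (1 : G) : G → ℂ) g
  rw [delta_apply]
  by_cases hg : g = 1
  · subst hg; simp
  · rw [if_neg hg, mul_zero]
    by_contra hne
    refine hinf g hg hne ((finite_level (x (delta (1 : G))) hne).subset ?_)
    rintro _ ⟨h, rfl⟩
    exact coeff_conj hx (hcomm h h.2) g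

omit [Group G] in
theorem orthonormal_delta : Orthonormal ℂ (fun g : G => (delta g : ell2 G)) := by
  classical
  rw [orthonormal_iff_ite]
  intro g h
  rw [inner_delta_left]
  unfold delta
  rw [lp.single_apply, Pi.single_apply]

theorem not_finiteDimensional_of {H : Type u} [NormedAddCommGroup H] [InnerProductSpace ℂ H]
    [CompleteSpace H] {N : TracialVNA H} {ι : Type*} [Infinite ι]
    (b : ι → N.A) (hb : LinearIndependent ℂ fun i => (b i : H →L[ℂ] H) N.Ω) :
    ¬ FiniteDimensional ℂ N.A := by
  intro hfd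
  let Φ : N.A →ₗ[ℂ] H :=
    { toFun := fun x => (x : H →L[ℂ] H) N.Ω
      map_add' := fun x y => rfl
      map_smul' := fun c x => rfl }
  have h1 : LinearIndependent ℂ b := LinearIndependent.of_comp Φ hb
  have := h1.finite
  exact not_finite ι

theorem LG_factor [Infinite G] (hG : IsICCGroup G) : (LG G).IsII1Factor := by
  refine ⟨fun z hz => ?_, ?_⟩
  · have h := scalar_of_commute (x := z.1) z.2 ⊤ (fun h _ => ?_) (fun g hg _ => ?_)
    · exact ⟨_, Subtype.ext h⟩
    · have := hz ⟨leftReg h, leftReg_mem_LG h⟩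
      exact (congrArg Subtype.val this).symm
    · refine (hG g hg).mono ?_
      intro k hk
      obtain ⟨c, hc⟩ := isConj_iff.1 hk
      exact ⟨⟨c, trivial⟩, hc⟩
  · refine not_finiteDimensional_of (N := LG G) (fun g : G => ⟨leftReg g, leftReg_mem_LG g⟩) ?_
    have := (orthonormal_delta (G := G)).linearIndependent
    show LinearIndependent ℂ (fun g : G => (leftReg g : ell2 G →L[ℂ] ell2 G) (delta (1 : G)))
    simpa only [leftReg_delta] using this

theorem LS_factor (S : Subgroup G) [Infinite S] (hS : IsICCGroup S) :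
    (LS S).IsII1Factor := by
  refine ⟨fun z hz => ?_, ?_⟩
  · have h := scalar_of_commute (x := z.1) (LSvn_le S z.2) S (fun h hh => ?_) (fun g hg hne => ?_)
    · exact ⟨_, Subtype.ext h⟩
    · have := hz ⟨leftReg h, leftReg_mem_LS hh⟩
      exact (congrArg Subtype.val this).symm
    · have hgS : g ∈ S := by
        by_contra hgS
        exact hne (LS_apply_eq_zero z.2 hgS)
      have h1 := hS ⟨g, hgS⟩ (fun h => hg (congrArg Subtype.val h))
      have h2 := h1.image (Set.injOn_of_injective Subtype.val_injective)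
      refine h2.mono ?_
      rintro _ ⟨k, hk, rfl⟩
      obtain ⟨c, hc⟩ := isConj_iff.1 hk
      exact ⟨c, congrArg Subtype.val hc⟩
  · refine not_finiteDimensional_of (N := LS S)
      (fun g : S => ⟨leftReg (g : G), leftReg_mem_LS g.2⟩) ?_
    have := (orthonormal_delta (G := G)).linearIndependent.comp (fun g : S => (g : G))
      Subtype.val_injective
    show LinearIndependent ℂ
      (fun g : S => (leftReg (g : G) : ell2 G →L[ℂ] ell2 G) (delta (1 : G)))
    simp only [leftReg_delta]
    exact this

end Pool.Agent.ExT
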