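import Pool.Agent.ExT.Embed3
import Pool.Agent.ExT.LGFactor
import Pool.Agent.ExT.Elem6

/-!
# The pair `H ≤ G`
-/

noncomputable section

namespace Pool.Agent.ExT

open Filter
open Pool.Agent.InnerAm (ell2 leftReg delta)

universe v

variable {U : Ultrafilter ℕ} (hU : (U : Filter ℕ) ≤ Filter.cofinite)

theorem HH_ne : ∃ h : HH, h ≠ 1 := by
  obtain ⟨h, hh⟩ := exists_rankOne_single 0 1 (by decide) 0 0
  refine ⟨h, fun h1 => ?_⟩
  have h2 := hh (dl 1 0)
  rw [h1, hv_one, dl_apply, if_pos ⟨rfl, rfl⟩, one_smul] at h2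
  exact dl_ne_zero 0 0 (left_eq_add.1 h2)

theorem infinite_of_icc {G : Type*} [Group G] (hG : IsICCGroup G) (h : ∃ g : G, g ≠ 1) :
    Infinite G := by
  obtain ⟨g, hg⟩ := h
  exact Set.infinite_univ_iff.1 ((hG g hg).mono (Set.subset_univ _))

theorem diagG_injective : Function.Injective (diagG hU) := by
  intro h k hhk
  have h1 : (((fun _ => h : ℕ → HH) : (U : Filter ℕ).Germ HH)) =
      ((fun _ => k : ℕ → HH) : (U : Filter ℕ).Germ HH) := congrArg Subtype.val hhk
  rw [Germ.coe_eq] at h1
  exact h1.exists.choose_spec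

/-- `H` as a subgroup of `G`. -/
def SS : Subgroup (GG U) := (diagG hU).range

/-- The isomorphism of `H` with its image. -/
def isoS : HH ≃* SS hU := MonoidHom.ofInjective (diagG_injective hU)

theorem isoS_coe (h : HH) : (isoS hU h : GG U) = diagG hU h := rfl

theorem locallyFinite_of_iso {A B : Type*} [Group A] [Group B] (e : A ≃* B)
    (hA : IsLocallyFiniteGroup A) : IsLocallyFiniteGroup B := by
  classical
  intro T
  have h1 := hA (T.image e.symm)
  have h2 : Subgroup.closure (T : Set B) =
      (Subgroup.closure ((T.image e.symm : Finset A) : Set A)).map e.toMonoidHom := by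
    rw [MonoidHom.map_closure]
    congr 1
    ext b
    simp
  rw [h2]
  exact Finite.of_surjective _ ((Subgroup.closure ((T.image e.symm : Finset A) : Set A)
    ).equivMapOfInjective e.toMonoidHom e.injective).surjective

theorem icc_of_iso {A B : Type*} [Group A] [Group B] (e : A ≃* B)
    (hA : IsICCGroup A) : IsICCGroup B := by
  intro b hb
  have h1 : e.symm b ≠ 1 := fun h => hb (e.symm.map_eq_one_iff.1 h)
  refine ((hA _ h1).image e.injective.injOn).mono ?_
  rintro _ ⟨a, ha, rfl⟩
  obtain ⟨c, hc⟩ := isConj_iff.1 ha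
  refine isConj_iff.2 ⟨e c, ?_⟩
  rw [← hc]
  simp

theorem SS_locallyFinite : IsLocallyFiniteGroup (SS hU) :=
  locallyFinite_of_iso (isoS hU) HH_locallyFinite

theorem SS_icc : IsICCGroup (SS hU) := icc_of_iso (isoS hU) HH_icc

theorem SS_infinite : Infinite (SS hU) := by
  have := infinite_of_icc HH_icc HH_ne
  exact Infinite.of_injective _ (isoS hU).injective

include hU in
theorem GG_infinite : Infinite (GG U) := by
  have := infinite_of_icc HH_icc HH_ne
  exact Infinite.of_injective _ (diagG_injective hU)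

/-- A representing sequence of an element of the ultrapower. -/
def rp (x : GG U) : ℕ → HH := Quotient.out x.1

theorem rp_spec (x : GG U) : ((rp x : ℕ → HH) : (U : Filter ℕ).Germ HH) = x.1 :=
  Quotient.out_eq _

/-- The asymptotic retractions `G → H`. -/
def phi (n : ℕ) (x : GG U) : GG U := diagG hU (rp x n)

theorem phi_asymp : AsympMaps U (SS hU) (phi hU) where
  mem n g := ⟨_, rfl⟩
  mul g h := by
    have h1 : ((rp (g * h) : ℕ → HH) : (U : Filter ℕ).Germ HH) =
        ((rp g * rp h : ℕ → HH) : (U : Filter ℕ).Germ HH) := by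
      rw [Germ.coe_mul, rp_spec, rp_spec, rp_spec]
      rfl
    rw [Germ.coe_eq] at h1
    filter_upwards [h1] with n hn
    show diagG hU (rp (g * h) n) = diagG hU (rp g n) * diagG hU (rp h n)
    rw [hn, ← map_mul]
    rfl
  inj g hg := by
    by_contra hcon
    have h1 := Ultrafilter.eventually_not.2 hcon
    apply hg
    refine Subtype.ext ?_
    rw [← rp_spec]
    show _ = ((1 : ℕ → HH) : (U : Filter ℕ).Germ HH)
    rw [Germ.coe_eq]
    filter_upwards [h1] with n hn
    rw [not_not] at hn
    exact diagG_injective hU (hn.trans (map_one _).symm)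
  fix g hg := by
    obtain ⟨h, rfl⟩ := hg
    have h1 : ((rp (diagG hU h) : ℕ → HH) : (U : Filter ℕ).Germ HH) =
        ((fun _ => h : ℕ → HH) : (U : Filter ℕ).Germ HH) := rp_spec _
    rw [Germ.coe_eq] at h1
    filter_upwards [h1] with n hn
    show diagG hU (rp (diagG hU h) n) = _
    rw [hn]

/-- The embedding of `G` in the ultrapower of its subgroup `H`. -/
def theta : GG U →* (U : Filter ℕ).Germ (SS hU) where
  toFun x := Germ.map (isoS hU) x.1
  map_one' := by
    show Germ.map (isoS hU) ((1 : ℕ → HH) : (U : Filter ℕ).Germ HH) = _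
    rw [Germ.map_coe, ← Germ.coe_one, Germ.coe_eq]
    filter_upwards with n
    exact map_one _
  map_mul' x y := by
    show Germ.map (isoS hU) (x.1 * y.1) = _
    rw [← rp_spec x, ← rp_spec y, ← Germ.coe_mul, Germ.map_coe, Germ.map_coe, Germ.map_coe,
      ← Germ.coe_mul, Germ.coe_eq]
    filter_upwards with n
    exact map_mul _ _ _

theorem theta_injective : Function.Injective (theta hU) := by
  intro x y hxy
  have h1 : Germ.map (isoS hU) x.1 = Germ.map (isoS hU) y.1 := hxy
  rw [← rp_spec x, ← rp_spec y, Germ.map_coe, Germ.map_coe, Germ.coe_eq] at h1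
  refine Subtype.ext ?_
  rw [← rp_spec x, ← rp_spec y, Germ.coe_eq]
  filter_upwards [h1] with n hn
  exact (isoS hU).injective hn

theorem theta_diag (h : SS hU) :
    theta hU (h : GG U) = ((fun _ => h : ℕ → SS hU) : (U : Filter ℕ).Germ (SS hU)) := by
  obtain ⟨k, rfl⟩ := (isoS hU).surjective h
  rfl

theorem irreducible (z : (LG (GG U)).A)
    (hz : ∀ x : (LS (SS hU)).A, z * (LSincl (SS hU)).toHom x = (LSincl (SS hU)).toHom x * z) :
    ∃ c : ℂ, z = c • (1 : (LG (GG U)).A) := by
  have h := scalar_of_commute (x := z.1) z.2 (SS hU) (fun h hh => ?_) (fun g hg _ => ?_)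
  · exact ⟨_, Subtype.ext h⟩
  · have := hz ⟨leftReg h, leftReg_mem_LS hh⟩
    exact (congrArg Subtype.val this).symm
  · refine (GG_relICC hU hg).mono ?_
    rintro _ ⟨k, rfl⟩
    exact ⟨isoS hU k, rfl⟩

end Pool.Agent.ExT
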