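import Pool.Agent.ExT.Ind
import Pool.Agent.ExT.Haag

/-!
# `L(S)` is generated by the left translations by elements of `S`
-/

noncomputable section

namespace Pool.Agent.ExT

open scoped ENNReal InnerProductSpace ComplexOrder Topology
open Filter
open Pool.Agent.InnerAm (ell2 leftReg rightReg delta normSq_ell2 rightReg_apply leftReg_apply
  delta_apply rightReg_delta leftReg_delta norm_delta star_leftReg leftReg_rightReg_comm
  leftReg_mul_inv inner_leftReg)

universe u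

variable {G : Type u} [Group G]

/-- The span of the left translations by elements of `S`. -/
def spanS (S : Subgroup G) : Submodule ℂ (ell2 G →L[ℂ] ell2 G) :=
  Submodule.span ℂ (leftReg '' (S : Set G))

theorem spanS_le {S : Subgroup G} {x : ell2 G →L[ℂ] ell2 G} (hx : x ∈ spanS S) : x ∈ LSvn S := by
  refine Submodule.span_induction (p := fun x _ => x ∈ LSvn S) ?_ ?_ ?_ ?_ hx
  · rintro _ ⟨g, hg, rfl⟩
    exact leftReg_mem_LS hg
  · exact zero_mem _
  · intro x y _ _ hx hy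
    exact add_mem hx hy
  · intro c x _ hx
    exact (LSvn S).toStarSubalgebra.smul_mem hx c

theorem star_mem_spanS {S : Subgroup G} {x : ell2 G →L[ℂ] ell2 G} (hx : x ∈ spanS S) :
    star x ∈ spanS S := by
  refine Submodule.span_induction (p := fun x _ => star x ∈ spanS S) ?_ ?_ ?_ ?_ hx
  · rintro _ ⟨g, hg, rfl⟩
    rw [star_leftReg]
    exact Submodule.subset_span ⟨g⁻¹, inv_mem hg, rfl⟩
  · rw [star_zero]; exact zero_mem _
  · intro x y _ _ hx hy
    rw [star_add]
    exact add_mem hx hy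
  · intro c x _ hx
    rw [star_smul]
    exact Submodule.smul_mem _ _ hx

theorem exists_spanS_near {S : Subgroup G} {y : ell2 G →L[ℂ] ell2 G} (hy : y ∈ LSvn S)
    {ε : ℝ} (hε : 0 < ε) :
    ∃ a ∈ spanS S, ‖a (delta (1 : G)) - y (delta (1 : G))‖ < ε := by
  have h := hasSum_delta (y (delta (1 : G)))
  have h1 := (Metric.tendsto_nhds.1 h) ε hε
  obtain ⟨s, hs⟩ := h1.exists
  refine ⟨∑ g ∈ s, (y (delta (1 : G)) : G → ℂ) g • leftReg g,
    Submodule.sum_mem _ fun g _ => ?_, ?_⟩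
  · by_cases hg : g ∈ S
    · exact Submodule.smul_mem _ _ (Submodule.subset_span ⟨g, hg, rfl⟩)
    · rw [LS_apply_eq_zero hy hg, zero_smul]
      exact zero_mem _
  · rw [dist_eq_norm] at hs
    have e : (∑ g ∈ s, (y (delta (1 : G)) : G → ℂ) g • leftReg g) (delta (1 : G)) =
        ∑ g ∈ s, (y (delta (1 : G)) : G → ℂ) g • delta g := by
      rw [sum_apply]
      refine Finset.sum_congr rfl fun g _ => ?_
      rw [smul_apply, leftReg_delta]
    rw [e]
    exact hs

theorem exists_spanS_near_sa {S : Subgroup G} {y : ell2 G →L[ℂ] ell2 G} (hy : y ∈ LSvn S)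
    (hys : IsSelfAdjoint y) {ε : ℝ} (hε : 0 < ε) :
    ∃ a ∈ spanS S, IsSelfAdjoint a ∧ ‖(a - y) (delta (1 : G))‖ < ε := by
  obtain ⟨a, ha, hay⟩ := exists_spanS_near hy hε
  refine ⟨(2⁻¹ : ℂ) • (a + star a), Submodule.smul_mem _ _ (add_mem ha (star_mem_spanS ha)),
    ?_, ?_⟩
  · rw [IsSelfAdjoint, star_smul, star_add, star_star, add_comm]
    congr 1
    simp
  · have e : (2⁻¹ : ℂ) • (a + star a) - y = (2⁻¹ : ℂ) • ((a - y) + star (a - y)) := by
      rw [star_sub, hys.star_eq]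
      module
    rw [e, smul_apply, add_apply, norm_smul]
    have h1 : ‖star (a - y) (delta (1 : G))‖ = ‖(a - y) (delta (1 : G))‖ :=
      TracialVNA.norm_star_Ω (N := LS S) (sub_mem (spanS_le ha) hy)
    have h2 : ‖(a - y) (delta (1 : G))‖ < ε := by rw [sub_apply]; exact hay
    have h3 : ‖(2⁻¹ : ℂ)‖ = 2⁻¹ := by norm_num
    have h4 := norm_add_le ((a - y) (delta (1 : G))) (star (a - y) (delta (1 : G)))
    rw [h3]
    linarith

theorem tendsto_apply {x : ℕ → ell2 G →L[ℂ] ell2 G} {y : ell2 G →L[ℂ] ell2 G}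
    (hx : ∀ n, x n ∈ LGvn G) (hy : y ∈ LGvn G) (hx1 : ∀ n, ‖x n‖ ≤ 1)
    (hlim : Tendsto (fun n => ‖(x n - y) (delta (1 : G))‖) atTop (𝓝 0)) (ξ : ell2 G) :
    Tendsto (fun n => x n ξ) atTop (𝓝 (y ξ)) := by
  have h1 : ∀ g : G, Tendsto (fun n => (x n - y) (delta g)) atTop (𝓝 0) := by
    intro g
    rw [tendsto_zero_iff_norm_tendsto_zero]
    refine hlim.congr fun n => ?_
    have h2 : (x n - y) (delta g) = rightReg g⁻¹ ((x n - y) (delta (1 : G))) := by
      have h3 : x n - y ∈ LGvn G := sub_mem (hx n) hy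
      have h4 := DFunLike.congr_fun (mem_LGvn.1 h3 g⁻¹) (delta (1 : G))
      rw [← rightReg_delta g]
      exact h4.symm
    rw [h2]
    exact ((Pool.Agent.InnerAm.compEquiv (Equiv.mulRight g⁻¹)).norm_map _).symm
  have h2 : Tendsto (fun n => (x n - y) ξ) atTop (𝓝 0) := by
    rw [Metric.tendsto_nhds]
    intro ε hε
    have hC : 0 < 1 + ‖y‖ := by positivity
    have hxy : ∀ n, ‖x n - y‖ ≤ 1 + ‖y‖ := fun n =>
      (norm_sub_le _ _).trans (add_le_add (hx1 n) le_rfl)
    obtain ⟨s, hs⟩ := ((Metric.tendsto_nhds.1 (hasSum_delta ξ)) (ε / (2 * (1 + ‖y‖)))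
      (by positivity)).exists
    rw [dist_eq_norm, norm_sub_rev] at hs
    have h3 : Tendsto (fun n => ∑ g ∈ s, (ξ : G → ℂ) g • (x n - y) (delta g)) atTop (𝓝 0) := by
      have := tendsto_finsetSum s fun g (_ : g ∈ s) => (h1 g).const_smul ((ξ : G → ℂ) g)
      simpa only [smul_zero, Finset.sum_const_zero] using this
    filter_upwards [(Metric.tendsto_nhds.1 h3) (ε / 2) (half_pos hε)] with n hn
    rw [dist_zero_right] at hn ⊢
    have e : (x n - y) ξ = (x n - y) (ξ - ∑ g ∈ s, (ξ : G → ℂ) g • delta g) +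
        ∑ g ∈ s, (ξ : G → ℂ) g • (x n - y) (delta g) := by
      rw [map_sub, map_sum]
      simp only [map_smul]
      abel
    rw [e]
    refine (norm_add_le _ _).trans_lt ?_
    have h4 : ‖(x n - y) (ξ - ∑ g ∈ s, (ξ : G → ℂ) g • delta g)‖ ≤
        (1 + ‖y‖) * ‖ξ - ∑ g ∈ s, (ξ : G → ℂ) g • delta g‖ :=
      ((x n - y).le_opNorm _).trans (mul_le_mul_of_nonneg_right (hxy n) (norm_nonneg _))
    rw [lt_div_iff₀ (by positivity)] at hs
    nlinarith
  have h3 := h2.add_const (y ξ)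
  simpa only [sub_apply, sub_add_cancel, zero_add] using h3

/-- `L(S)` is contained in every von Neumann algebra that contains the left translations by
elements of `S`. -/
theorem LSvn_generate (S : Subgroup G) (Q : VonNeumannAlgebra (ell2 G))
    (hQ : ∀ g ∈ S, leftReg g ∈ Q) : ∀ x ∈ LSvn S, x ∈ Q := by
  have hsmul : ∀ (c : ℂ) {z : ell2 G →L[ℂ] ell2 G}, z ∈ Q → c • z ∈ Q :=
    fun c z hz => Q.toStarSubalgebra.smul_mem hz c
  have hlim : ∀ (x : ℕ → ell2 G →L[ℂ] ell2 G) (y : ell2 G →L[ℂ] ell2 G),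
      (∀ n, x n ∈ LGvn G) → y ∈ LGvn G → (∀ n, ‖x n‖ ≤ 1) →
      Tendsto (fun n => ‖(x n - y) (delta (1 : G))‖) atTop (𝓝 0) → (∀ n, x n ∈ Q) → y ∈ Q := by
    intro x y hx hy hx1 hlim hxQ
    have key : y ∈ Set.centralizer (Set.centralizer (Q : Set (ell2 G →L[ℂ] ell2 G))) := by
      intro z hz
      refine ContinuousLinearMap.ext fun ξ => ?_
      have h1 := tendsto_apply hx hy hx1 hlim ξ
      have h2 := tendsto_apply hx hy hx1 hlim (z ξ)
      have h3 : Tendsto (fun n => z (x n ξ)) atTop (𝓝 (z (y ξ))) :=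
        (z.continuous.tendsto _).comp h1
      have h4 : ∀ n, z (x n ξ) = x n (z ξ) := fun n =>
        (DFunLike.congr_fun (hz (x n) (hxQ n)) ξ).symm
      simp only [h4] at h3
      exact tendsto_nhds_unique h3 h2
    exact (Set.ext_iff.1 Q.centralizer_centralizer' _).1 key
  have hspan : ∀ a ∈ spanS S, a ∈ Q := by
    intro a ha
    refine Submodule.span_induction (p := fun x _ => x ∈ Q) ?_ ?_ ?_ ?_ ha
    · rintro _ ⟨g, hg, rfl⟩
      exact hQ g hg
    · exact zero_mem _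
    · intro x y _ _ hx hy
      exact add_mem hx hy
    · intro c x _ hx
      exact hsmul c hx
  have hsa1 : ∀ x ∈ LSvn S, IsSelfAdjoint x → ‖x‖ ≤ 1 → x ∈ Q := by
    intro x hx hxs hx1
    have hy : ibd x ∈ LSvn S := cfc_mem _ hx _
    have hys : IsSelfAdjoint (ibd x) := cfc_predicate _ x
    have hch : ∀ n : ℕ, ∃ a ∈ spanS S, IsSelfAdjoint a ∧
        ‖(a - ibd x) (delta (1 : G))‖ < 1 / ((n : ℝ) + 1) := fun n =>
      exists_spanS_near_sa hy hys (by positivity)
    choose a ha has hay using hch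
    refine hlim (fun n => bd (a n)) x (fun n => cfc_mem _ (LSvn_le S (spanS_le (ha n))) _)
      (LSvn_le S hx) (fun n => norm_bd_le _) ?_ (fun n => cfc_mem Q (hspan _ (ha n)) _)
    have hlim0 : Tendsto (fun n : ℕ => 5 / 2 * (1 / ((n : ℝ) + 1))) atTop (𝓝 0) := by
      have := (tendsto_one_div_add_atTop_nhds_zero_nat (𝕜 := ℝ)).const_mul (5 / 2)
      rwa [mul_zero] at this
    refine squeeze_zero (fun n => norm_nonneg _) (fun n => ?_) hlim0
    have h1 : ‖(bd (a n) - bd (ibd x)) (delta (1 : G))‖ ≤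
        5 / 2 * ‖(a n - ibd x) (delta (1 : G))‖ :=
      TracialVNA.norm_bd_sub_le (N := LS S) (x := a n) (y := ibd x) (spanS_le (ha n)) hy
      (has n) hys
    rw [bd_ibd hxs hx1] at h1
    refine h1.trans ?_
    have := (hay n).le
    exact mul_le_mul_of_nonneg_left this (by norm_num)
  have hsmem : ∀ (c : ℂ) {z : ell2 G →L[ℂ] ell2 G}, z ∈ LSvn S → c • z ∈ LSvn S :=
    fun c z hz => (LSvn S).toStarSubalgebra.smul_mem hz c
  have hsa : ∀ x ∈ LSvn S, IsSelfAdjoint x → x ∈ Q := by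
    intro x hx hxs
    set c : ℝ := ‖x‖ + 1 with hc
    have hc0 : 0 < c := by positivity
    have h1 : ((c⁻¹ : ℝ) : ℂ) • x ∈ Q := by
      refine hsa1 _ (hsmem _ hx) ?_ ?_
      · rw [IsSelfAdjoint, star_smul, hxs.star_eq]
        congr 1
        simp
      · rw [norm_smul, Complex.norm_real, norm_inv, Real.norm_of_nonneg hc0.le,
          inv_mul_le_one₀ hc0]
        linarith
    have h2 := hsmul (c : ℂ) h1
    rw [smul_smul, ← Complex.ofReal_mul, mul_inv_cancel₀ hc0.ne', Complex.ofReal_one,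
      one_smul] at h2
    exact h2
  intro x hx
  have e : x = (2⁻¹ : ℂ) • (x + star x) + (2⁻¹ : ℂ) • (x + (-1 : ℂ) • star x) := by
    rw [← smul_add]
    have : x + star x + (x + (-1 : ℂ) • star x) = (2 : ℂ) • x := by
      rw [two_smul, neg_one_smul]; abel
    rw [this, smul_smul]
    norm_num
  have hsx : star x ∈ LSvn S := star_mem hx
  have h1 : x + star x ∈ Q := by
    refine hsa _ (add_mem hx hsx) ?_
    rw [IsSelfAdjoint, star_add, star_star, add_comm]
  have h2 : Complex.I • (x + (-1 : ℂ) • star x) ∈ Q := by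
    refine hsa _ (hsmem _ (add_mem hx (hsmem _ hsx))) ?_
    rw [IsSelfAdjoint, star_smul, star_add, star_smul, star_star]
    simp
    abel
  have h3 := hsmul (-Complex.I) h2
  rw [smul_smul, neg_mul, Complex.I_mul_I, neg_neg, one_smul] at h3
  rw [e]
  exact add_mem (hsmul _ h1) (hsmul _ h3)

theorem LGvn_le_top {x : ell2 G →L[ℂ] ell2 G} (hx : x ∈ LGvn G) : x ∈ LSvn (⊤ : Subgroup G) := by
  have h1 : mulInd ((⊤ : Subgroup G) : Set G) = 1 := by
    classical
    refine ContinuousLinearMap.ext fun ξ => ?_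
    ext g
    rw [mulInd_apply, if_pos (show g ∈ ((⊤ : Subgroup G) : Set G) from trivial)]
    rfl
  rw [LSvn, mem_commVN]
  rintro y (⟨g, rfl⟩ | rfl)
  · rw [star_rightReg]
    exact ⟨mem_LGvn.1 hx g, mem_LGvn.1 hx g⁻¹⟩
  · rw [h1, star_one, one_mul, mul_one]
    exact ⟨rfl, rfl⟩

theorem LGvn_generate (Q : VonNeumannAlgebra (ell2 G)) (hQ : ∀ g, leftReg g ∈ Q) :
    ∀ x ∈ LGvn G, x ∈ Q := fun x hx =>
  LSvn_generate ⊤ Q (fun g _ => hQ g) x (LGvn_le_top hx)

end Pool.Agent.ExT
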