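import Pool.Agent.ExT.Defs

/-!
# A spectral gap criterion for property (T)
-/

noncomputable section

namespace Pool.Agent.ExT

open scoped InnerProductSpace ComplexOrder Topology
open Filter

universe u v

section Abstract

variable {K : Type v} [NormedAddCommGroup K] [InnerProductSpace ℂ K]


/-- Data: `P`, `Q`, `E` are projections, `E` commutes with `P`, `Q`, on the range of `E` the
projections `P` and `Q` commute, and on the kernel of `E` they have angle `ε`. -/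
structure AngleData (P Q E : K →L[ℂ] K) (ε : ℝ) : Prop where
  P_symm : ∀ x y, ⟪P x, y⟫_ℂ = ⟪x, P y⟫_ℂ
  Q_symm : ∀ x y, ⟪Q x, y⟫_ℂ = ⟪x, Q y⟫_ℂ
  E_symm : ∀ x y, ⟪E x, y⟫_ℂ = ⟪x, E y⟫_ℂ
  P_idem : ∀ x, P (P x) = P x
  Q_idem : ∀ x, Q (Q x) = Q x
  E_idem : ∀ x, E (E x) = E x
  PE : ∀ x, P (E x) = E (P x)
  QE : ∀ x, Q (E x) = E (Q x)
  PQE : ∀ x, P (Q (E x)) = Q (P (E x))
  angle : ∀ x, P x = x → E x = 0 → ‖Q x‖ ≤ ε * ‖x‖

theorem re_inner_symm (x y : K) : Complex.re (inner ℂ x y) = Complex.re (inner ℂ y x) := by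
  rw [← inner_conj_symm, Complex.conj_re]

theorem re_inner_self (x : K) : Complex.re (inner ℂ x x) = ‖x‖ ^ 2 := by
  rw [inner_self_eq_norm_sq_to_K]
  norm_cast

theorem norm_add_sq_re (x y : K) : ‖x + y‖ ^ 2 = ‖x‖ ^ 2 + 2 * Complex.re (inner ℂ x y) + ‖y‖ ^ 2 := by
  have := @norm_add_sq ℂ K _ _ _ x y
  exact this

theorem re_inner_le (x y : K) : Complex.re (inner ℂ x y) ≤ ‖x‖ * ‖y‖ := by
  have h := norm_inner_le_norm (𝕜 := ℂ) x y
  exact (Complex.re_le_norm _).trans h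

theorem neg_le_re_inner (x y : K) : -(‖x‖ * ‖y‖) ≤ Complex.re (inner ℂ x y) := by
  have h := norm_inner_le_norm (𝕜 := ℂ) x y
  have h2 := (abs_le.1 (Complex.abs_re_le_norm (inner ℂ x y))).1
  linarith

namespace AngleData

variable {P Q E : K →L[ℂ] K} {ε : ℝ} (h : AngleData P Q E ε)

include h

theorem inner_PQ {x y : K} (hx : P x = x) (hEx : E x = 0) (hy : Q y = y) :
    Complex.re (inner ℂ x y) ≤ ε * (‖x‖ * ‖y‖) := by
  have e : ⟪x, y⟫_ℂ = ⟪Q x, y⟫_ℂ := by rw [h.Q_symm, hy]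
  rw [e]
  refine (re_inner_le _ _).trans ?_
  rw [← mul_assoc]
  exact mul_le_mul_of_nonneg_right (h.angle x hx hEx) (norm_nonneg _)

theorem normSq_P (v : K) : Complex.re (inner ℂ (P v) v) = ‖P v‖ ^ 2 := by
  rw [← re_inner_self, ← h.P_symm, h.P_idem]

theorem normSq_Q (v : K) : Complex.re (inner ℂ (Q v) v) = ‖Q v‖ ^ 2 := by
  rw [← re_inner_self, ← h.Q_symm, h.Q_idem]

/-- The bound `‖P v‖² + ‖Q v‖² ≤ (1 + ε) ‖v‖²` for `v` in the kernel of `E`. -/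
theorem sum_le (hε : 0 ≤ ε) {v : K} (hv : E v = 0) :
    ‖P v‖ ^ 2 + ‖Q v‖ ^ 2 ≤ (1 + ε) * ‖v‖ ^ 2 := by
  set B := ‖P v‖ ^ 2 + ‖Q v‖ ^ 2 with hB
  have hB0 : 0 ≤ B := by positivity
  have h1 : B = Complex.re (inner ℂ (P v + Q v) v) := by
    rw [inner_add_left, Complex.add_re, h.normSq_P, h.normSq_Q]
  have h2 : Complex.re (inner ℂ (P v) (Q v)) ≤ ε * (‖P v‖ * ‖Q v‖) :=
    h.inner_PQ (h.P_idem v) (by rw [← h.PE, hv, map_zero]) (h.Q_idem v)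
  have h3 : ‖P v + Q v‖ ^ 2 ≤ (1 + ε) * B := by
    rw [norm_add_sq_re]
    nlinarith [sq_nonneg (‖P v‖ - ‖Q v‖), norm_nonneg (P v), norm_nonneg (Q v)]
  have h4 : B ≤ ‖P v + Q v‖ * ‖v‖ := h1.le.trans (re_inner_le _ _)
  have h5 : B ^ 2 ≤ (1 + ε) * B * ‖v‖ ^ 2 := by
    calc B ^ 2 ≤ (‖P v + Q v‖ * ‖v‖) ^ 2 := by gcongr
      _ = ‖P v + Q v‖ ^ 2 * ‖v‖ ^ 2 := by ring
      _ ≤ (1 + ε) * B * ‖v‖ ^ 2 := by gcongr
  rcases hB0.eq_or_lt with h0 | h0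
  · rw [← h0]; positivity
  · have h6 : B * B ≤ B * ((1 + ε) * ‖v‖ ^ 2) := by nlinarith
    exact le_of_mul_le_mul_left h6 h0

/-- The key inequality. -/
theorem pair_ineq (hε : 0 ≤ ε) (hε1 : ε ≤ 1) (v : K) :
    -(ε * (‖v - P v‖ ^ 2 + ‖v - Q v‖ ^ 2)) ≤ 2 * Complex.re (inner ℂ (v - P v) (v - Q v)) := by
  -- decompose
  set v0 := E v with hv0
  set v1 := v - E v with hv1
  have hE0 : E v0 = v0 := h.E_idem v
  have hE1 : E v1 = 0 := by rw [hv1, map_sub, h.E_idem, sub_self]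
  have hsplit : v = v0 + v1 := by rw [hv0, hv1]; abel
  have orth : ∀ x y : K, E x = x → E y = 0 → ⟪x, y⟫_ℂ = 0 := by
    intro x y hx hy
    rw [← hx, h.E_symm, hy, inner_zero_right]
  have orth' : ∀ x y : K, E x = 0 → E y = y → ⟪x, y⟫_ℂ = 0 := by
    intro x y hx hy
    rw [← hy, ← h.E_symm, hx, inner_zero_left]
  have eP0 : E (v0 - P v0) = v0 - P v0 := by rw [map_sub, hE0, ← h.PE, hE0]
  have eQ0 : E (v0 - Q v0) = v0 - Q v0 := by rw [map_sub, hE0, ← h.QE, hE0]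
  have eP1 : E (v1 - P v1) = 0 := by rw [map_sub, hE1, ← h.PE, hE1, map_zero, sub_zero]
  have eQ1 : E (v1 - Q v1) = 0 := by rw [map_sub, hE1, ← h.QE, hE1, map_zero, sub_zero]
  have sP : v - P v = (v0 - P v0) + (v1 - P v1) := by
    conv_lhs => rw [hsplit, map_add]
    abel
  have sQ : v - Q v = (v0 - Q v0) + (v1 - Q v1) := by
    conv_lhs => rw [hsplit, map_add]
    abel
  have i1 : Complex.re (inner ℂ (v - P v) (v - Q v)) =
      Complex.re (inner ℂ (v0 - P v0) (v0 - Q v0)) + Complex.re (inner ℂ (v1 - P v1) (v1 - Q v1)) := by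
    rw [sP, sQ, inner_add_left, inner_add_right, inner_add_right,
      orth _ _ eP0 eQ1, orth' _ _ eP1 eQ0, add_zero, zero_add, Complex.add_re]
  have i2 : ‖v - P v‖ ^ 2 = ‖v0 - P v0‖ ^ 2 + ‖v1 - P v1‖ ^ 2 := by
    rw [sP, norm_add_sq_re, orth _ _ eP0 eP1]
    simp
  have i3 : ‖v - Q v‖ ^ 2 = ‖v0 - Q v0‖ ^ 2 + ‖v1 - Q v1‖ ^ 2 := by
    rw [sQ, norm_add_sq_re, orth _ _ eQ0 eQ1]
    simp
  -- part 0
  have p0 : 0 ≤ Complex.re (inner ℂ (v0 - P v0) (v0 - Q v0)) := by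
    have c1 : P (Q v0) = Q (P v0) := by
      have := h.PQE v0
      rwa [hE0] at this
    set w := v0 - P v0 - Q (v0 - P v0) with hw
    have hw' : w = (v0 - Q v0) - P (v0 - Q v0) := by
      rw [hw, map_sub, map_sub, c1]; abel
    have e1 : ⟪v0 - P v0, v0 - Q v0⟫_ℂ = ⟪v0 - P v0, w⟫_ℂ := by
      have e2 : ⟪v0 - P v0, P (v0 - Q v0)⟫_ℂ = 0 := by
        rw [← h.P_symm, map_sub, h.P_idem, sub_self, inner_zero_left]
      rw [hw', inner_sub_right _ _ (P (v0 - Q v0)), e2, sub_zero]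
    have e3 : ⟪Q (v0 - P v0), w⟫_ℂ = 0 := by
      rw [h.Q_symm, hw, map_sub, h.Q_idem, sub_self, inner_zero_right]
    have e4 : ⟪v0 - P v0, w⟫_ℂ = ⟪w, w⟫_ℂ := by
      conv_rhs => rw [hw, inner_sub_left, ← hw, e3, sub_zero]
    rw [e1, e4, re_inner_self]
    positivity
  -- part 1
  have p1 : -(ε * (‖v1 - P v1‖ ^ 2 + ‖v1 - Q v1‖ ^ 2)) ≤ 2 * Complex.re (inner ℂ (v1 - P v1) (v1 - Q v1)) := by
    set a := v1 - P v1 with ha
    set b := v1 - Q v1 with hb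
    have a1 : Complex.re (inner ℂ a v1) = ‖a‖ ^ 2 := by
      have : ⟪a, P v1⟫_ℂ = 0 := by
        rw [← h.P_symm, ha, map_sub, h.P_idem, sub_self, inner_zero_left]
      rw [← re_inner_self, ha, inner_sub_right _ v1 (P v1), ← ha, this, sub_zero]
    have b1 : Complex.re (inner ℂ b v1) = ‖b‖ ^ 2 := by
      have : ⟪b, Q v1⟫_ℂ = 0 := by
        rw [← h.Q_symm, hb, map_sub, h.Q_idem, sub_self, inner_zero_left]
      rw [← re_inner_self, hb, inner_sub_right _ v1 (Q v1), ← hb, this, sub_zero]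
    have a2 : ‖v1‖ ^ 2 = ‖a‖ ^ 2 + ‖P v1‖ ^ 2 := by
      have : ⟪a, P v1⟫_ℂ = 0 := by
        rw [← h.P_symm, ha, map_sub, h.P_idem, sub_self, inner_zero_left]
      have e : v1 = a + P v1 := by rw [ha]; abel
      conv_lhs => rw [e, norm_add_sq_re, this]
      simp
    have b2 : ‖v1‖ ^ 2 = ‖b‖ ^ 2 + ‖Q v1‖ ^ 2 := by
      have : ⟪b, Q v1⟫_ℂ = 0 := by
        rw [← h.Q_symm, hb, map_sub, h.Q_idem, sub_self, inner_zero_left]
      have e : v1 = b + Q v1 := by rw [hb]; abel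
      conv_lhs => rw [e, norm_add_sq_re, this]
      simp
    have hs := h.sum_le hε hE1
    set A := ‖a‖ ^ 2 + ‖b‖ ^ 2 with hA
    have hA0 : 0 ≤ A := by positivity
    have hA1 : (1 - ε) * ‖v1‖ ^ 2 ≤ A := by nlinarith
    have hA2 : A ≤ ‖a + b‖ * ‖v1‖ := by
      have : A = Complex.re (inner ℂ (a + b) v1) := by rw [inner_add_left, Complex.add_re, a1, b1]
      exact this.le.trans (re_inner_le _ _)
    have hA3 : (1 - ε) * A ≤ ‖a + b‖ ^ 2 := by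
      rcases hA0.eq_or_lt with h0 | h0
      · rw [← h0]; simp
      · have : A ^ 2 ≤ ‖a + b‖ ^ 2 * ‖v1‖ ^ 2 := by
          calc A ^ 2 ≤ (‖a + b‖ * ‖v1‖) ^ 2 := by gcongr
            _ = _ := by ring
        have h7 : (1 - ε) * A ^ 2 ≤ ‖a + b‖ ^ 2 * A := by
          calc (1 - ε) * A ^ 2 ≤ (1 - ε) * (‖a + b‖ ^ 2 * ‖v1‖ ^ 2) := by
                apply mul_le_mul_of_nonneg_left this; linarith
            _ = ‖a + b‖ ^ 2 * ((1 - ε) * ‖v1‖ ^ 2) := by ring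
            _ ≤ ‖a + b‖ ^ 2 * A := by gcongr
        have h8 : A * ((1 - ε) * A) ≤ A * ‖a + b‖ ^ 2 := by nlinarith
        exact le_of_mul_le_mul_left h8 h0
    rw [norm_add_sq_re] at hA3
    nlinarith
  rw [i1, i2, i3]
  nlinarith [sq_nonneg ‖v0 - P v0‖, sq_nonneg ‖v0 - Q v0‖]

end AngleData

/-- The sum inequality. -/
theorem sum_ineq {m : ℕ} (q : Fin m → K) {ε : ℝ}
    (h : ∀ i j, i ≠ j → -(ε * (‖q i‖ ^ 2 + ‖q j‖ ^ 2)) ≤ 2 * Complex.re (inner ℂ (q i) (q j))) :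
    (1 - (m - 1) * ε) * ∑ i, ‖q i‖ ^ 2 ≤ ‖∑ i, q i‖ ^ 2 := by
  have e1 : ‖∑ i, q i‖ ^ 2 = ∑ i, ∑ j, Complex.re (inner ℂ (q i) (q j)) := by
    rw [← re_inner_self, sum_inner, Complex.re_sum]
    refine Finset.sum_congr rfl fun i _ => ?_
    rw [inner_sum, Complex.re_sum]
  have e2 : ∀ i j, (if i = j then ‖q i‖ ^ 2 else -(ε / 2 * (‖q i‖ ^ 2 + ‖q j‖ ^ 2))) ≤
      Complex.re (inner ℂ (q i) (q j)) := by
    intro i j
    split_ifs with hij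
    · rw [hij, re_inner_self]
    · have := h i j hij
      linarith
  have e3 : ∑ i, ∑ j, (if i = j then ‖q i‖ ^ 2 else -(ε / 2 * (‖q i‖ ^ 2 + ‖q j‖ ^ 2))) ≤
      ‖∑ i, q i‖ ^ 2 := by
    rw [e1]
    exact Finset.sum_le_sum fun i _ => Finset.sum_le_sum fun j _ => e2 i j
  refine le_trans (le_of_eq ?_) e3
  have e4 : ∀ i j, (if i = j then ‖q i‖ ^ 2 else -(ε / 2 * (‖q i‖ ^ 2 + ‖q j‖ ^ 2))) =
      (if i = j then (1 + ε) * ‖q i‖ ^ 2 else 0) - ε / 2 * (‖q i‖ ^ 2 + ‖q j‖ ^ 2) := by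
    intro i j
    split_ifs with hij
    · rw [hij]; ring
    · ring
  simp_rw [e4, Finset.sum_sub_distrib]
  simp only [Finset.sum_ite_eq, Finset.mem_univ, if_true]
  simp_rw [← Finset.mul_sum, Finset.sum_add_distrib]
  simp only [Finset.sum_const, Finset.card_univ, Fintype.card_fin, nsmul_eq_mul]
  simp_rw [← Finset.mul_sum]
  ring

end Abstract

end Pool.Agent.ExT
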