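import Pool.Agent.ExT.Defs
import Pool.Agent.InnerAm.FromGamma

/-!
# Group von Neumann algebras as tracial von Neumann algebras
-/

noncomputable section

namespace Pool.Agent.ExT

open scoped ENNReal InnerProductSpace ComplexOrder Topology
open Pool.Agent.InnerAm (ell2 leftReg rightReg delta normSq_ell2 rightReg_apply leftReg_apply
  delta_apply rightReg_delta leftReg_delta norm_delta star_leftReg leftReg_rightReg_comm
  leftReg_mul_inv inner_leftReg)

universe u

section Commutant

variable {H : Type*} [NormedAddCommGroup H] [InnerProductSpace ℂ H] [CompleteSpace H]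

/-- The von Neumann algebra of operators commuting with `s` and the adjoints of `s`. -/
def commVN (s : Set (H →L[ℂ] H)) : VonNeumannAlgebra H where
  toStarSubalgebra := StarSubalgebra.centralizer ℂ s
  centralizer_centralizer' := by
    show Set.centralizer (Set.centralizer (Set.centralizer (_ ∪ star _))) =
      Set.centralizer (_ ∪ star _)
    rw [Set.centralizer_centralizer_centralizer]

theorem mem_commVN {s : Set (H →L[ℂ] H)} {x : H →L[ℂ] H} :
    x ∈ commVN s ↔ ∀ g ∈ s, g * x = x * g ∧ star g * x = x * star g :=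
  StarSubalgebra.mem_centralizer_iff ℂ

end Commutant

variable {G : Type u} [Group G]

theorem rightReg_mul_inv (g : G) (ξ : ell2 G) : rightReg g (rightReg g⁻¹ ξ) = ξ := by
  ext h
  rw [rightReg_apply, rightReg_apply]
  group

theorem inner_rightReg (g : G) (ξ η : ell2 G) : ⟪rightReg g ξ, rightReg g η⟫_ℂ = ⟪ξ, η⟫_ℂ :=
  (Pool.Agent.InnerAm.compEquiv (Equiv.mulRight g)).inner_map_map ξ η

theorem star_rightReg (g : G) : star (rightReg g) = rightReg g⁻¹ := by
  rw [ContinuousLinearMap.star_eq_adjoint]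
  symm
  rw [ContinuousLinearMap.eq_adjoint_iff]
  intro ξ η
  rw [← inner_rightReg g, rightReg_mul_inv]

omit [Group G] in
theorem norm_le_of_sq {ξ η : ell2 G} (h : ∀ g, ‖(ξ : G → ℂ) g‖ ≤ ‖(η : G → ℂ) g‖) :
    ‖ξ‖ ≤ ‖η‖ := by
  have h1 := normSq_ell2 ξ
  have h2 := normSq_ell2 η
  have h3 : ‖ξ‖ ^ 2 ≤ ‖η‖ ^ 2 := by
    rw [← h1.2, ← h2.2]
    refine h1.1.tsum_le_tsum (fun g => ?_) h2.1
    have := h g
    gcongr
  exact (pow_le_pow_iff_left₀ (norm_nonneg _) (norm_nonneg _) two_ne_zero).1 h3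

omit [Group G] in
open Classical in
theorem memlp_ind (s : Set G) (ξ : ell2 G) :
    Memℓp (fun g => if g ∈ s then (ξ : G → ℂ) g else 0) 2 := by
  have h := lp.memℓp ξ
  rw [memℓp_gen_iff (by norm_num)] at h ⊢
  refine Summable.of_nonneg_of_le (fun g => by positivity) (fun g => ?_) h
  split_ifs
  · rfl
  · rw [norm_zero, Real.zero_rpow (by norm_num)]; positivity

open Classical in
/-- Multiplication by the indicator function of `s`. -/
def mulInd (s : Set G) : ell2 G →L[ℂ] ell2 G :=
  LinearMap.mkContinuous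
    { toFun := fun ξ => ⟨fun g => if g ∈ s then (ξ : G → ℂ) g else 0, memlp_ind s ξ⟩
      map_add' := by
        intro ξ η
        ext g
        show (if g ∈ s then (ξ : G → ℂ) g + (η : G → ℂ) g else 0) =
          (if g ∈ s then (ξ : G → ℂ) g else 0) + (if g ∈ s then (η : G → ℂ) g else 0)
        split_ifs <;> simp
      map_smul' := by
        intro c ξ
        ext g
        show (if g ∈ s then c * (ξ : G → ℂ) g else 0) = c * (if g ∈ s then (ξ : G → ℂ) g else 0)
        split_ifs <;> simp } 1 (by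
    intro ξ
    rw [one_mul]
    refine norm_le_of_sq fun g => ?_
    show ‖(if g ∈ s then (ξ : G → ℂ) g else 0)‖ ≤ _
    split_ifs
    · rfl
    · rw [norm_zero]; positivity)

open Classical in
theorem mulInd_apply (s : Set G) (ξ : ell2 G) (g : G) :
    (mulInd s ξ : G → ℂ) g = if g ∈ s then (ξ : G → ℂ) g else 0 := rfl

/-- The group von Neumann algebra `L(G)`: the commutant of the right regular representation. -/
def LGvn (G : Type u) [Group G] : VonNeumannAlgebra (ell2 G) :=
  commVN (Set.range (rightReg (G := G)))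

/-- The subalgebra `L(S)` of `L(G)`, acting on `ell2 G`, for a subgroup `S`. -/
def LSvn (S : Subgroup G) : VonNeumannAlgebra (ell2 G) :=
  commVN (Set.range (rightReg (G := G)) ∪ {mulInd (S : Set G)})

theorem mem_LGvn {x : ell2 G →L[ℂ] ell2 G} :
    x ∈ LGvn G ↔ ∀ g, rightReg g * x = x * rightReg g := by
  rw [LGvn, mem_commVN]
  constructor
  · intro h g
    exact (h _ ⟨g, rfl⟩).1
  · rintro h _ ⟨g, rfl⟩
    rw [star_rightReg]
    exact ⟨h g, h g⁻¹⟩

theorem mem_LSvn_of {S : Subgroup G} {x : ell2 G →L[ℂ] ell2 G} (h : x ∈ LSvn S) :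
    (∀ g, rightReg g * x = x * rightReg g) ∧
      mulInd (S : Set G) * x = x * mulInd (S : Set G) := by
  rw [LSvn, mem_commVN] at h
  exact ⟨fun g => (h _ (Or.inl ⟨g, rfl⟩)).1, (h _ (Or.inr rfl)).1⟩

theorem LSvn_le (S : Subgroup G) {x : ell2 G →L[ℂ] ell2 G} (h : x ∈ LSvn S) : x ∈ LGvn G :=
  mem_LGvn.2 (mem_LSvn_of h).1

theorem apply_delta {x : ell2 G →L[ℂ] ell2 G} (hx : x ∈ LGvn G) (g k : G) :
    (x (delta g) : G → ℂ) k = (x (delta (1 : G)) : G → ℂ) (k * g⁻¹) := by
  rw [← rightReg_delta g]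
  have h := DFunLike.congr_fun (mem_LGvn.1 hx g⁻¹) (delta (1 : G))
  have h' : x (rightReg g⁻¹ (delta (1 : G))) = rightReg g⁻¹ (x (delta (1 : G))) := h.symm
  rw [h', rightReg_apply]

omit [Group G] in
theorem inner_delta_left (g : G) (η : ell2 G) : ⟪delta g, η⟫_ℂ = (η : G → ℂ) g := by
  classical
  unfold delta
  rw [lp.inner_single_left]
  simp

omit [Group G] in
theorem inner_delta_right (g : G) (η : ell2 G) :
    ⟪η, delta g⟫_ℂ = (starRingEnd ℂ) ((η : G → ℂ) g) := by
  rw [← inner_conj_symm, inner_delta_left]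

theorem star_apply_delta {x : ell2 G →L[ℂ] ell2 G} (hx : x ∈ LGvn G) (g : G) :
    (star x (delta (1 : G)) : G → ℂ) g = (starRingEnd ℂ) ((x (delta (1 : G)) : G → ℂ) g⁻¹) := by
  rw [← inner_delta_left, ContinuousLinearMap.star_eq_adjoint,
    ContinuousLinearMap.adjoint_inner_right, inner_delta_right, apply_delta hx, one_mul]

theorem LG_trace {x y : ell2 G →L[ℂ] ell2 G} (hx : x ∈ LGvn G) (hy : y ∈ LGvn G) :
    ⟪delta (1 : G), (x * y) (delta (1 : G))⟫_ℂ = ⟪delta (1 : G), (y * x) (delta (1 : G))⟫_ℂ := by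
  have key : ∀ {x y : ell2 G →L[ℂ] ell2 G} (hx : x ∈ LGvn G) (hy : y ∈ LGvn G),
      ⟪delta (1 : G), (x * y) (delta (1 : G))⟫_ℂ =
        ∑' g, (x (delta (1 : G)) : G → ℂ) g⁻¹ * (y (delta (1 : G)) : G → ℂ) g := by
    intro x y hx hy
    have e : ⟪delta (1 : G), (x * y) (delta (1 : G))⟫_ℂ =
        ⟪star x (delta (1 : G)), y (delta (1 : G))⟫_ℂ := by
      rw [ContinuousLinearMap.star_eq_adjoint, ContinuousLinearMap.adjoint_inner_left]
      rfl
    rw [e, lp.inner_eq_tsum]
    refine tsum_congr fun g => ?_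
    rw [star_apply_delta hx, RCLike.inner_apply, Complex.conj_conj, mul_comm]
  rw [key hx hy, key hy hx, ← (Equiv.inv G).tsum_eq]
  refine tsum_congr fun g => ?_
  rw [Equiv.inv_apply, inv_inv, mul_comm]

omit [Group G] in
theorem hasSum_delta (ξ : ell2 G) : HasSum (fun g => (ξ : G → ℂ) g • delta g) ξ := by
  classical
  have h := lp.hasSum_single (p := 2) (by norm_num) ξ
  convert h using 1
  funext g
  unfold delta
  rw [← lp.single_smul]
  congr 1
  simp

omit [Group G] in
theorem ext_delta {x y : ell2 G →L[ℂ] ell2 G} (h : ∀ g, x (delta g) = y (delta g)) : x = y := by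
  refine ContinuousLinearMap.ext fun ξ => ?_
  have h1 := (hasSum_delta ξ).mapL x
  have h2 := (hasSum_delta ξ).mapL y
  simp only [map_smul] at h1 h2
  simp only [h] at h1
  exact h1.unique h2

theorem eq_of_delta_one {x y : ell2 G →L[ℂ] ell2 G} (hx : x ∈ LGvn G) (hy : y ∈ LGvn G)
    (h : x (delta (1 : G)) = y (delta (1 : G))) : x = y := by
  refine ext_delta fun g => ?_
  ext k
  rw [apply_delta hx, apply_delta hy, h]

/-- `L(G)` as a tracial von Neumann algebra. -/
def LG (G : Type u) [Group G] : TracialVNA (ell2 G) where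
  alg := LGvn G
  Ω := delta (1 : G)
  norm_Ω := norm_delta 1
  trace := fun _ hx _ hy => LG_trace hx hy
  faithful := fun x hx h => eq_of_delta_one hx (zero_mem _) (by rw [h]; rfl)

/-- `L(S)` as a tracial von Neumann algebra, acting on `ell2 G`. -/
def LS (S : Subgroup G) : TracialVNA (ell2 G) where
  alg := LSvn S
  Ω := delta (1 : G)
  norm_Ω := norm_delta 1
  trace := fun _ hx _ hy => LG_trace (LSvn_le S hx) (LSvn_le S hy)
  faithful := fun x hx h => eq_of_delta_one (LSvn_le S hx) (zero_mem _) (by rw [h]; rfl)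

theorem leftReg_mem_LG (g : G) : leftReg g ∈ LGvn G :=
  mem_LGvn.2 fun h => (leftReg_rightReg_comm g h).symm

theorem leftReg_mem_LS {S : Subgroup G} {g : G} (hg : g ∈ S) : leftReg g ∈ LSvn S := by
  have h1 : ∀ g ∈ S, mulInd (S : Set G) * leftReg g = leftReg g * mulInd (S : Set G) := by
    intro g hg
    refine ContinuousLinearMap.ext fun ξ => ?_
    ext k
    show (mulInd (S : Set G) (leftReg g ξ) : G → ℂ) k =
      (leftReg g (mulInd (S : Set G) ξ) : G → ℂ) k
    rw [mulInd_apply, leftReg_apply, leftReg_apply, mulInd_apply]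
    have : k ∈ (S : Set G) ↔ g⁻¹ * k ∈ (S : Set G) := by
      rw [SetLike.mem_coe, SetLike.mem_coe, Subgroup.mul_mem_cancel_left _ (inv_mem hg)]
    by_cases hk : k ∈ (S : Set G)
    · rw [if_pos hk, if_pos (this.1 hk)]
    · rw [if_neg hk, if_neg (fun h => hk (this.2 h))]
  rw [LSvn, mem_commVN]
  rintro x (⟨h, rfl⟩ | rfl)
  · rw [star_rightReg]
    exact ⟨(leftReg_rightReg_comm g h).symm, (leftReg_rightReg_comm g h⁻¹).symm⟩
  · refine ⟨h1 g hg, ?_⟩
    have h2 := congrArg star (h1 g⁻¹ (inv_mem hg))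
    rw [star_mul, star_mul, star_leftReg, inv_inv] at h2
    exact h2.symm

theorem LS_apply_eq_zero {S : Subgroup G} {x : ell2 G →L[ℂ] ell2 G} (hx : x ∈ LSvn S) {g : G}
    (hg : g ∉ S) : (x (delta (1 : G)) : G → ℂ) g = 0 := by
  have h := DFunLike.congr_fun (mem_LSvn_of hx).2 (delta (1 : G))
  have h1 : mulInd (S : Set G) (delta (1 : G)) = delta 1 := by
    ext k
    rw [mulInd_apply, delta_apply]
    by_cases hk : k = 1
    · subst hk
      simp [one_mem]
    · simp [hk]
  have h2 : mulInd (S : Set G) (x (delta (1 : G))) = x (delta 1) := by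
    have : (mulInd (S : Set G) * x) (delta (1 : G)) = (x * mulInd (S : Set G)) (delta 1) := h
    calc mulInd (S : Set G) (x (delta (1 : G))) = (mulInd (S : Set G) * x) (delta (1 : G)) := rfl
      _ = x (mulInd (S : Set G) (delta 1)) := this
      _ = x (delta 1) := by rw [h1]
  rw [← h2, mulInd_apply, if_neg (show g ∉ (S : Set G) from hg)]

/-- The inclusion `L(S) → L(G)`. -/
def LSincl (S : Subgroup G) : TracialVNA.Embedding (LS S) (LG G) where
  toHom :=
    { toFun := fun x => ⟨x.1, LSvn_le S x.2⟩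
      map_one' := rfl
      map_mul' := fun _ _ => rfl
      map_zero' := rfl
      map_add' := fun _ _ => rfl
      commutes' := fun _ => rfl
      map_star' := fun _ => rfl }
  trace := fun _ => rfl

end Pool.Agent.ExT
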