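import Pool.Agent.ExT.Kap
import Pool.Agent.ExT.LG

/-!
# A Kaplansky-type induction principle for `L(G)`
-/

noncomputable section

namespace Pool.Agent.ExT

open scoped ENNReal InnerProductSpace ComplexOrder Topology
open Filter
open Pool.Agent.InnerAm (ell2 leftReg rightReg delta normSq_ell2 rightReg_apply leftReg_apply
  delta_apply rightReg_delta leftReg_delta norm_delta star_leftReg leftReg_rightReg_comm
  leftReg_mul_inv inner_leftReg)

universe u

variable {G : Type u} [Group G]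

/-- The span of the left translations. -/
def spanL (G : Type u) [Group G] : Submodule ℂ (ell2 G →L[ℂ] ell2 G) :=
  Submodule.span ℂ (Set.range (leftReg (G := G)))

theorem spanL_le {x : ell2 G →L[ℂ] ell2 G} (hx : x ∈ spanL G) : x ∈ LGvn G := by
  refine Submodule.span_induction (p := fun x _ => x ∈ LGvn G) ?_ ?_ ?_ ?_ hx
  · rintro _ ⟨g, rfl⟩
    exact leftReg_mem_LG g
  · exact zero_mem _
  · intro x y _ _ hx hy
    exact add_mem hx hy
  · intro c x _ hx
    exact (LGvn G).toStarSubalgebra.smul_mem hx c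

theorem star_mem_spanL {x : ell2 G →L[ℂ] ell2 G} (hx : x ∈ spanL G) : star x ∈ spanL G := by
  refine Submodule.span_induction (p := fun x _ => star x ∈ spanL G) ?_ ?_ ?_ ?_ hx
  · rintro _ ⟨g, rfl⟩
    rw [star_leftReg]
    exact Submodule.subset_span ⟨g⁻¹, rfl⟩
  · rw [star_zero]; exact zero_mem _
  · intro x y _ _ hx hy
    rw [star_add]
    exact add_mem hx hy
  · intro c x _ hx
    rw [star_smul]
    exact Submodule.smul_mem _ _ hx

theorem exists_spanL_near (ξ : ell2 G) {ε : ℝ} (hε : 0 < ε) :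
    ∃ a ∈ spanL G, ‖a (delta (1 : G)) - ξ‖ < ε := by
  have h := hasSum_delta ξ
  have h1 := (Metric.tendsto_nhds.1 h) ε hε
  obtain ⟨s, hs⟩ := h1.exists
  refine ⟨∑ g ∈ s, (ξ : G → ℂ) g • leftReg g,
    Submodule.sum_mem _ fun g _ => Submodule.smul_mem _ _ (Submodule.subset_span ⟨g, rfl⟩), ?_⟩
  rw [dist_eq_norm] at hs
  have e : (∑ g ∈ s, (ξ : G → ℂ) g • leftReg g) (delta (1 : G)) =
      ∑ g ∈ s, (ξ : G → ℂ) g • delta g := by
    rw [sum_apply]
    refine Finset.sum_congr rfl fun g _ => ?_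
    rw [smul_apply, leftReg_delta]
  rw [e]
  exact hs

theorem exists_spanL_near_sa {y : ell2 G →L[ℂ] ell2 G} (hy : y ∈ LGvn G)
    (hys : IsSelfAdjoint y) {ε : ℝ} (hε : 0 < ε) :
    ∃ a ∈ spanL G, IsSelfAdjoint a ∧ ‖(a - y) (delta (1 : G))‖ < ε := by
  obtain ⟨a, ha, hay⟩ := exists_spanL_near (y (delta (1 : G))) hε
  refine ⟨(2⁻¹ : ℂ) • (a + star a), Submodule.smul_mem _ _ (add_mem ha (star_mem_spanL ha)),
    ?_, ?_⟩
  · rw [IsSelfAdjoint, star_smul, star_add, star_star, add_comm]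
    congr 1
    simp
  · have e : (2⁻¹ : ℂ) • (a + star a) - y = (2⁻¹ : ℂ) • ((a - y) + star (a - y)) := by
      rw [star_sub, hys.star_eq]
      module
    rw [e, smul_apply, add_apply, norm_smul]
    have h1 : ‖star (a - y) (delta (1 : G))‖ = ‖(a - y) (delta (1 : G))‖ :=
      TracialVNA.norm_star_Ω (N := LG G) (sub_mem (spanL_le ha) hy)
    have h2 : ‖(a - y) (delta (1 : G))‖ < ε := by rw [sub_apply]; exact hay
    have h3 : ‖(2⁻¹ : ℂ)‖ = 2⁻¹ := by norm_num
    have h4 := norm_add_le ((a - y) (delta (1 : G))) (star (a - y) (delta (1 : G)))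
    rw [h3]
    linarith

theorem LG_induction {P : (ell2 G →L[ℂ] ell2 G) → Prop}
    (hleft : ∀ g : G, P (leftReg g))
    (hadd : ∀ x ∈ LGvn G, ∀ y ∈ LGvn G, P x → P y → P (x + y))
    (hsmul : ∀ (c : ℂ), ∀ x ∈ LGvn G, P x → P (c • x))
    (hmul : ∀ x ∈ LGvn G, ∀ y ∈ LGvn G, P x → P y → P (x * y))
    (hres : ∀ x ∈ LGvn G, IsSelfAdjoint x → P x → P (res x))
    (hlim : ∀ (x : ℕ → ell2 G →L[ℂ] ell2 G) (y : ell2 G →L[ℂ] ell2 G),
      (∀ n, x n ∈ LGvn G) → y ∈ LGvn G → (∀ n, ‖x n‖ ≤ 1) →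
      Tendsto (fun n => ‖(x n - y) (delta (1 : G))‖) atTop (𝓝 0) → (∀ n, P (x n)) → P y) :
    ∀ x ∈ LGvn G, P x := by
  have hspan : ∀ a ∈ spanL G, P a := by
    intro a ha
    refine Submodule.span_induction (p := fun x _ => P x) ?_ ?_ ?_ ?_ ha
    · rintro _ ⟨g, rfl⟩
      exact hleft g
    · have := hsmul 0 _ (leftReg_mem_LG (1 : G)) (hleft 1)
      rwa [zero_smul] at this
    · intro x y hx hy h1 h2
      exact hadd x (spanL_le hx) y (spanL_le hy) h1 h2
    · intro c x hx h1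
      exact hsmul c x (spanL_le hx) h1
  have hbd : ∀ a ∈ spanL G, IsSelfAdjoint a → P (bd a) := by
    intro a ha has
    rw [bd_eqC has]
    have hra : res a ∈ LGvn G := cfc_mem _ (spanL_le ha) _
    exact hsmul _ _ (mul_mem (spanL_le ha) hra)
      (hmul _ (spanL_le ha) _ hra (hspan a ha) (hres a (spanL_le ha) has (hspan a ha)))
  have hsa1 : ∀ x ∈ LGvn G, IsSelfAdjoint x → ‖x‖ ≤ 1 → P x := by
    intro x hx hxs hx1
    have hy : ibd x ∈ LGvn G := cfc_mem _ hx _
    have hys : IsSelfAdjoint (ibd x) := cfc_predicate _ x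
    have hch : ∀ n : ℕ, ∃ a ∈ spanL G, IsSelfAdjoint a ∧
        ‖(a - ibd x) (delta (1 : G))‖ < 1 / ((n : ℝ) + 1) := fun n =>
      exists_spanL_near_sa hy hys (by positivity)
    choose a ha has hay using hch
    refine hlim (fun n => bd (a n)) x (fun n => cfc_mem _ (spanL_le (ha n)) _) hx
      (fun n => norm_bd_le _) ?_ (fun n => hbd _ (ha n) (has n))
    have hlim0 : Tendsto (fun n : ℕ => 5 / 2 * (1 / ((n : ℝ) + 1))) atTop (𝓝 0) := by
      have := (tendsto_one_div_add_atTop_nhds_zero_nat (𝕜 := ℝ)).const_mul (5 / 2)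
      rwa [mul_zero] at this
    refine squeeze_zero (fun n => norm_nonneg _) (fun n => ?_) hlim0
    have h1 : ‖(bd (a n) - bd (ibd x)) (delta (1 : G))‖ ≤
        5 / 2 * ‖(a n - ibd x) (delta (1 : G))‖ :=
      TracialVNA.norm_bd_sub_le (N := LG G) (x := a n) (y := ibd x) (spanL_le (ha n)) hy
      (has n) hys
    rw [bd_ibd hxs hx1] at h1
    refine h1.trans ?_
    have := (hay n).le
    exact mul_le_mul_of_nonneg_left this (by norm_num)
  have hsa : ∀ x ∈ LGvn G, IsSelfAdjoint x → P x := by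
    intro x hx hxs
    set c : ℝ := ‖x‖ + 1 with hc
    have hc0 : 0 < c := by positivity
    have h1 : P (((c⁻¹ : ℝ) : ℂ) • x) := by
      refine hsa1 _ ((LGvn G).toStarSubalgebra.smul_mem hx _) ?_ ?_
      · rw [IsSelfAdjoint, star_smul, hxs.star_eq]
        congr 1
        simp
      · rw [norm_smul, Complex.norm_real, norm_inv, Real.norm_of_nonneg hc0.le,
          inv_mul_le_one₀ hc0]
        linarith
    have h2 := hsmul (c : ℂ) _ ((LGvn G).toStarSubalgebra.smul_mem hx _) h1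
    rw [smul_smul, ← Complex.ofReal_mul, mul_inv_cancel₀ hc0.ne', Complex.ofReal_one,
      one_smul] at h2
    exact h2
  intro x hx
  have e : x = (2⁻¹ : ℂ) • (x + star x) + (2⁻¹ : ℂ) • (x + (-1 : ℂ) • star x) := by
    rw [← smul_add]
    have : x + star x + (x + (-1 : ℂ) • star x) = (2 : ℂ) • x := by
      rw [two_smul, neg_one_smul]; abel
    rw [this, smul_smul]
    norm_num
  have hsx : star x ∈ LGvn G := star_mem hx
  have h1 : P (x + star x) := by
    refine hsa _ (add_mem hx hsx) ?_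
    rw [IsSelfAdjoint, star_add, star_star, add_comm]
  have hsmem : ∀ (c : ℂ) {z : ell2 G →L[ℂ] ell2 G}, z ∈ LGvn G → c • z ∈ LGvn G :=
    fun c z hz => (LGvn G).toStarSubalgebra.smul_mem hz c
  have h2 : P (Complex.I • (x + (-1 : ℂ) • star x)) := by
    refine hsa _ (hsmem _ (add_mem hx (hsmem _ hsx))) ?_
    rw [IsSelfAdjoint, star_smul, star_add, star_smul, star_star]
    simp
    abel
  have h3 := hsmul (-Complex.I) _ (hsmem _ (add_mem hx (hsmem _ hsx))) h2
  rw [smul_smul, neg_mul, Complex.I_mul_I, neg_neg, one_smul] at h3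
  rw [e]
  exact hadd _ (hsmem _ (add_mem hx hsx)) _ (hsmem _ (add_mem hx (hsmem _ hsx)))
    (hsmul _ _ (add_mem hx hsx) h1) (hsmul _ _ (add_mem hx (hsmem _ hsx)) h3)

end Pool.Agent.ExT
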