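import Pool.Agent.ExT.Defs

/-!
# Kaplansky's functions `2t/(1+t²)` in tracial von Neumann algebras
-/

noncomputable section

namespace Pool.Agent.ExT

open scoped InnerProductSpace ComplexOrder Topology

universe u

variable {H : Type u} [NormedAddCommGroup H] [InnerProductSpace ℂ H] [CompleteSpace H]

/-- `(1 + a²)⁻¹`. -/
def res (a : H →L[ℂ] H) : H →L[ℂ] H := cfc (fun t : ℝ => (1 + t ^ 2)⁻¹) a

/-- `2a (1 + a²)⁻¹`. -/
def bd (a : H →L[ℂ] H) : H →L[ℂ] H := cfc (fun t : ℝ => 2 * t / (1 + t ^ 2)) a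

theorem cont_res : Continuous (fun t : ℝ => (1 + t ^ 2)⁻¹) := by
  refine Continuous.inv₀ (by fun_prop) fun t => ?_
  positivity

theorem cont_bd : Continuous (fun t : ℝ => 2 * t / (1 + t ^ 2)) := by
  refine Continuous.div (by fun_prop) (by fun_prop) fun t => ?_
  positivity

theorem cfc_mem (N : VonNeumannAlgebra H) {a : H →L[ℂ] H} (ha : a ∈ N) (f : ℝ → ℝ) :
    cfc f a ∈ N := by
  have h : cfc f a ∈ Set.centralizer (Set.centralizer (N : Set (H →L[ℂ] H))) := by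
    intro b hb
    have hab : Commute a b := hb a ha
    exact ((hab.cfc_real f).eq).symm
  exact (Set.ext_iff.1 N.centralizer_centralizer' _).1 h

variable {a b : H →L[ℂ] H}

theorem res_selfAdjoint (a : H →L[ℂ] H) : IsSelfAdjoint (res a) := cfc_predicate _ a

theorem bd_selfAdjoint (a : H →L[ℂ] H) : IsSelfAdjoint (bd a) := cfc_predicate _ a

theorem one_add_sq_eq (ha : IsSelfAdjoint a) : (1 + a * a) = cfc (fun t : ℝ => 1 + t ^ 2) a := by
  rw [cfc_add a (fun _ : ℝ => (1 : ℝ)) (fun t : ℝ => t ^ 2), cfc_const_one ℝ a,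
    cfc_pow (fun t : ℝ => t) 2 a, cfc_id' ℝ a, sq]

theorem mul_res (ha : IsSelfAdjoint a) : (1 + a * a) * res a = 1 := by
  rw [one_add_sq_eq ha, res, ← cfc_mul (fun t : ℝ => 1 + t ^ 2) (fun t : ℝ => (1 + t ^ 2)⁻¹) a
    (by fun_prop) cont_res.continuousOn, ← cfc_const_one ℝ a]
  refine cfc_congr fun t _ => ?_
  have : (1 + t ^ 2) ≠ 0 := by positivity
  simp [this]

theorem res_mul (ha : IsSelfAdjoint a) : res a * (1 + a * a) = 1 := by
  rw [one_add_sq_eq ha, res, ← cfc_mul (fun t : ℝ => (1 + t ^ 2)⁻¹) (fun t : ℝ => 1 + t ^ 2) a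
    cont_res.continuousOn (by fun_prop), ← cfc_const_one ℝ a]
  refine cfc_congr fun t _ => ?_
  have : (1 + t ^ 2) ≠ 0 := by positivity
  simp [this]

theorem bd_eq (ha : IsSelfAdjoint a) : bd a = (2 : ℝ) • (a * res a) := by
  have h1 : a * res a = cfc (fun t : ℝ => t * (1 + t ^ 2)⁻¹) a := by
    rw [cfc_mul (fun t : ℝ => t) (fun t : ℝ => (1 + t ^ 2)⁻¹) a (by fun_prop)
      cont_res.continuousOn, cfc_id' ℝ a, res]
  rw [h1, ← cfc_smul (2 : ℝ) (fun t : ℝ => t * (1 + t ^ 2)⁻¹) a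
    ((continuous_id.mul cont_res).continuousOn), bd]
  refine cfc_congr fun t _ => ?_
  simp only [smul_eq_mul]
  ring

theorem bd_eq' (ha : IsSelfAdjoint a) : bd a = (2 : ℝ) • (res a * a) := by
  rw [bd_eq ha]
  congr 1
  exact (((Commute.refl a).cfc_real (fun t : ℝ => (1 + t ^ 2)⁻¹)).eq).symm

theorem bd_eqC (ha : IsSelfAdjoint a) : bd a = (2 : ℂ) • (a * res a) := by
  rw [bd_eq ha, two_smul, two_smul]

theorem norm_res_le (a : H →L[ℂ] H) : ‖res a‖ ≤ 1 := by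
  refine norm_cfc_le zero_le_one fun t _ => ?_
  rw [norm_inv, Real.norm_of_nonneg (by positivity)]
  exact inv_le_one_of_one_le₀ (by nlinarith [sq_nonneg t])

theorem norm_bd_le (a : H →L[ℂ] H) : ‖bd a‖ ≤ 1 := by
  refine norm_cfc_le zero_le_one fun t _ => ?_
  rw [Real.norm_eq_abs, abs_div, abs_of_pos (by positivity : (0 : ℝ) < 1 + t ^ 2),
    div_le_one (by positivity), abs_mul, abs_two]
  nlinarith [sq_nonneg (|t| - 1), sq_abs t]

theorem bd_sub (ha : IsSelfAdjoint a) (hb : IsSelfAdjoint b) :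
    bd a - bd b = (2 : ℝ) • (res a * (a - b) * res b) +
      (2⁻¹ : ℝ) • (bd a * (b - a) * bd b) := by
  have h1 : res a * a = res a * a * ((1 + b * b) * res b) := by rw [mul_res hb, mul_one]
  have h2 : b * res b = (res a * (1 + a * a)) * (b * res b) := by rw [res_mul ha, one_mul]
  have e1 : bd a * (b - a) * bd b =
      (4 : ℝ) • (res a * a * (b - a) * (b * res b)) := by
    rw [bd_eq' ha, bd_eq hb]
    simp only [smul_mul_assoc, mul_smul_comm, smul_smul]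
    norm_num
  rw [e1, smul_smul]
  rw [bd_eq' ha, bd_eq hb]
  conv_lhs => rw [h1, h2]
  rw [← smul_sub]
  have e2 : (2⁻¹ * 4 : ℝ) = 2 := by norm_num
  rw [e2, ← smul_add]
  congr 1
  noncomm_ring

theorem norm_star_op (a : H →L[ℂ] H) : ‖star a‖ = ‖a‖ := norm_star a

/-- The continuous functional calculus. -/
def fc (f : ℝ → ℝ) (a : H →L[ℂ] H) : H →L[ℂ] H := cfc f a

theorem abs_le_of_mem_spectrum {a : H →L[ℂ] H} {C : ℝ} (hC : ‖a‖ ≤ C) {t : ℝ}
    (ht : t ∈ spectrum ℝ a) : |t| ≤ C := by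
  have := spectrum.norm_le_norm_mul_of_mem ht
  rw [Real.norm_eq_abs] at this
  have h1' : ‖(1 : H →L[ℂ] H)‖ ≤ 1 := ContinuousLinearMap.norm_id_le
  nlinarith [norm_nonneg a, norm_nonneg (1 : H →L[ℂ] H)]

theorem norm_fc_sub_aeval_le {a : H →L[ℂ] H} {f : ℝ → ℝ} (hf : Continuous f)
    {q : Polynomial ℝ} {C ε : ℝ}
    (hε : 0 ≤ ε) (hq : ∀ t ∈ Set.Icc (-C) C, |q.eval t - f t| < ε) (hxs : IsSelfAdjoint a)
    (hC : ‖a‖ ≤ C) : ‖fc f a - Polynomial.aeval a (q.map (algebraMap ℝ ℂ))‖ ≤ ε := by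
  rw [Polynomial.aeval_map_algebraMap, fc, ← cfc_polynomial q a hxs,
    ← cfc_sub f (fun t => q.eval t) a hf.continuousOn q.continuous.continuousOn]
  refine norm_cfc_le hε fun t ht => ?_
  have h1 := abs_le_of_mem_spectrum hC ht
  rw [abs_le] at h1
  have := hq t h1
  rw [abs_sub_comm] at this
  exact this.le

theorem norm_fc_le {f : ℝ → ℝ} {D : ℝ} (hD : 0 ≤ D) (hfD : ∀ t, |f t| ≤ D) (a : H →L[ℂ] H) :
    ‖fc f a‖ ≤ D := norm_cfc_le hD fun t _ => hfD t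

theorem fc_eq_self {f : ℝ → ℝ} {D : ℝ} (hf : ∀ t, |t| ≤ D → f t = t) {a : H →L[ℂ] H}
    (ha : IsSelfAdjoint a) (hD : ‖a‖ ≤ D) : fc f a = a := by
  rw [fc]
  conv_rhs => rw [← cfc_id' ℝ a]
  exact cfc_congr fun t ht => hf t (abs_le_of_mem_spectrum hD ht)

/-- The right inverse of `t ↦ 2t/(1+t²)` on `[-1, 1]`. -/
def ibd (x : H →L[ℂ] H) : H →L[ℂ] H := cfc (fun t : ℝ => t / (1 + Real.sqrt (1 - t ^ 2))) x

theorem cont_ibd : Continuous (fun t : ℝ => t / (1 + Real.sqrt (1 - t ^ 2))) := by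
  refine Continuous.div (by fun_prop) (by fun_prop) fun t => ?_
  positivity

theorem bd_ibd {x : H →L[ℂ] H} (hx : IsSelfAdjoint x) (hx1 : ‖x‖ ≤ 1) : bd (ibd x) = x := by
  rw [bd, ibd, ← cfc_comp (fun t : ℝ => 2 * t / (1 + t ^ 2))
    (fun t : ℝ => t / (1 + Real.sqrt (1 - t ^ 2))) x hx (cont_bd.continuousOn)
    (cont_ibd.continuousOn)]
  conv_rhs => rw [← cfc_id' ℝ x]
  refine cfc_congr fun t ht => ?_
  have h1 : |t| ≤ 1 := by
    have := spectrum.norm_le_norm_mul_of_mem ht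
    rw [Real.norm_eq_abs] at this
    have h1' : ‖(1 : H →L[ℂ] H)‖ ≤ 1 := ContinuousLinearMap.norm_id_le
    nlinarith [norm_nonneg x, norm_nonneg (1 : H →L[ℂ] H)]
  have h2 : t ^ 2 ≤ 1 := by
    rw [← sq_abs]; nlinarith [abs_nonneg t]
  simp only [Function.comp]
  set s := Real.sqrt (1 - t ^ 2) with hs
  have hs2 : s ^ 2 = 1 - t ^ 2 := Real.sq_sqrt (by linarith)
  have hs0 : 0 ≤ s := Real.sqrt_nonneg _
  have h3 : 1 + s ≠ 0 := by positivity
  have h4 : 1 + (t / (1 + s)) ^ 2 ≠ 0 := by positivity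
  rw [div_eq_iff h4]
  field_simp
  linear_combination (-t) * hs2

namespace TracialVNA

variable {N : TracialVNA H} {x y : H →L[ℂ] H}

theorem norm_bd_sub_le (hx : x ∈ N.alg) (hy : y ∈ N.alg) (hxs : IsSelfAdjoint x)
    (hys : IsSelfAdjoint y) : ‖(bd x - bd y) N.Ω‖ ≤ 5 / 2 * ‖(x - y) N.Ω‖ := by
  have hrx : res x ∈ N.alg := cfc_mem N.alg hx _
  have hry : res y ∈ N.alg := cfc_mem N.alg hy _
  have hbx : bd x ∈ N.alg := cfc_mem N.alg hx _
  have hby : bd y ∈ N.alg := cfc_mem N.alg hy _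
  have key : ∀ p z q : H →L[ℂ] H, p ∈ N.alg → z ∈ N.alg → q ∈ N.alg → ‖p‖ ≤ 1 → ‖q‖ ≤ 1 →
      ‖(p * z * q) N.Ω‖ ≤ ‖z N.Ω‖ := by
    intro p z q hp hz hq hp1 hq1
    refine (norm_mul_Ω (mul_mem hp hz) hq).trans ?_
    have h1 : ‖(p * z) N.Ω‖ ≤ ‖z N.Ω‖ := by
      rw [mul_apply_eq_comp]
      refine (p.le_opNorm _).trans ?_
      nlinarith [norm_nonneg (z N.Ω)]
    nlinarith [norm_nonneg ((p * z) N.Ω), norm_nonneg q]
  rw [bd_sub hxs hys, add_apply, smul_apply, smul_apply]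
  refine (norm_add_le _ _).trans ?_
  rw [norm_smul, norm_smul]
  have h1 := key (res x) (x - y) (res y) hrx (sub_mem hx hy) hry (norm_res_le _) (norm_res_le _)
  have h2 := key (bd x) (y - x) (bd y) hbx (sub_mem hy hx) hby (norm_bd_le _) (norm_bd_le _)
  have h3 : ‖(y - x) N.Ω‖ = ‖(x - y) N.Ω‖ := by
    rw [← neg_sub, neg_apply, norm_neg]
  rw [h3] at h2
  have e2 : ‖(2 : ℝ)‖ = 2 := by norm_num
  have e3 : ‖(2⁻¹ : ℝ)‖ = 2⁻¹ := by norm_num
  rw [e2, e3]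
  linarith

end TracialVNA

end Pool.Agent.ExT
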