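import Mathlib

/-!
# Definitions used in the statement

A tracial von Neumann algebra is given by a von Neumann algebra `M` on a Hilbert space `H` and a
vector `Ω` such that `τ(x) = ⟨x Ω, Ω⟩` is a faithful (automatically normal) tracial state on `M`;
`‖x‖₂ = ‖x Ω‖`.
-/

noncomputable section

namespace Pool.Agent.ExT.Pub

open scoped InnerProductSpace ComplexOrder Topology
open Filter

universe u v w

section VN

variable {H : Type u} [NormedAddCommGroup H] [InnerProductSpace ℂ H] [CompleteSpace H]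

/-- `M` is a II₁ factor, and `τ(x) = ⟨x Ω, Ω⟩` is its trace (a faithful normal tracial state):
`M` has trivial centre and is infinite dimensional. -/
structure IsII1Factor (M : VonNeumannAlgebra H) (Ω : H) : Prop where
  norm_Ω : ‖Ω‖ = 1
  trace : ∀ x ∈ M, ∀ y ∈ M, ⟪Ω, (x * y) Ω⟫_ℂ = ⟪Ω, (y * x) Ω⟫_ℂ
  faithful : ∀ x ∈ M, x Ω = 0 → x = 0
  centre : ∀ z ∈ M, (∀ x ∈ M, z * x = x * z) → ∃ c : ℂ, z = c • 1
  infinite : ¬ FiniteDimensional ℂ M.toStarSubalgebra

/-- `φ : N → N` is a normal, unital, trace preserving, completely positive map which induces a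
compact operator on `L²(N)`, the closure of `N Ω`. -/
structure IsHaagerupMap (N : VonNeumannAlgebra H) (Ω : H)
    (φ : N.toStarSubalgebra →ₗ[ℂ] N.toStarSubalgebra) : Prop where
  unital : φ 1 = 1
  trace : ∀ x : N.toStarSubalgebra,
    ⟪Ω, (φ x : H →L[ℂ] H) Ω⟫_ℂ = ⟪Ω, (x : H →L[ℂ] H) Ω⟫_ℂ
  /-- complete positivity: the matrices `(φ(x_i* x_j))` are positive -/
  cp : ∀ (n : ℕ) (x : Fin n → N.toStarSubalgebra) (ξ : Fin n → H),
    0 ≤ ∑ i, ∑ j, ⟪ξ i, (φ (star (x i) * x j) : H →L[ℂ] H) (ξ j)⟫_ℂ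
  /-- normality, i.e. strong continuity on bounded sets -/
  normal : ∀ x : ℕ → N.toStarSubalgebra, (∃ C : ℝ, ∀ n, ‖(x n : H →L[ℂ] H)‖ ≤ C) →
    Tendsto (fun n => ‖(x n : H →L[ℂ] H) Ω‖) atTop (𝓝 0) →
    ∀ ξ : H, Tendsto (fun n => (φ (x n) : H →L[ℂ] H) ξ) atTop (𝓝 0)
  /-- `φ` induces a compact operator on `L²(N)` -/
  compact : ∃ T : H →L[ℂ] H, IsCompactOperator T ∧
    ∀ x : N.toStarSubalgebra, T ((x : H →L[ℂ] H) Ω) = (φ x : H →L[ℂ] H) Ω

/-- The Haagerup property of `N`: there is a net of maps `φ` as in `IsHaagerupMap` with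
`‖φ(x) - x‖₂ → 0` for all `x ∈ N`.  The net is indexed by pairs `(F, ε)`. -/
structure HaagerupProperty (N : VonNeumannAlgebra H) (Ω : H) : Prop where
  out : ∀ (F : Finset N.toStarSubalgebra) (ε : ℝ), 0 < ε →
    ∃ φ : N.toStarSubalgebra →ₗ[ℂ] N.toStarSubalgebra, IsHaagerupMap N Ω φ ∧
      ∀ x ∈ F, ‖((φ x : H →L[ℂ] H) - x) Ω‖ < ε

/-- `K` with the left action `l` and the right action `r` is a Hilbert `M`-`M` bimodule: the
`*`-representations `l` of `M` and `r` of the opposite algebra commute and are normal, i.e.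
strongly continuous on bounded sets (the unit ball of `M` is metrised by `‖·‖₂`). -/
structure IsBimodule (M : VonNeumannAlgebra H) (Ω : H)
    {K : Type v} [NormedAddCommGroup K] [InnerProductSpace ℂ K] [CompleteSpace K]
    (l : M.toStarSubalgebra →⋆ₐ[ℂ] (K →L[ℂ] K))
    (r : (M.toStarSubalgebra)ᵐᵒᵖ →⋆ₐ[ℂ] (K →L[ℂ] K)) : Prop where
  comm : ∀ (x y : M.toStarSubalgebra) (ξ : K),
    l x (r (MulOpposite.op y) ξ) = r (MulOpposite.op y) (l x ξ)
  left_normal : ∀ x : ℕ → M.toStarSubalgebra, (∃ C : ℝ, ∀ n, ‖(x n : H →L[ℂ] H)‖ ≤ C) →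
    Tendsto (fun n => ‖(x n : H →L[ℂ] H) Ω‖) atTop (𝓝 0) →
    ∀ ξ : K, Tendsto (fun n => l (x n) ξ) atTop (𝓝 0)
  right_normal : ∀ x : ℕ → M.toStarSubalgebra, (∃ C : ℝ, ∀ n, ‖(x n : H →L[ℂ] H)‖ ≤ C) →
    Tendsto (fun n => ‖(x n : H →L[ℂ] H) Ω‖) atTop (𝓝 0) →
    ∀ ξ : K, Tendsto (fun n => r (MulOpposite.op (x n)) ξ) atTop (𝓝 0)

/-- `(F, δ)` is a Kazhdan pair for the Hilbert `M`-`M` bimodules with underlying space `K`: if
there is a unit vector `ξ` with `‖x ξ - ξ x‖ < δ` for `x ∈ F` then there is a nonzero `M`-central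
vector. -/
structure IsKazhdanPair (M : VonNeumannAlgebra H) (Ω : H) (F : Finset M.toStarSubalgebra) (δ : ℝ)
    (K : Type v) [NormedAddCommGroup K] [InnerProductSpace ℂ K] [CompleteSpace K] : Prop where
  out : ∀ (l : M.toStarSubalgebra →⋆ₐ[ℂ] (K →L[ℂ] K))
    (r : (M.toStarSubalgebra)ᵐᵒᵖ →⋆ₐ[ℂ] (K →L[ℂ] K)), IsBimodule M Ω l r →
    ∀ ξ : K, ‖ξ‖ = 1 → (∀ x ∈ F, ‖l x ξ - r (MulOpposite.op x) ξ‖ < δ) →
      ∃ η : K, η ≠ 0 ∧ ∀ x : M.toStarSubalgebra, l x η = r (MulOpposite.op x) η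

/-- Property (T) of `M` (Connes and Jones). -/
structure PropertyT (M : VonNeumannAlgebra H) (Ω : H) : Prop where
  out : ∃ (F : Finset M.toStarSubalgebra) (δ : ℝ), 0 < δ ∧
    ∀ (K : Type v) [NormedAddCommGroup K] [InnerProductSpace ℂ K] [CompleteSpace K],
      IsKazhdanPair M Ω F δ K

/-- `π` is a unital trace preserving `*`-homomorphism from `M` to the tracial ultrapower `N^U`
(both with the trace `⟨x Ω, Ω⟩`), whose restriction to `N ⊆ M` is the diagonal embedding.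
The elements of `N^U` are the classes of the bounded sequences in `N` modulo the sequences
`(x_n)` with `lim_U ‖x_n‖₂ = 0`; `π x` is a sequence in the class of the image of `x`. -/
structure IsUltraEmbedding (U : Ultrafilter ℕ) (N M : VonNeumannAlgebra H) (Ω : H)
    (π : M.toStarSubalgebra → ℕ → (H →L[ℂ] H)) : Prop where
  mem : ∀ x n, π x n ∈ N
  bounded : ∀ x, ∃ C : ℝ, ∀ n, ‖π x n‖ ≤ C
  map_one : Tendsto (fun n => ‖(π 1 n - 1) Ω‖) U (𝓝 0)
  map_add : ∀ x y, Tendsto (fun n => ‖(π (x + y) n - (π x n + π y n)) Ω‖) U (𝓝 0)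
  map_smul : ∀ (c : ℂ) x, Tendsto (fun n => ‖(π (c • x) n - c • π x n) Ω‖) U (𝓝 0)
  map_mul : ∀ x y, Tendsto (fun n => ‖(π (x * y) n - π x n * π y n) Ω‖) U (𝓝 0)
  map_star : ∀ x, Tendsto (fun n => ‖(π (star x) n - star (π x n)) Ω‖) U (𝓝 0)
  map_trace : ∀ x : M.toStarSubalgebra,
    Tendsto (fun n => ⟪Ω, π x n Ω⟫_ℂ) U (𝓝 ⟪Ω, (x : H →L[ℂ] H) Ω⟫_ℂ)
  diagonal : ∀ x : M.toStarSubalgebra, (x : H →L[ℂ] H) ∈ N →
    Tendsto (fun n => ‖(π x n - (x : H →L[ℂ] H)) Ω‖) U (𝓝 0)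

/-- `N ⊆ M` is an existential inclusion of tracial von Neumann algebras. -/
structure IsExistential (U : Ultrafilter ℕ) (N M : VonNeumannAlgebra H) (Ω : H) : Prop where
  le : ∀ x ∈ N, x ∈ M
  out : ∃ π : M.toStarSubalgebra → ℕ → (H →L[ℂ] H), IsUltraEmbedding U N M Ω π

/-- The relative commutant of `N` in `M` is trivial. -/
structure IsIrreducible (N M : VonNeumannAlgebra H) : Prop where
  out : ∀ z ∈ M, (∀ x ∈ N, z * x = x * z) → ∃ c : ℂ, z = c • 1

/-- `M` is generated by the unitaries `u g`, which multiply like the elements of `G` and have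
trace `0` for `g ≠ 1`, and `N` is generated by the `u g` with `g ∈ S`. -/
structure IsGroupRep {G : Type w} [Group G] (S : Subgroup G) (N M : VonNeumannAlgebra H)
    (Ω : H) (u : G → (H →L[ℂ] H)) : Prop where
  map_one : u 1 = 1
  map_mul : ∀ g h, u (g * h) = u g * u h
  map_inv : ∀ g, u g⁻¹ = star (u g)
  trace : ∀ g, g ≠ 1 → ⟪Ω, u g Ω⟫_ℂ = 0
  mem_M : ∀ g, u g ∈ M
  generate_M : ∀ P : VonNeumannAlgebra H, (∀ g, u g ∈ P) → ∀ x ∈ M, x ∈ P
  mem_N : ∀ g ∈ S, u g ∈ N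
  generate_N : ∀ P : VonNeumannAlgebra H, (∀ g ∈ S, u g ∈ P) → ∀ x ∈ N, x ∈ P

/-- `M = L(G)` and `N = L(S) ⊆ L(G)`, for a subgroup `S` of `G`. -/
structure IsGroupPair {G : Type w} [Group G] (S : Subgroup G) (N M : VonNeumannAlgebra H)
    (Ω : H) : Prop where
  out : ∃ u : G → (H →L[ℂ] H), IsGroupRep S N M Ω u

end VN

section Groups

/-- `(F, δ)` is a Kazhdan pair for the unitary representations of `G` on `K`. -/
structure IsGroupKazhdanPair (G : Type u) [Group G] (F : Finset G) (δ : ℝ)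
    (K : Type v) [NormedAddCommGroup K] [InnerProductSpace ℂ K] [CompleteSpace K] : Prop where
  out : ∀ (π : G →* unitary (K →L[ℂ] K)) (ξ : K), ‖ξ‖ = 1 →
      (∀ s ∈ F, ‖(π s : K →L[ℂ] K) ξ - ξ‖ < δ) →
      ∃ η : K, η ≠ 0 ∧ ∀ g : G, (π g : K →L[ℂ] K) η = η

/-- Kazhdan's property (T) for the discrete group `G`. -/
structure GroupPropertyT (G : Type u) [Group G] : Prop where
  out : ∃ (F : Finset G) (δ : ℝ), 0 < δ ∧
    ∀ (K : Type v) [NormedAddCommGroup K] [InnerProductSpace ℂ K] [CompleteSpace K],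
      IsGroupKazhdanPair G F δ K

/-- Every finite subset of `G` generates a finite subgroup. -/
def IsLocallyFinite (G : Type u) [Group G] : Prop :=
  ∀ F : Finset G, Finite (Subgroup.closure (F : Set G))

/-- `G` is ICC: every conjugacy class other than that of the identity is infinite. -/
def IsICC (G : Type u) [Group G] : Prop :=
  ∀ g : G, g ≠ 1 → {k : G | IsConj g k}.Infinite

/-- The inclusion `S ≤ G` is existential: `G` embeds in the group ultrapower `S^U` by a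
homomorphism whose restriction to `S` is the diagonal embedding. -/
def IsExistentialSubgroup {G : Type u} [Group G] (U : Ultrafilter ℕ) (S : Subgroup G) : Prop :=
  ∃ θ : G →* (U : Filter ℕ).Germ S, Function.Injective θ ∧
    ∀ h : S, θ (h : G) = ((fun _ => h : ℕ → S) : (U : Filter ℕ).Germ S)

end Groups

end Pool.Agent.ExT.Pub
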