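import Pool.Agent.ExT.Pub
import Pool.Agent.ExT.Gen
import Pool.Agent.ExT.Final

/-!
# The statement from the internal form of the results
-/

noncomputable section

namespace Pool.Agent.ExT

open scoped ENNReal InnerProductSpace ComplexOrder Topology
open Filter
open Pool.Agent.InnerAm (ell2 leftReg rightReg delta normSq_ell2 rightReg_apply leftReg_apply
  delta_apply rightReg_delta leftReg_delta norm_delta star_leftReg leftReg_rightReg_comm
  leftReg_mul_inv inner_leftReg)

universe u v

section Conv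

variable {H : Type u} [NormedAddCommGroup H] [InnerProductSpace ℂ H] [CompleteSpace H]
  (N : TracialVNA H)

theorem pub_factor (h : N.IsII1Factor) : Pub.IsII1Factor N.alg N.Ω where
  norm_Ω := N.norm_Ω
  trace := N.trace
  faithful := N.faithful
  centre z hz hc := by
    obtain ⟨c, hc⟩ := h.1 ⟨z, hz⟩ fun x => Subtype.ext (hc x.1 x.2)
    exact ⟨c, congrArg Subtype.val hc⟩
  infinite := h.2

theorem pub_haagerup (h : N.HasHaagerupProperty) : Pub.HaagerupProperty N.alg N.Ω where
  out F ε hε := by
    obtain ⟨φ, h1, h2⟩ := h F ε hε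
    exact ⟨φ, ⟨h1.unital, h1.trace, h1.cp, h1.normal, h1.compact⟩, h2⟩

theorem pub_propertyT (h : TracialVNA.HasPropertyT.{u, v} N) :
    Pub.PropertyT.{u, v} N.alg N.Ω where
  out := by
    obtain ⟨F, δ, hδ, hF⟩ := h
    refine ⟨F, δ, hδ, fun K _ _ _ => ⟨fun l r hlr ξ hξ hF' => ?_⟩⟩
    exact hF K ⟨l, r, fun x y => ContinuousLinearMap.ext fun η => hlr.comm x y.unop η,
      hlr.left_normal, hlr.right_normal⟩ ξ hξ hF'

end Conv

theorem pub_groupT {G : Type u} [Group G] (h : GroupPropertyT.{u, v} G) :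
    Pub.GroupPropertyT.{u, v} G where
  out := by
    obtain ⟨F, δ, hδ, hF⟩ := h
    exact ⟨F, δ, hδ, fun K _ _ _ => ⟨hF K⟩⟩

variable {G : Type u} [Group G]

theorem pub_groupRep (S : Subgroup G) :
    Pub.IsGroupRep S (LSvn S) (LGvn G) (delta (1 : G)) leftReg where
  map_one := leftReg_one
  map_mul := leftReg_mul
  map_inv g := (star_leftReg g).symm
  trace g hg := by
    rw [leftReg_delta, inner_delta_left, delta_apply, if_neg (Ne.symm hg)]
  mem_M := leftReg_mem_LG
  generate_M := LGvn_generate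
  mem_N _ hg := leftReg_mem_LS hg
  generate_N := LSvn_generate S

theorem pub_existential {U : Ultrafilter ℕ} {S : Subgroup G}
    (h : (LSincl S).IsExistential U) :
    Pub.IsExistential U (LSvn S) (LGvn G) (delta (1 : G)) where
  le x hx := LSvn_le S hx
  out := by
    obtain ⟨π, hπ⟩ := h
    exact ⟨fun x n => (π.seq x n).1, ⟨fun x n => (π.seq x n).2, π.bounded, π.map_one,
      π.map_add, π.map_smul, π.map_mul, π.map_star, π.map_trace, fun x hx => hπ ⟨x.1, hx⟩⟩⟩

end Pool.Agent.ExT
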